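import Pool.Agent.W851.Had.Rec
import Pool.Agent.H108R3.Had.Main

/-! Hadamard matrices of order `2 ^ t * q` for all `t ≥ C ^ (1 + log* q)`. -/

namespace Pool.Agent.W851.Had

open Finset Pool.Agent.H108R3.Had

/-- power tower of `n` twos -/
def tow (n : ℕ) : ℕ := (fun x : ℕ => 2 ^ x)^[n] 1

theorem tow_zero : tow 0 = 1 := rfl

theorem tow_succ (n : ℕ) : tow (n + 1) = 2 ^ tow n := by
  unfold tow
  rw [Function.iterate_succ_apply']

theorem tow_pos (n : ℕ) : 1 ≤ tow n := by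
  cases n with
  | zero => exact le_rfl
  | succ n => rw [tow_succ]; exact Nat.one_le_two_pow

theorem growth (κ : ℕ) (h : 1024 ≤ κ) : 2 ^ 181 * κ ^ 2 ≤ 2 ^ κ := by
  induction κ, h using Nat.le_induction with
  | base =>
    calc 2 ^ 181 * 1024 ^ 2 = 2 ^ 201 := by norm_num
      _ ≤ 2 ^ 1024 := Nat.pow_le_pow_right (by norm_num) (by norm_num)
  | succ κ hκ ih =>
    have h1 : (κ + 1) ^ 2 ≤ 2 * κ ^ 2 := by nlinarith
    calc 2 ^ 181 * (κ + 1) ^ 2 ≤ 2 ^ 181 * (2 * κ ^ 2) := Nat.mul_le_mul_left _ h1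
      _ = 2 * (2 ^ 181 * κ ^ 2) := by ring
      _ ≤ 2 * 2 ^ κ := Nat.mul_le_mul_left _ ih
      _ = 2 ^ (κ + 1) := by rw [pow_succ]; ring

theorem step_ineq (κ t : ℕ) (hκ : 1024 ≤ κ) (ht : 1 ≤ t) :
    2 ^ 59 * (2 ^ 60 * κ) * (t + 2 ^ 60 * κ) + 2 ≤ t * 2 ^ κ := by
  have h1 := growth κ hκ
  have h2 : 2 ^ 59 * (2 ^ 60 * κ) * (t + 2 ^ 60 * κ) + 2 ≤ t * (2 ^ 181 * κ ^ 2) := by
    have h3 : t + 2 ^ 60 * κ ≤ t * (2 ^ 61 * κ) := by nlinarith
    calc 2 ^ 59 * (2 ^ 60 * κ) * (t + 2 ^ 60 * κ) + 2 ≤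
        2 ^ 59 * (2 ^ 60 * κ) * (t * (2 ^ 61 * κ)) + 2 := by
          have := Nat.mul_le_mul_left (2 ^ 59 * (2 ^ 60 * κ)) h3
          omega
      _ = t * (2 ^ 180 * κ ^ 2) + 2 := by ring
      _ ≤ t * (2 ^ 180 * κ ^ 2) + t * (2 ^ 180 * κ ^ 2) := by
          have h4 : 2 ≤ t * (2 ^ 180 * κ ^ 2) := by
            have h5 : 1 * (2 ^ 180 * 1 ^ 2) ≤ t * (2 ^ 180 * κ ^ 2) :=
              Nat.mul_le_mul ht (Nat.mul_le_mul_left _ (Nat.pow_le_pow_left (by omega) 2))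
            refine le_trans ?_ h5
            norm_num
          omega
      _ = t * (2 ^ 181 * κ ^ 2) := by ring
  exact h2.trans (Nat.mul_le_mul_left _ h1)

/-- the induction -/
theorem tower_ind (h1 : St_base) (h2 : St_lift) (h3 : St_dbl) (h4 : St_add) (h5 : St_mul)
    {L₁ K₀ : ℕ} (hL₁ : ∀ L : ℕ, L₁ ≤ L → ∃ M : ℕ,
    L ^ 40 ≤ M ∧ ∀ n < 2 ^ L, ∃ l : List ℕ, l.length ≤ 2 ^ 57 ∧
      (∀ y ∈ l, Rp (L ^ 400) M y) ∧ l.sum = n) (hK1 : 1024 ≤ K₀) (hK2 : L₁ ≤ K₀)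
    (hbase : ∀ s < 2 ^ (2 ^ 59 * K₀ * (1 + K₀) + 2), PUk (K₀ - 1) s) (n : ℕ) :
    ∀ s < 2 ^ (2 ^ 59 * (K₀ * (2 ^ 60) ^ n) * (tow n + K₀ * (2 ^ 60) ^ n) + 2),
      PUk (K₀ * (2 ^ 60) ^ n - 1) s := by
  induction n with
  | zero => rw [pow_zero, mul_one, tow_zero]; exact hbase
  | succ n ih =>
    obtain ⟨κ, hκ⟩ : ∃ κ, κ = K₀ * (2 ^ 60) ^ n := ⟨_, rfl⟩
    have hκ' : K₀ * (2 ^ 60) ^ (n + 1) = 2 ^ 60 * κ := by rw [hκ, pow_succ]; ring
    rw [hκ']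
    rw [← hκ] at ih
    have hκ0 : K₀ ≤ κ := by rw [hκ]; exact Nat.le_mul_of_pos_right _ (by positivity)
    intro s hs
    have hlam : L₁ ≤ 2 ^ (tow n + κ) := by
      calc L₁ ≤ κ := hK2.trans hκ0
        _ ≤ tow n + κ := Nat.le_add_left _ _
        _ ≤ 2 ^ (tow n + κ) := Nat.lt_two_pow_self.le
    obtain ⟨M, hM, hex⟩ := hL₁ _ hlam
    have h6 := rec_step h1 h2 h3 h4 h5 (L := 2 ^ (tow n + κ)) (lam := tow n + κ) (k := κ - 1)
      (Y := 2 ^ 59 * κ * (tow n + κ) + 2) rfl (by omega) hM hex (by omega) (by omega) (by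
        have e1 : κ - 1 + 1 = κ := by omega
        rw [e1]
        have e2 : 2 ^ 58 * κ + 400 ≤ 2 ^ 59 * κ := by omega
        have := Nat.mul_le_mul_right (tow n + κ) e2
        omega) ih
    have e1 : κ - 1 + 1 = κ := by omega
    rw [e1] at h6
    apply h6
    refine lt_of_lt_of_le hs (Nat.pow_le_pow_right (by norm_num) ?_)
    have h7 := step_ineq κ (tow (n + 1)) (by omega) (tow_pos _)
    refine h7.trans (le_of_eq ?_)
    rw [tow_succ, pow_add]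

/-- a starting point -/
theorem exists_start (C : ℝ) (N₀ : ℕ) (hC : 1 ≤ C) : ∃ m : ℕ, N₀ ≤ m ∧ 200 ≤ m ∧
    C * (16 * (m : ℝ) ^ 2) + 1 ≤ 2 ^ m := by
  have h1 : Filter.Tendsto (fun n : ℕ => (n : ℝ) ^ 2 / 2 ^ n) Filter.atTop (nhds 0) :=
    tendsto_pow_const_div_const_pow_of_one_lt 2 (by norm_num)
  have h2 : ∀ᶠ n : ℕ in Filter.atTop, (n : ℝ) ^ 2 / 2 ^ n < 1 / (32 * C) :=
    h1.eventually (gt_mem_nhds (by positivity))
  obtain ⟨m, hm1, hm2⟩ := (h2.and (Filter.eventually_ge_atTop (N₀ + 200))).exists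
  refine ⟨m, by omega, by omega, ?_⟩
  have hp : (0 : ℝ) < 2 ^ m := by positivity
  rw [div_lt_div_iff₀ hp (by positivity)] at hm1
  have h3 : (2 : ℝ) ≤ 2 ^ m := by
    calc (2 : ℝ) = 2 ^ 1 := by norm_num
      _ ≤ 2 ^ m := pow_le_pow_right₀ (by norm_num) (by omega)
  nlinarith

theorem main_pu : ∃ C : ℕ, 2 ≤ C ∧ ∀ n q t : ℕ, q ≤ tow n → C ^ (n + 1) ≤ t → PUk t q := by
  have h2 : St_lift := lift
  have h3 : St_dbl := t_P4 t_P1
  obtain ⟨L₁, -, hL₁⟩ := exact_window t_N1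
  obtain ⟨C, hC, hone⟩ := round_one t_P2 lift (t_P4 t_P1) add t_P5 t_N1 core
  obtain ⟨m, hm1, hm2, hm3⟩ := exists_start C L₁ hC
  have h12 : PUk 1 2 := by
    have := h3 1 1 le_rfl (h2 0 1 t_P2.2)
    simpa using this
  obtain ⟨K₀, hK₀⟩ : ∃ K₀, K₀ = 2 ^ m := ⟨_, rfl⟩
  have hmK : m ≤ K₀ := by rw [hK₀]; exact Nat.lt_two_pow_self.le
  have hK1024 : 1024 ≤ K₀ := by
    rw [hK₀]
    calc 1024 = 2 ^ 10 := by norm_num
      _ ≤ 2 ^ m := Nat.pow_le_pow_right (by norm_num) (by omega)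
  have hbase : ∀ s < 2 ^ (2 ^ 59 * K₀ * (1 + K₀) + 2), PUk (K₀ - 1) s := by
    intro s hs
    rcases lt_or_ge s 3 with h | h
    · have hs' : s = 0 ∨ s = 1 ∨ s = 2 := by omega
      rcases hs' with rfl | rfl | rfl
      · exact PUk_mono h2 (Nat.zero_le _) t_P2.1
      · exact PUk_mono h2 (Nat.zero_le _) t_P2.2
      · exact PUk_mono h2 (by omega) h12
    · apply hone s _ h
      have hll := loglog_pos h
      have hs3 : (3 : ℝ) ≤ s := by exact_mod_cast h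
      have hlogs : 0 < Real.log s := Real.log_pos (by linarith)
      -- `log log s ≤ 61 + 2 m`
      have hY : 2 ^ 59 * K₀ * (1 + K₀) + 2 ≤ 2 ^ (61 + 2 * m) := by
        have e1 : 2 ^ (61 + 2 * m) = 2 ^ 61 * (K₀ * K₀) := by
          rw [pow_add, two_mul m, pow_add, ← hK₀]
        rw [e1]
        nlinarith
      have hs2 : (s : ℝ) ≤ 2 ^ (2 ^ (61 + 2 * m)) := by
        have h5 : s < 2 ^ (2 ^ (61 + 2 * m)) :=
          lt_of_lt_of_le hs (Nat.pow_le_pow_right (by norm_num) hY)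
        exact_mod_cast h5.le
      have h6 := Real.log_le_log (by linarith) hs2
      rw [Real.log_pow] at h6
      have hl2 := Real.log_two_lt_d9
      have hl20 : 0 < Real.log 2 := Real.log_pos (by norm_num)
      have h7 : Real.log s ≤ 2 ^ (61 + 2 * m) := by
        refine h6.trans ?_
        push_cast
        have : (0 : ℝ) ≤ 2 ^ (61 + 2 * m) := by positivity
        nlinarith
      have h8 := Real.log_le_log hlogs h7
      rw [Real.log_pow] at h8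
      have h9 : Real.log (Real.log s) ≤ 61 + 2 * m := by
        refine h8.trans ?_
        push_cast
        have : (0 : ℝ) ≤ 61 + 2 * (m : ℝ) := by positivity
        nlinarith
      have hm200 : (200 : ℝ) ≤ m := by exact_mod_cast hm2
      have h10 : (1 + Real.log (Real.log s)) ^ 2 ≤ 16 * (m : ℝ) ^ 2 := by
        have : (1 + Real.log (Real.log s)) ≤ 4 * m := by linarith
        calc (1 + Real.log (Real.log s)) ^ 2 ≤ (4 * (m : ℝ)) ^ 2 :=
              pow_le_pow_left₀ (by linarith) this 2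
          _ = _ := by ring
      have h11 : C * (1 + Real.log (Real.log s)) ^ 2 ≤ 2 ^ m - 1 := by
        have := mul_le_mul_of_nonneg_left h10 (by linarith : 0 ≤ C)
        linarith
      refine h11.trans (le_of_eq ?_)
      rw [Nat.cast_sub (by omega), hK₀]
      push_cast
      rfl
  have hind := tower_ind t_P2 lift (t_P4 t_P1) add t_P5 hL₁ hK1024 (by omega) hbase
  refine ⟨K₀ * 2 ^ 60, by omega, fun n q t hq ht => ?_⟩
  have h6 : q < 2 ^ (2 ^ 59 * (K₀ * (2 ^ 60) ^ n) * (tow n + K₀ * (2 ^ 60) ^ n) + 2) := by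
    refine lt_of_lt_of_le (lt_of_le_of_lt hq Nat.lt_two_pow_self)
      (Nat.pow_le_pow_right (by norm_num) ?_)
    have h7 : 0 < 2 ^ 59 * (K₀ * (2 ^ 60) ^ n) := by
      have : 0 < K₀ := by omega
      positivity
    calc tow n ≤ tow n + K₀ * (2 ^ 60) ^ n := Nat.le_add_right _ _
      _ ≤ 2 ^ 59 * (K₀ * (2 ^ 60) ^ n) * (tow n + K₀ * (2 ^ 60) ^ n) :=
          Nat.le_mul_of_pos_left _ h7
      _ ≤ _ := Nat.le_add_right _ _
  refine PUk_mono lift ?_ (hind n q h6)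
  have h8 : K₀ * (2 ^ 60) ^ n ≤ (K₀ * 2 ^ 60) ^ (n + 1) := by
    calc K₀ * (2 ^ 60) ^ n ≤ K₀ * (K₀ ^ n * (2 ^ 60) ^ (n + 1)) := by
          apply Nat.mul_le_mul_left
          calc (2 ^ 60) ^ n ≤ (2 ^ 60) ^ (n + 1) := Nat.pow_le_pow_right (by norm_num) (by omega)
            _ ≤ K₀ ^ n * (2 ^ 60) ^ (n + 1) := Nat.le_mul_of_pos_left _ (by
                have : 0 < K₀ := by omega
                positivity)
      _ = (K₀ * 2 ^ 60) ^ (n + 1) := by rw [mul_pow, pow_succ K₀ n]; ring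
  omega

/-- the final theorem -/
theorem main_had : ∃ C : ℕ, 2 ≤ C ∧ ∀ n q t : ℕ, q ≤ tow n → C ^ (n + 1) ≤ t →
    HasHad (2 ^ t * q) := by
  obtain ⟨C, hC, h⟩ := main_pu
  exact ⟨C, hC, fun n q t hq ht => t_P7 _ _ (h n q t hq ht)⟩

end Pool.Agent.W851.Had
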