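import Pool.Agent.W851.Had.SAx

/-! The bilinear inequality. -/

namespace Pool.Agent.W851.Had

open Finset Pool.Agent.H108R3.Had

theorem sum_dist_le (g : ℕ → ℝ) (hg : ∀ h, 0 ≤ g h) (a H : ℕ) (P : Finset ℕ)
    (hP : ∀ m ∈ P, a ≤ m ∧ m ≤ a + H) (x : ℕ) (hx : a ≤ x ∧ x ≤ a + H) :
    ∑ y ∈ P, g ((x - y) + (y - x)) ≤ g 0 + 2 * ∑ h ∈ Icc 1 H, g h := by
  have hsplit : ∑ y ∈ P, g ((x - y) + (y - x)) =
      ∑ y ∈ P.filter (fun y => y < x), g ((x - y) + (y - x)) +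
      (∑ y ∈ P.filter (fun y => x < y), g ((x - y) + (y - x)) +
        ∑ y ∈ P.filter (fun y => y = x), g ((x - y) + (y - x))) := by
    rw [← Finset.sum_filter_add_sum_filter_not P (fun y => y < x)]
    congr 1
    rw [← Finset.sum_filter_add_sum_filter_not (P.filter (fun y => ¬ y < x)) (fun y => x < y),
      Finset.filter_filter, Finset.filter_filter]
    congr 1
    · refine Finset.sum_congr ?_ fun _ _ => rfl
      ext y
      simp only [Finset.mem_filter]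
      constructor
      · rintro ⟨h1, h2, h3⟩
        exact ⟨h1, h3⟩
      · rintro ⟨h1, h2⟩
        exact ⟨h1, by omega, h2⟩
    · refine Finset.sum_congr ?_ fun _ _ => rfl
      ext y
      simp only [Finset.mem_filter]
      constructor
      · rintro ⟨h1, h2, h3⟩
        exact ⟨h1, by omega⟩
      · rintro ⟨h1, h2⟩
        exact ⟨h1, by omega, by omega⟩
  have hA : ∑ y ∈ P.filter (fun y => y < x), g ((x - y) + (y - x)) ≤ ∑ h ∈ Icc 1 H, g h := by
    have h1 : ∑ y ∈ P.filter (fun y => y < x), g ((x - y) + (y - x)) =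
        ∑ d ∈ (P.filter (fun y => y < x)).image (fun y => x - y), g d := by
      rw [Finset.sum_image]
      · refine Finset.sum_congr rfl fun y hy => ?_
        rw [Finset.mem_filter] at hy
        congr 1
        omega
      · intro y hy z hz hyz
        rw [Finset.mem_coe, Finset.mem_filter] at hy hz
        simp only at hyz
        omega
    rw [h1]
    apply Finset.sum_le_sum_of_subset_of_nonneg
    · intro d hd
      obtain ⟨y, hy, rfl⟩ := Finset.mem_image.1 hd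
      rw [Finset.mem_filter] at hy
      have := hP y hy.1
      rw [Finset.mem_Icc]
      omega
    · intro d _ _
      exact hg d
  have hB : ∑ y ∈ P.filter (fun y => x < y), g ((x - y) + (y - x)) ≤ ∑ h ∈ Icc 1 H, g h := by
    have h1 : ∑ y ∈ P.filter (fun y => x < y), g ((x - y) + (y - x)) =
        ∑ d ∈ (P.filter (fun y => x < y)).image (fun y => y - x), g d := by
      rw [Finset.sum_image]
      · refine Finset.sum_congr rfl fun y hy => ?_
        rw [Finset.mem_filter] at hy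
        congr 1
        omega
      · intro y hy z hz hyz
        rw [Finset.mem_coe, Finset.mem_filter] at hy hz
        simp only at hyz
        omega
    rw [h1]
    apply Finset.sum_le_sum_of_subset_of_nonneg
    · intro d hd
      obtain ⟨y, hy, rfl⟩ := Finset.mem_image.1 hd
      rw [Finset.mem_filter] at hy
      have := hP y hy.1
      rw [Finset.mem_Icc]
      omega
    · intro d _ _
      exact hg d
  have hC : ∑ y ∈ P.filter (fun y => y = x), g ((x - y) + (y - x)) ≤ g 0 := by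
    have h1 : P.filter (fun y => y = x) ⊆ {x} := by
      intro y hy
      rw [Finset.mem_filter] at hy
      rw [Finset.mem_singleton]
      exact hy.2
    have h2 : ∑ y ∈ P.filter (fun y => y = x), g ((x - y) + (y - x)) ≤
        ∑ y ∈ {x}, g ((x - y) + (y - x)) := by
      apply Finset.sum_le_sum_of_subset_of_nonneg h1
      intro d _ _
      exact hg _
    refine h2.trans ?_
    rw [Finset.sum_singleton, Nat.sub_self]
  rw [hsplit]
  linarith

theorem G_dist (U : ℕ) (γ : ℝ) (x y : ℕ) :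
    G U (γ * ((x : ℝ) - y)) = G U (γ * (((x - y) + (y - x) : ℕ) : ℝ)) := by
  rcases le_total x y with h | h
  · have e1 : γ * ((x : ℝ) - y) = -(γ * (((x - y) + (y - x) : ℕ) : ℝ)) := by
      rw [Nat.sub_eq_zero_of_le h, zero_add, Nat.cast_sub h]
      ring
    rw [e1, G_neg]
  · have e1 : γ * ((x : ℝ) - y) = γ * (((x - y) + (y - x) : ℕ) : ℝ) := by
      rw [Nat.sub_eq_zero_of_le h, add_zero, Nat.cast_sub h]
    rw [e1]

/-- the second moment -/
theorem second_moment (A : Finset ℕ) (j U₀ U a H : ℕ) (γ : ℝ)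
    (hwt : ∀ m, wt A j m ≤ j.factorial) (hPr : ∀ m ∈ Pr A j, a ≤ m ∧ m ≤ a + H) :
    ∑ r ∈ range U, ‖SA A j (fun m => e (γ * (((U₀ + r : ℕ) : ℝ) * (m : ℝ))))‖ ^ 2 ≤
      (A.card : ℝ) ^ j * ((j.factorial : ℝ) *
        (U + 2 * ∑ h ∈ Icc 1 H, G U (γ * h))) := by
  obtain ⟨P, hP⟩ : ∃ P, P = Pr A j := ⟨_, rfl⟩
  obtain ⟨w, hw⟩ : ∃ w : ℕ → ℝ, w = fun m => (wt A j m : ℝ) := ⟨_, rfl⟩
  have hw0 : ∀ m, 0 ≤ w m := fun m => by rw [hw]; exact Nat.cast_nonneg _
  have hwj : ∀ m, w m ≤ (j.factorial : ℝ) := fun m => by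
    rw [hw]
    show (wt A j m : ℝ) ≤ (j.factorial : ℝ)
    exact_mod_cast hwt m
  have hwsum : ∑ m ∈ P, w m = (A.card : ℝ) ^ j := by
    rw [hw, hP]
    have := sum_wt A j
    show ∑ m ∈ Pr A j, (wt A j m : ℝ) = (A.card : ℝ) ^ j
    exact_mod_cast this
  rw [← hP] at hPr
  obtain ⟨f, hf⟩ : ∃ f : ℕ → ℂ, f = fun m : ℕ => ∑ m' ∈ P, (w m' : ℂ) * e (γ * ((m : ℝ) * (m' : ℝ))) :=
    ⟨_, rfl⟩
  have hS : ∀ r ∈ range U, ‖SA A j (fun m => e (γ * (((U₀ + r : ℕ) : ℝ) * (m : ℝ))))‖ ^ 2 =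
      ‖f (U₀ + r)‖ ^ 2 := by
    intro r _
    rw [SA_eq_sum, ← hP, hf]
    congr 2
    refine Finset.sum_congr rfl fun m _ => ?_
    rw [nsmul_eq_mul, hw]
    simp only [Complex.ofReal_natCast]
  rw [Finset.sum_congr rfl hS]
  have e1 : ((∑ r ∈ range U, ‖f (U₀ + r)‖ ^ 2 : ℝ) : ℂ) =
      ∑ x ∈ P, ∑ y ∈ P, ((w x * w y : ℝ) : ℂ) *
        (e (γ * ((x : ℝ) - y) * U₀) * ∑ r ∈ range U, e (γ * ((x : ℝ) - y) * r)) := by
    push_cast
    have e2 : ∀ r ∈ range U, ((‖f (U₀ + r)‖ : ℂ)) ^ 2 = ∑ x ∈ P, ∑ y ∈ P,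
        ((w x : ℂ) * (w y : ℂ)) * (e (γ * ((x : ℝ) - y) * U₀) * e (γ * ((x : ℝ) - y) * r)) := by
      intro r _
      rw [← Complex.mul_conj', hf]
      simp only
      rw [map_sum, Finset.sum_mul_sum]
      refine Finset.sum_congr rfl fun x _ => Finset.sum_congr rfl fun y _ => ?_
      rw [map_mul, conj_e, Complex.conj_ofReal]
      have e3 : e (γ * ((x : ℝ) - y) * U₀) * e (γ * ((x : ℝ) - y) * r) =
          e (γ * (((U₀ + r : ℕ) : ℝ) * (x : ℝ))) * e (-(γ * (((U₀ + r : ℕ) : ℝ) * (y : ℝ)))) := by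
        rw [← e_add, ← e_add]
        congr 1
        push_cast
        ring
      rw [e3]
      ring
    rw [Finset.sum_congr rfl e2, Finset.sum_comm]
    refine Finset.sum_congr rfl fun x _ => ?_
    rw [Finset.sum_comm]
    refine Finset.sum_congr rfl fun y _ => ?_
    rw [Finset.mul_sum, Finset.mul_sum]
  have e4 : ∑ r ∈ range U, ‖f (U₀ + r)‖ ^ 2 =
      ‖((∑ r ∈ range U, ‖f (U₀ + r)‖ ^ 2 : ℝ) : ℂ)‖ := by
    rw [Complex.norm_real, Real.norm_eq_abs, abs_of_nonneg]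
    exact Finset.sum_nonneg fun r _ => by positivity
  rw [e4, e1]
  refine (norm_sum_le _ _).trans ?_
  rw [← hwsum, Finset.sum_mul]
  refine Finset.sum_le_sum fun x hx => ?_
  refine (norm_sum_le _ _).trans ?_
  have e5 : ∀ y ∈ P, ‖((w x * w y : ℝ) : ℂ) *
      (e (γ * ((x : ℝ) - y) * U₀) * ∑ r ∈ range U, e (γ * ((x : ℝ) - y) * r))‖ ≤
      w x * ((j.factorial : ℝ) * G U (γ * (((x - y) + (y - x) : ℕ) : ℝ))) := by
    intro y _
    rw [norm_mul, Complex.norm_real, Real.norm_eq_abs, abs_of_nonneg (mul_nonneg (hw0 x) (hw0 y)),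
      mul_assoc, norm_mul, norm_e, one_mul]
    refine mul_le_mul_of_nonneg_left ?_ (hw0 x)
    rw [← G_dist]
    exact mul_le_mul (hwj y) le_rfl (norm_nonneg _) (by positivity)
  refine (Finset.sum_le_sum e5).trans ?_
  rw [← Finset.mul_sum, ← Finset.mul_sum]
  refine mul_le_mul_of_nonneg_left ?_ (hw0 x)
  refine mul_le_mul_of_nonneg_left ?_ (by positivity)
  have h6 := sum_dist_le (fun h => G U (γ * (h : ℝ))) (fun h => G_nonneg _ _) a H P hPr x (hPr x hx)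
  refine h6.trans ?_
  have h7 : G U (γ * ((0 : ℕ) : ℝ)) ≤ U := G_le _ _
  linarith

/-- grouping by the product -/
theorem group_le (A : Finset ℕ) (j T U₀ U : ℕ) (C : ℝ) (F : ℕ → ℝ) (hF : ∀ u, 0 ≤ F u)
    (hU : ∀ t ∈ Ico T (2 * T), ∀ m ∈ Pr A j, U₀ ≤ t * m ∧ t * m < U₀ + U)
    (hC : ∀ r ∈ range U, ∑ t ∈ Ico T (2 * T),
      SA A j (fun m => if t * m = U₀ + r then (1 : ℝ) else 0) ≤ C) :
    ∑ t ∈ Ico T (2 * T), SA A j (fun m => F (t * m)) ≤ C * ∑ r ∈ range U, F (U₀ + r) := by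
  have h1 : ∀ t ∈ Ico T (2 * T), SA A j (fun m => F (t * m)) =
      ∑ r ∈ range U, F (U₀ + r) * SA A j (fun m => if t * m = U₀ + r then (1 : ℝ) else 0) := by
    intro t ht
    have h2 : SA A j (fun m => F (t * m)) =
        SA A j (fun m => ∑ r ∈ range U, F (U₀ + r) * (if t * m = U₀ + r then (1 : ℝ) else 0)) := by
      apply SA_congr
      intro m hm
      obtain ⟨h3, h4⟩ := hU t ht m hm
      rw [Finset.sum_eq_single (t * m - U₀)]
      · have h5 : U₀ + (t * m - U₀) = t * m := by omega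
        rw [h5, if_pos rfl, mul_one]
      · intro r _ hr
        rw [if_neg (by omega), mul_zero]
      · intro h
        exact absurd (Finset.mem_range.2 (by omega)) h
    rw [h2, SA_sum]
    exact Finset.sum_congr rfl fun r _ => SA_mul _ _ _ _
  rw [Finset.sum_congr rfl h1, Finset.sum_comm, Finset.mul_sum]
  refine Finset.sum_le_sum fun r hr => ?_
  rw [← Finset.mul_sum, mul_comm]
  exact mul_le_mul_of_nonneg_right (hC r hr) (hF _)

/-- the bilinear sum -/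
noncomputable def Bs (A : Finset ℕ) (T j : ℕ) (γ : ℝ) : ℂ :=
  ∑ t ∈ Ico T (2 * T), SA A j (fun m₁ => SA A j (fun m₂ => e (γ * (((t * m₁ : ℕ) : ℝ) * (m₂ : ℝ)))))

theorem Bs_le (A : Finset ℕ) (T j U₀ U a H : ℕ) (C γ : ℝ) (hC0 : 0 ≤ C)
    (hwt : ∀ m, wt A j m ≤ j.factorial) (hPr : ∀ m ∈ Pr A j, a ≤ m ∧ m ≤ a + H)
    (hU : ∀ t ∈ Ico T (2 * T), ∀ m ∈ Pr A j, U₀ ≤ t * m ∧ t * m < U₀ + U)
    (hC : ∀ r ∈ range U, ∑ t ∈ Ico T (2 * T),
      SA A j (fun m => if t * m = U₀ + r then (1 : ℝ) else 0) ≤ C) :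
    ‖Bs A T j γ‖ ^ 2 ≤ (T * (A.card : ℝ) ^ j) * (C * ((A.card : ℝ) ^ j * ((j.factorial : ℝ) *
        (U + 2 * ∑ h ∈ Icc 1 H, G U (γ * h))))) := by
  unfold Bs
  set F : ℕ → ℝ := fun u => ‖SA A j (fun m₂ => e (γ * ((u : ℝ) * (m₂ : ℝ))))‖ ^ 2 with hF
  have h1 : ‖∑ t ∈ Ico T (2 * T), SA A j (fun m₁ => SA A j (fun m₂ =>
      e (γ * (((t * m₁ : ℕ) : ℝ) * (m₂ : ℝ)))))‖ ≤
      ∑ t ∈ Ico T (2 * T), SA A j (fun m₁ => ‖SA A j (fun m₂ =>
      e (γ * (((t * m₁ : ℕ) : ℝ) * (m₂ : ℝ))))‖) :=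
    (norm_sum_le _ _).trans (Finset.sum_le_sum fun t _ => norm_SA _ _ _)
  have h2 : (∑ t ∈ Ico T (2 * T), SA A j (fun m₁ => ‖SA A j (fun m₂ =>
      e (γ * (((t * m₁ : ℕ) : ℝ) * (m₂ : ℝ))))‖)) ^ 2 ≤
      (T : ℝ) * ∑ t ∈ Ico T (2 * T), (A.card : ℝ) ^ j * SA A j (fun m₁ => F (t * m₁)) := by
    refine (sq_sum_le_card_mul_sum_sq).trans ?_
    rw [Nat.card_Ico]
    have h3 : 2 * T - T = T := by omega
    rw [h3]
    refine mul_le_mul_of_nonneg_left (Finset.sum_le_sum fun t _ => ?_) (Nat.cast_nonneg _)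
    exact SA_cs A j _
  have h3 := group_le A j T U₀ U C F (fun u => by positivity) hU hC
  have h4 := second_moment A j U₀ U a H γ hwt hPr
  have h5 := pow_le_pow_left₀ (norm_nonneg _) h1 2
  refine h5.trans (h2.trans ?_)
  rw [← Finset.mul_sum, mul_assoc, ← mul_assoc]
  rw [← mul_assoc (T : ℝ)]
  refine mul_le_mul_of_nonneg_left ?_ (by positivity)
  exact h3.trans (mul_le_mul_of_nonneg_left h4 hC0)

end Pool.Agent.W851.Had
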