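import Mathlib

/-! Schnirelmann's theorem, in a finite form. -/

namespace Pool.Agent.W851.Had

open Finset

open Classical in
/-- number of elements of `S` in `[1, n]` -/
noncomputable def cnt (S : ℕ → Prop) (n : ℕ) : ℕ := ((Icc 1 n).filter S).card

theorem cnt_le (S : ℕ → Prop) (n : ℕ) : cnt S n ≤ n := by
  classical
  unfold cnt
  refine (Finset.card_filter_le _ _).trans ?_
  rw [Nat.card_Icc, Nat.add_sub_cancel]

theorem cnt_zero (S : ℕ → Prop) : cnt S 0 = 0 := by
  have := cnt_le S 0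
  omega

theorem cnt_succ (S : ℕ → Prop) (n : ℕ) (h : S (n + 1)) : cnt S (n + 1) = cnt S n + 1 := by
  classical
  unfold cnt
  rw [← Finset.insert_Icc_right_eq_Icc_add_one (by omega), Finset.filter_insert, if_pos h,
    Finset.card_insert_of_notMem]
  intro h2
  rw [Finset.mem_filter, Finset.mem_Icc] at h2
  omega

theorem cnt_split (S : ℕ → Prop) {a n : ℕ} (h : a ≤ n) (B : ℕ → Prop)
    (hB : ∀ b, 1 ≤ b → b ≤ n - a → B b → S (a + b)) : cnt S a + cnt B (n - a) ≤ cnt S n := by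
  classical
  unfold cnt
  have h1 : ((Icc 1 (n - a)).filter B).card =
      (((Icc 1 (n - a)).filter B).image (fun b => a + b)).card := by
    rw [Finset.card_image_of_injective]
    intro x y hxy
    simp only at hxy
    omega
  rw [h1, ← Finset.card_union_of_disjoint]
  · apply Finset.card_le_card
    intro x hx
    rw [Finset.mem_union] at hx
    rw [Finset.mem_filter, Finset.mem_Icc]
    rcases hx with hx | hx
    · rw [Finset.mem_filter, Finset.mem_Icc] at hx
      exact ⟨by omega, hx.2⟩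
    · obtain ⟨b, hb, rfl⟩ := Finset.mem_image.1 hx
      rw [Finset.mem_filter, Finset.mem_Icc] at hb
      exact ⟨by omega, hB b hb.1.1 hb.1.2 hb.2⟩
  · rw [Finset.disjoint_left]
    intro x hx hx2
    rw [Finset.mem_filter, Finset.mem_Icc] at hx
    obtain ⟨b, hb, rfl⟩ := Finset.mem_image.1 hx2
    rw [Finset.mem_filter, Finset.mem_Icc] at hb
    omega

theorem cnt_same (S : ℕ → Prop) {a n : ℕ} (h : a ≤ n) (hS : ∀ i, a < i → i ≤ n → ¬ S i) :
    cnt S n = cnt S a := by
  classical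
  unfold cnt
  congr 1
  ext x
  rw [Finset.mem_filter, Finset.mem_filter, Finset.mem_Icc, Finset.mem_Icc]
  constructor
  · rintro ⟨h1, h2⟩
    refine ⟨⟨h1.1, ?_⟩, h2⟩
    by_contra h3
    exact hS x (by omega) h1.2 h2
  · rintro ⟨h1, h2⟩
    exact ⟨⟨h1.1, by omega⟩, h2⟩

/-- the sumset -/
def Sum2 (S B : ℕ → Prop) (n : ℕ) : Prop := ∃ a b, S a ∧ B b ∧ a + b = n

theorem schn_ineq (S B : ℕ → Prop) (N₀ : ℕ) (β : ℝ) (hS0 : S 0) (hB0 : B 0)
    (hB : ∀ n ≤ N₀, β * n ≤ cnt B n) : ∀ n ≤ N₀,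
    (cnt S n : ℝ) + β * (n - cnt S n) ≤ cnt (Sum2 S B) n := by
  intro n
  induction n using Nat.strong_induction_on with
  | _ n ih =>
    intro hn
    rcases Nat.eq_zero_or_pos n with h0 | h0
    · subst h0
      rw [cnt_zero, cnt_zero]
      simp
    · by_cases hS : S n
      · obtain ⟨m, rfl⟩ : ∃ m, n = m + 1 := ⟨n - 1, by omega⟩
        have h1 := ih m (by omega) (by omega)
        rw [cnt_succ S m hS, cnt_succ (Sum2 S B) m ⟨m + 1, 0, hS, hB0, rfl⟩]
        push_cast
        linarith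
      · classical
        obtain ⟨a, ha⟩ : ∃ a, a = Nat.findGreatest S n := ⟨_, rfl⟩
        have ha1 : S a := by rw [ha]; exact Nat.findGreatest_spec (P := S) (Nat.zero_le n) hS0
        have ha2 : a ≤ n := by rw [ha]; exact Nat.findGreatest_le n
        have ha3 : ∀ i, a < i → i ≤ n → ¬ S i := by
          intro i hi1 hi2
          rw [ha] at hi1
          exact Nat.findGreatest_is_greatest hi1 hi2
        have ha4 : a < n := by
          rcases Nat.lt_or_eq_of_le ha2 with h | h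
          · exact h
          · rw [h] at ha1; exact absurd ha1 hS
        have h1 := ih a ha4 (by omega)
        have h2 := cnt_split (Sum2 S B) ha2 B (fun b _ _ hb => ⟨a, b, ha1, hb, rfl⟩)
        have h3 := cnt_same S ha2 ha3
        have h4 := hB (n - a) (by omega)
        rw [Nat.cast_sub ha2] at h4
        have h5 : (cnt (Sum2 S B) a : ℝ) + cnt B (n - a) ≤ cnt (Sum2 S B) n := by exact_mod_cast h2
        rw [h3]
        linarith

/-- sums of `h` elements -/
def SumH (S : ℕ → Prop) (h n : ℕ) : Prop :=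
  ∃ l : List ℕ, l.length = h ∧ (∀ y ∈ l, S y) ∧ l.sum = n

theorem SumH_zero (S : ℕ → Prop) (hS0 : S 0) (h : ℕ) : SumH S h 0 :=
  ⟨List.replicate h 0, by simp, fun y hy => by rw [List.eq_of_mem_replicate hy]; exact hS0, by simp⟩

theorem SumH_succ (S : ℕ → Prop) (h n : ℕ) (hn : Sum2 (SumH S h) S n) : SumH S (h + 1) n := by
  obtain ⟨a, b, ⟨l, hl1, hl2, hl3⟩, hb, rfl⟩ := hn
  refine ⟨b :: l, by simp [hl1], ?_, by rw [List.sum_cons, hl3]; omega⟩
  intro y hy
  rcases List.mem_cons.1 hy with h | h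
  · rw [h]; exact hb
  · exact hl2 y h

theorem SumH_add (S : ℕ → Prop) (h h' n : ℕ) (hn : Sum2 (SumH S h) (SumH S h') n) :
    SumH S (h + h') n := by
  obtain ⟨a, b, ⟨l, hl1, hl2, hl3⟩, ⟨l', hl1', hl2', hl3'⟩, rfl⟩ := hn
  refine ⟨l ++ l', by simp [hl1, hl1'], ?_, by rw [List.sum_append, hl3, hl3']⟩
  intro y hy
  rcases List.mem_append.1 hy with h | h
  · exact hl2 y h
  · exact hl2' y h

theorem cnt_mono {S S' : ℕ → Prop} (h : ∀ n, S n → S' n) (n : ℕ) : cnt S n ≤ cnt S' n := by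
  classical
  unfold cnt
  apply Finset.card_le_card
  intro x hx
  rw [Finset.mem_filter] at hx ⊢
  exact ⟨hx.1, h x hx.2⟩

theorem schn_iter (S : ℕ → Prop) (N₀ : ℕ) (δ : ℝ) (hδ1 : δ ≤ 1) (hS0 : S 0)
    (hS : ∀ n ≤ N₀, δ * n ≤ cnt S n) (h : ℕ) : ∀ n ≤ N₀,
    (1 - (1 - δ) ^ h) * n ≤ cnt (SumH S h) n := by
  induction h with
  | zero => intro n _; simp
  | succ h ih =>
    intro n hn
    have h1 := schn_ineq (SumH S h) S N₀ δ (SumH_zero S hS0 h) hS0 hS n hn
    have h2 := cnt_mono (SumH_succ S h) n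
    have h2' : (cnt (Sum2 (SumH S h) S) n : ℝ) ≤ cnt (SumH S (h + 1)) n := by exact_mod_cast h2
    have h3 := ih n hn
    have h4 : (1 - δ) * ((1 - (1 - δ) ^ h) * n) ≤ (1 - δ) * (cnt (SumH S h) n : ℝ) :=
      mul_le_mul_of_nonneg_left h3 (by linarith)
    rw [pow_succ]
    nlinarith

/-- Schnirelmann's theorem -/
theorem schn (S : ℕ → Prop) (N₀ h : ℕ) (δ : ℝ) (hδ1 : δ ≤ 1) (hδh : 1 ≤ δ * h) (hS0 : S 0)
    (hS : ∀ n ≤ N₀, δ * n ≤ cnt S n) : ∀ n ≤ N₀, SumH S (h + h) n := by
  classical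
  intro n hn
  have hpow : (1 - δ) ^ h ≤ 1 / 2 := by
    have h1 : 1 - δ ≤ Real.exp (-δ) := Real.one_sub_le_exp_neg δ
    calc (1 - δ) ^ h ≤ (Real.exp (-δ)) ^ h := pow_le_pow_left₀ (by linarith) h1 h
      _ = Real.exp (-(δ * h)) := by rw [← Real.exp_nat_mul]; congr 1; ring
      _ ≤ Real.exp (-1) := Real.exp_le_exp.2 (by linarith)
      _ ≤ 1 / 2 := by
          rw [Real.exp_neg, ← one_div]
          apply one_div_le_one_div_of_le (by norm_num)
          linarith [Real.exp_one_gt_d9]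
  have h1 := schn_iter S N₀ δ hδ1 hS0 hS h n hn
  have h2 : (n : ℝ) ≤ 2 * cnt (SumH S h) n := by
    have : (1 / 2 : ℝ) * n ≤ (1 - (1 - δ) ^ h) * n :=
      mul_le_mul_of_nonneg_right (by linarith) (Nat.cast_nonneg _)
    linarith
  have h3 : n ≤ 2 * cnt (SumH S h) n := by exact_mod_cast h2
  apply SumH_add
  -- pigeonhole
  obtain ⟨X, hX⟩ : ∃ X : Finset ℕ, X = (range (n + 1)).filter (SumH S h) := ⟨_, rfl⟩
  have hXc : cnt (SumH S h) n + 1 ≤ X.card := by
    have e1 : X = insert 0 ((Icc 1 n).filter (SumH S h)) := by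
      rw [hX]
      ext x
      rw [Finset.mem_filter, Finset.mem_insert, Finset.mem_filter, Finset.mem_range, Finset.mem_Icc]
      constructor
      · rintro ⟨h4, h5⟩
        rcases Nat.eq_zero_or_pos x with h6 | h6
        · left; exact h6
        · right; exact ⟨⟨h6, by omega⟩, h5⟩
      · rintro (h4 | h4)
        · subst h4
          exact ⟨by omega, SumH_zero S hS0 h⟩
        · exact ⟨by omega, h4.2⟩
    rw [e1, Finset.card_insert_of_notMem (by
      rw [Finset.mem_filter, Finset.mem_Icc]; omega)]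
    exact le_rfl
  obtain ⟨Y, hY⟩ : ∃ Y : Finset ℕ, Y = X.image (fun x => n - x) := ⟨_, rfl⟩
  have hXn : ∀ x ∈ X, x ≤ n := by
    intro x hx
    rw [hX, Finset.mem_filter, Finset.mem_range] at hx
    omega
  have hYc : Y.card = X.card := by
    rw [hY]
    apply Finset.card_image_of_injOn
    intro x hx y hy hxy
    have := hXn x hx
    have := hXn y hy
    simp only at hxy
    omega
  have hint : (X ∩ Y).Nonempty := by
    rw [← Finset.card_pos]
    have h4 : (X ∪ Y).card ≤ n + 1 := by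
      rw [← Finset.card_range (n + 1)]
      apply Finset.card_le_card
      intro x hx
      rw [Finset.mem_range]
      rcases Finset.mem_union.1 hx with h5 | h5
      · have := hXn x h5; omega
      · rw [hY, Finset.mem_image] at h5
        obtain ⟨y, _, rfl⟩ := h5
        omega
    have h5 := Finset.card_union_add_card_inter X Y
    omega
  obtain ⟨x, hx⟩ := hint
  rw [Finset.mem_inter] at hx
  obtain ⟨hx1, hx2⟩ := hx
  rw [hY, Finset.mem_image] at hx2
  obtain ⟨y, hy1, hy2⟩ := hx2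
  have hxn := hXn x hx1
  have hyn := hXn y hy1
  rw [hX, Finset.mem_filter] at hx1 hy1
  exact ⟨x, y, hx1.2, hy1.2, by omega⟩

end Pool.Agent.W851.Had
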