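import Pool.Agent.W851.Had.Poly
import Pool.Agent.W851.Had.Schn

/-! Every number below `2 ^ L` is a sum of boundedly many products of numbers below `L ^ 400`. -/

namespace Pool.Agent.W851.Had

open Finset Pool.Agent.H108R3.Had

/-- products of atoms -/
def Rp (B M n : ℕ) : Prop :=
  ∃ (t : ℕ) (l : List ℕ), n = t * l.prod ∧ t ≤ B ∧ (∀ y ∈ l, y ≤ B) ∧ M ^ l.length ≤ n

/-- sums of at most sixteen products of atoms -/
def S16 (B M n : ℕ) : Prop := ∃ l : List ℕ, l.length ≤ 16 ∧ (∀ y ∈ l, Rp B M y) ∧ l.sum = n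

theorem Rp_of_Fam {A : Finset ℕ} {M L κ T B y : ℕ} (hW : Win A M L) (hL : 1 ≤ L) (hκ : κ ≤ L)
    (hM : 1 ≤ M) (hT0 : 0 < T) (hT : T ≤ M ^ 4) (hB : 2 * M ^ 4 ≤ B) (h : Fam A κ T y) :
    Rp B M y := by
  obtain ⟨t, ht, m, hm, rfl⟩ := h
  rw [Finset.mem_Ico] at ht
  obtain ⟨l, hl1, hl2, hl3⟩ := (mem_Pr A κ).1 hm
  obtain ⟨h1, -, -⟩ := t_N2 A M L κ m hW hκ hm
  refine ⟨t, l, by rw [hl3], by omega, ?_, ?_⟩
  · intro p hp
    have h2 := (hW p (hl2 p hp)).2.2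
    have h3 : p * L ≤ (2 * M) * L := by
      refine h2.trans ?_
      rw [show 2 * M * L = M * (2 * L) by ring]
      exact Nat.mul_le_mul_left _ (by omega)
    have h4 := Nat.le_of_mul_le_mul_right h3 (by omega)
    have h5 : M ≤ M ^ 4 := Nat.le_self_pow (by norm_num) M
    omega
  · rw [hl1]
    exact h1.trans (Nat.le_mul_of_pos_left _ (by omega))

theorem S16_density {A : Finset ℕ} {M L B : ℕ} (hW : Win A M L) (hMA : M ≤ L ^ 2 * A.card)
    (hL : 1000 ≤ L) (hM1 : L ^ 40 ≤ M) (hB1 : 2 * M ^ 4 ≤ B) (hB2 : 96 * (M ^ 7 + 1) ≤ B) :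
    ∀ n < 2 ^ L, 1 / (2 * (2 ^ 32 * 294912) : ℝ) * n ≤ cnt (S16 B M) n := by
  classical
  have hL0 : 0 < L := by omega
  have hM0 : 0 < M := lt_of_lt_of_le (by positivity) hM1
  have hML : 1000 ≤ M := by
    calc 1000 ≤ L := hL
      _ ≤ L ^ 40 := Nat.le_self_pow (by norm_num) L
      _ ≤ M := hM1
  intro n hn
  rcases Nat.lt_or_ge n (96 * (M ^ 7 + 1)) with h | h
  · -- small `n`
    have h1 : cnt (S16 B M) n = n := by
      apply le_antisymm (cnt_le _ _)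
      unfold cnt
      rw [Finset.filter_true_of_mem]
      · rw [Nat.card_Icc, Nat.add_sub_cancel]
      · intro x hx
        rw [Finset.mem_Icc] at hx
        refine ⟨[x], by simp, ?_, by simp⟩
        intro y hy
        rw [List.mem_singleton] at hy
        subst hy
        exact ⟨y, [], by simp, by omega, by simp, by simpa using hx.1⟩
    rw [h1]
    have : (0 : ℝ) ≤ n := Nat.cast_nonneg _
    nlinarith
  · obtain ⟨x, hx⟩ : ∃ x, x = n / 96 := ⟨_, rfl⟩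
    have hx1 : 96 * x ≤ n := by rw [hx]; exact Nat.mul_div_le n 96
    have hx2 : n < 96 * (x + 1) := by omega
    have hx3 : M ^ 7 ≤ x := by
      have : M ^ 7 + 1 ≤ x + 1 := by omega
      omega
    have hx0 : x ≠ 0 := by
      have : 0 < M ^ 7 := by positivity
      omega
    obtain ⟨e, he⟩ : ∃ e, e = Nat.log M x := ⟨_, rfl⟩
    have he1 : M ^ e ≤ x := by rw [he]; exact Nat.pow_log_le_self M hx0
    have he2 : x < M ^ (e + 1) := by rw [he]; exact Nat.lt_pow_succ_log_self (by omega) x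
    have he3 : 7 ≤ e := by
      rw [he]
      exact (Nat.le_log_iff_pow_le (by omega) hx0).2 hx3
    obtain ⟨κ, hκ⟩ : ∃ κ, e = κ + 3 := ⟨e - 3, by omega⟩
    obtain ⟨T, hT⟩ : ∃ T, T = x / M ^ κ := ⟨_, rfl⟩
    have hMκ : 0 < M ^ κ := by positivity
    have hT1 : M ^ 3 ≤ T := by
      rw [hT, Nat.le_div_iff_mul_le hMκ, ← pow_add, add_comm, ← hκ]
      exact he1
    have hT2 : T < M ^ 4 := by
      rw [hT, Nat.div_lt_iff_lt_mul hMκ, ← pow_add]
      rw [hκ] at he2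
      have : 4 + κ = κ + 3 + 1 := by omega
      rw [this]
      exact he2
    have hT3 : T * M ^ κ ≤ x := by rw [hT]; exact Nat.div_mul_le_self _ _
    have hT0 : 0 < T := lt_of_lt_of_le (by positivity) hT1
    have hT4 : x < 2 * (T * M ^ κ) := by
      have h1 : x < (T + 1) * M ^ κ := by
        rw [hT]
        have := Nat.div_add_mod x (M ^ κ)
        have h2 := Nat.mod_lt x hMκ
        rw [Nat.add_mul, one_mul, mul_comm (x / M ^ κ)]
        omega
      have h2 : (T + 1) * M ^ κ ≤ (2 * T) * M ^ κ := Nat.mul_le_mul_right _ (by omega)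
      rw [mul_assoc] at h2
      omega
    have hXL : T * M ^ κ ≤ 2 ^ L := by omega
    have hκL : 40 * κ ≤ L := by
      have h1 : 2 ^ (40 * κ) ≤ 2 ^ L := by
        calc 2 ^ (40 * κ) = (2 ^ 40) ^ κ := by rw [pow_mul]
          _ ≤ (L ^ 40) ^ κ := Nat.pow_le_pow_left (Nat.pow_le_pow_left (by omega) 40) κ
          _ ≤ M ^ κ := Nat.pow_le_pow_left hM1 κ
          _ ≤ T * M ^ κ := Nat.le_mul_of_pos_left _ hT0
          _ ≤ 2 ^ L := hXL
      exact (Nat.pow_le_pow_iff_right (by norm_num)).1 h1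
    obtain ⟨Bs, hBs1, hBs2⟩ := many_sums A M L κ T (96 * (T * M ^ κ)) hW hMA hL hM1 hXL (by omega)
      hT1 hT2.le rfl
    have hcard : Bs.card ≤ cnt (S16 B M) n := by
      unfold cnt
      apply Finset.card_le_card
      intro y hy
      obtain ⟨h1, h2, l, hl1, hl2, hl3⟩ := hBs1 y hy
      rw [Finset.mem_filter, Finset.mem_Icc]
      refine ⟨⟨h1, by omega⟩, l, by omega, ?_, hl3⟩
      intro z hz
      exact Rp_of_Fam hW (by omega) (by omega) hM0 hT0 hT2.le hB1 (hl2 z hz)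
    have hnP : n ≤ 2 * (96 * (T * M ^ κ)) := by omega
    have h1 : (n : ℝ) ≤ 2 * ((2 ^ 32 * 294912) * (cnt (S16 B M) n : ℝ)) := by
      have h2 : n ≤ 2 * ((2 ^ 32 * 294912) * cnt (S16 B M) n) := by
        refine hnP.trans (Nat.mul_le_mul_left _ (hBs2.trans (Nat.mul_le_mul_left _ hcard)))
      exact_mod_cast h2
    rw [div_mul_eq_mul_div, one_mul, div_le_iff₀ (by norm_num)]
    linarith

theorem flatten_sum (B M : ℕ) : ∀ l : List ℕ, (∀ y ∈ l, S16 B M y) →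
    ∃ l' : List ℕ, l'.length ≤ 16 * l.length ∧ (∀ y ∈ l', Rp B M y) ∧ l'.sum = l.sum := by
  intro l
  induction l with
  | nil => intro _; exact ⟨[], by simp, by simp, rfl⟩
  | cons y l ih =>
    intro h
    obtain ⟨l₁, h1, h2, h3⟩ := ih (fun z hz => h z (List.mem_cons_of_mem _ hz))
    obtain ⟨l₂, h4, h5, h6⟩ := h y (by simp)
    refine ⟨l₂ ++ l₁, ?_, ?_, ?_⟩
    · rw [List.length_append, List.length_cons]; omega
    · intro z hz
      rcases List.mem_append.1 hz with h7 | h7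
      · exact h5 z h7
      · exact h2 z h7
    · rw [List.sum_append, List.sum_cons, h3, h6]

/-- the exact theorem -/
theorem exact_sum {A : Finset ℕ} {M L B : ℕ} (hW : Win A M L) (hMA : M ≤ L ^ 2 * A.card)
    (hL : 1000 ≤ L) (hM1 : L ^ 40 ≤ M) (hB1 : 2 * M ^ 4 ≤ B) (hB2 : 96 * (M ^ 7 + 1) ≤ B) :
    ∀ n < 2 ^ L, ∃ l : List ℕ, l.length ≤ 2 ^ 57 ∧ (∀ y ∈ l, Rp B M y) ∧ l.sum = n := by
  intro n hn
  have hdens : ∀ n ≤ 2 ^ L - 1, 1 / (2 * (2 ^ 32 * 294912) : ℝ) * n ≤ cnt (S16 B M) n := by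
    intro n hn
    apply S16_density hW hMA hL hM1 hB1 hB2
    have : 0 < 2 ^ L := by positivity
    omega
  have h := schn (S16 B M) (2 ^ L - 1) (2 * (2 ^ 32 * 294912)) (1 / (2 * (2 ^ 32 * 294912) : ℝ))
    (by norm_num) (by norm_num) ⟨[], by simp, by simp, rfl⟩ hdens n (by omega)
  obtain ⟨l, hl1, hl2, hl3⟩ := h
  obtain ⟨l', h1, h2, h3⟩ := flatten_sum B M l hl2
  refine ⟨l', ?_, h2, h3.trans hl3⟩
  rw [hl1] at h1
  refine h1.trans ?_
  norm_num

/-- with the window of primes -/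
theorem exact_window (hw : St_window) : ∃ L₁ : ℕ, 1000 ≤ L₁ ∧ ∀ L : ℕ, L₁ ≤ L → ∃ M : ℕ,
    L ^ 40 ≤ M ∧ ∀ n < 2 ^ L, ∃ l : List ℕ, l.length ≤ 2 ^ 57 ∧
      (∀ y ∈ l, Rp (L ^ 400) M y) ∧ l.sum = n := by
  obtain ⟨L₀, h⟩ := hw
  refine ⟨1000 + L₀, by omega, fun L hL => ?_⟩
  obtain ⟨M, A, hM1, hM2, hW, hMA⟩ := h L (by omega)
  have hL0 : 0 < L := by omega
  have hLp : 1000 ≤ L := by omega
  refine ⟨M, hM1, exact_sum hW hMA hLp hM1 ?_ ?_⟩
  · calc 2 * M ^ 4 ≤ 2 * (4 * L ^ 40) ^ 4 := Nat.mul_le_mul_left _ (Nat.pow_le_pow_left hM2 4)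
      _ = 512 * L ^ 160 := by rw [mul_pow, ← pow_mul]; ring
      _ ≤ L ^ 240 * L ^ 160 := Nat.mul_le_mul_right _ (by
          calc 512 ≤ L := by omega
            _ ≤ L ^ 240 := Nat.le_self_pow (by norm_num) L)
      _ = L ^ 400 := by rw [← pow_add]
  · calc 96 * (M ^ 7 + 1) ≤ 96 * (M ^ 7 + M ^ 7) := by
          have : 0 < M ^ 7 := by
            have : 0 < M := lt_of_lt_of_le (by positivity) hM1
            positivity
          omega
      _ = 192 * M ^ 7 := by ring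
      _ ≤ 192 * (4 * L ^ 40) ^ 7 := Nat.mul_le_mul_left _ (Nat.pow_le_pow_left hM2 7)
      _ = 3145728 * L ^ 280 := by rw [mul_pow, ← pow_mul]; ring
      _ ≤ L ^ 120 * L ^ 280 := Nat.mul_le_mul_right _ (by
          calc 3145728 ≤ 1000 ^ 3 := by norm_num
            _ ≤ L ^ 3 := Nat.pow_le_pow_left hLp 3
            _ ≤ L ^ 120 := Nat.pow_le_pow_right hL0 (by norm_num))
      _ = L ^ 400 := by rw [← pow_add]

end Pool.Agent.W851.Had
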