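import Pool.Agent.W851.Had.Nn

/-! The sum of the geometric kernel over an interval, at a frequency near a rational. -/

namespace Pool.Agent.W851.Had

open Finset Pool.Agent.H108R3.Had

theorem sum_inv_le (n : ℕ) : ∑ i ∈ Icc 1 n, (1 / (i : ℝ)) ≤ 1 + Real.log n := by
  have h3 := harmonic_le_one_add_log n
  rw [harmonic_eq_sum_Icc] at h3
  push_cast at h3
  simpa [one_div] using h3

/-- the residue kernel -/
noncomputable def psi (q : ℕ) (x : ZMod q) : ℝ := if x = 0 then 0 else 1 / nn ((x.val : ℝ) / q)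

theorem psi_nonneg (q : ℕ) (x : ZMod q) : 0 ≤ psi q x := by
  unfold psi
  split_ifs
  · exact le_rfl
  · exact div_nonneg zero_le_one (nn_nonneg _)

theorem sum_zmod_range (q : ℕ) [NeZero q] (F : ZMod q → ℝ) :
    ∑ x : ZMod q, F x = ∑ r ∈ range q, F (r : ZMod q) := by
  symm
  refine Finset.sum_nbij' (fun r => (r : ZMod q)) (fun x => x.val) ?_ ?_ ?_ ?_ ?_
  · intro r _; exact Finset.mem_univ _
  · intro x _; exact Finset.mem_range.2 (ZMod.val_lt x)
  · intro r hr; exact ZMod.val_cast_of_lt (Finset.mem_range.1 hr)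
  · intro x _; exact ZMod.natCast_zmod_val x
  · intro r _; rfl

theorem sum_periodic (q : ℕ) [NeZero q] (F : ZMod q → ℝ) (n : ℕ) :
    ∑ h ∈ range (q * n), F (h : ZMod q) = n * ∑ x : ZMod q, F x := by
  induction n with
  | zero => simp
  | succ n ih =>
    rw [Nat.mul_succ, Finset.sum_range_add, ih, sum_zmod_range]
    push_cast
    have h : ∀ r ∈ range q, F ((q : ZMod q) * (n : ZMod q) + (r : ZMod q)) = F (r : ZMod q) := by
      intro r _
      simp
    rw [Finset.sum_congr rfl h]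
    ring

theorem psi_le {q r : ℕ} (hr : 1 ≤ r) (hrq : r < q) :
    psi q (r : ZMod q) ≤ q * (1 / (r : ℝ)) + q * (1 / ((q - r : ℕ) : ℝ)) := by
  have hq : 0 < q := by omega
  have : NeZero q := ⟨hq.ne'⟩
  have hq' : (0 : ℝ) < q := by exact_mod_cast hq
  have hr' : (0 : ℝ) < r := by exact_mod_cast hr
  have hval : (r : ZMod q).val = r := ZMod.val_cast_of_lt hrq
  have hqr : (0 : ℝ) < ((q - r : ℕ) : ℝ) := by exact_mod_cast (by omega : 0 < q - r)
  unfold psi
  split_ifs
  · positivity
  · rw [hval]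
    rcases le_total ((r : ℝ) / q) (1 / 2) with h | h
    · rw [nn_eq_abs (by rw [abs_of_nonneg (by positivity)]; exact h), abs_of_nonneg (by positivity)]
      have h1 : 1 / ((r : ℝ) / q) = q * (1 / r) := by field_simp
      rw [h1]
      have : 0 ≤ q * (1 / ((q - r : ℕ) : ℝ)) := by positivity
      linarith
    · have h2 : nn ((r : ℝ) / q) = ((q - r : ℕ) : ℝ) / q := by
        have e1 : (r : ℝ) / q = ((r : ℝ) / q - 1) + (1 : ℤ) := by push_cast; ring
        rw [e1, nn_int_add]
        have e2 : (r : ℝ) / q - 1 = -(((q - r : ℕ) : ℝ) / q) := by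
          rw [Nat.cast_sub hrq.le]
          field_simp
          ring
        have e3 : ((q - r : ℕ) : ℝ) / q ≤ 1 / 2 := by
          have : ((q - r : ℕ) : ℝ) / q = 1 - (r : ℝ) / q := by
            rw [Nat.cast_sub hrq.le]
            field_simp
          linarith
        have e4 : (0 : ℝ) ≤ ((q - r : ℕ) : ℝ) / q := by positivity
        rw [e2, nn_eq_abs (by rw [abs_neg, abs_of_nonneg e4]; exact e3), abs_neg, abs_of_nonneg e4]
      rw [h2]
      have h1 : 1 / (((q - r : ℕ) : ℝ) / q) = q * (1 / ((q - r : ℕ) : ℝ)) := by field_simp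
      rw [h1]
      have : 0 ≤ q * (1 / (r : ℝ)) := by positivity
      linarith

theorem sum_psi_le (q : ℕ) [NeZero q] : ∑ x : ZMod q, psi q x ≤ 2 * q * (1 + Real.log q) := by
  have hq : 0 < q := Nat.pos_of_ne_zero (NeZero.ne q)
  rw [sum_zmod_range]
  have h0 : ∑ r ∈ range q, psi q (r : ZMod q) = ∑ r ∈ Ico 1 q, psi q (r : ZMod q) := by
    rw [Finset.range_eq_Ico, Finset.sum_eq_sum_Ico_succ_bot hq]
    simp [psi]
  rw [h0]
  have h1 : ∑ r ∈ Ico 1 q, psi q (r : ZMod q) ≤
      ∑ r ∈ Ico 1 q, (q * (1 / (r : ℝ)) + q * (1 / ((q - r : ℕ) : ℝ))) := by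
    refine Finset.sum_le_sum fun r hr => ?_
    rw [Finset.mem_Ico] at hr
    exact psi_le hr.1 hr.2
  refine h1.trans ?_
  rw [Finset.sum_add_distrib, ← Finset.mul_sum, ← Finset.mul_sum]
  have h2 : ∑ r ∈ Ico 1 q, (1 / ((q - r : ℕ) : ℝ)) = ∑ r ∈ Ico 1 q, (1 / (r : ℝ)) := by
    have := Finset.sum_Ico_reflect (fun r => (1 / (r : ℝ))) 1 (m := q) (n := q) (by omega)
    have e1 : q + 1 - q = 1 := by omega
    have e2 : q + 1 - 1 = q := by omega
    rw [e1, e2] at this
    exact this
  have h3 : ∑ r ∈ Ico 1 q, (1 / (r : ℝ)) ≤ 1 + Real.log q := by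
    refine le_trans ?_ (sum_inv_le q)
    apply Finset.sum_le_sum_of_subset_of_nonneg
    · intro r hr
      rw [Finset.mem_Ico] at hr
      rw [Finset.mem_Icc]
      omega
    · intro r _ _
      positivity
  rw [h2]
  have hq' : (0 : ℝ) < q := by exact_mod_cast hq
  nlinarith

/-- multiples of `q` -/
theorem sum_mult (b : ℤ) (q : ℕ) (β : ℝ) (U H : ℕ) (hq : 1 ≤ q) (hβ : 2 * |β| * H * q ≤ 1) :
    ∑ h ∈ (Icc 1 H).filter (fun h => q ∣ h), G U (((b : ℝ) / q + β) * h) ≤
      2 * (1 + Real.log H) * (U * H) / (q * (1 + |β| * (U * H))) := by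
  have hq' : (1 : ℝ) ≤ q := by exact_mod_cast hq
  have hq0 : (0 : ℝ) < q := by linarith
  rcases Nat.eq_zero_or_pos H with h0 | hH
  · subst h0; simp
  have hH' : (1 : ℝ) ≤ H := by exact_mod_cast hH
  have hlog : 0 ≤ Real.log H := Real.log_nonneg hH'
  have hset : (Icc 1 H).filter (fun h => q ∣ h) = (Icc 1 (H / q)).image (fun i => q * i) := by
    ext h
    simp only [Finset.mem_filter, Finset.mem_Icc, Finset.mem_image]
    constructor
    · rintro ⟨⟨h1, h2⟩, ⟨i, rfl⟩⟩
      refine ⟨i, ⟨?_, ?_⟩, rfl⟩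
      · rcases Nat.eq_zero_or_pos i with h3 | h3
        · subst h3; simp at h1
        · exact h3
      · exact (Nat.le_div_iff_mul_le (by omega)).2 (by rw [mul_comm]; exact h2)
    · rintro ⟨i, ⟨h1, h2⟩, rfl⟩
      refine ⟨⟨Nat.mul_pos (by omega) (by omega), ?_⟩, dvd_mul_right _ _⟩
      have := (Nat.le_div_iff_mul_le (by omega)).1 h2
      rw [mul_comm]; exact this
  rw [hset, Finset.sum_image (fun x _ y _ hxy => Nat.eq_of_mul_eq_mul_left (by omega) hxy)]
  have hG : ∀ i ∈ Icc 1 (H / q), G U (((b : ℝ) / q + β) * ((q * i : ℕ) : ℝ)) = G U (β * (q * i)) := by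
    intro i _
    have e1 : ((b : ℝ) / q + β) * ((q * i : ℕ) : ℝ) = β * (q * i) + ((b * i : ℤ) : ℝ) := by
      push_cast
      field_simp
      ring
    rw [e1, G_add_int]
  rw [Finset.sum_congr rfl hG]
  have hle1 : ∑ i ∈ Icc 1 (H / q), G U (β * (q * i)) ≤ U * H / q := by
    refine (Finset.sum_le_sum fun i _ => G_le U _).trans ?_
    rw [Finset.sum_const, Nat.card_Icc, nsmul_eq_mul, Nat.add_sub_cancel]
    have h1 : ((H / q : ℕ) : ℝ) ≤ (H : ℝ) / q := Nat.cast_div_le
    have h2 : (0 : ℝ) ≤ U := Nat.cast_nonneg _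
    calc ((H / q : ℕ) : ℝ) * U ≤ (H : ℝ) / q * U := mul_le_mul_of_nonneg_right h1 h2
      _ = U * H / q := by ring
  set y : ℝ := |β| * (U * H) with hy
  have hy0 : 0 ≤ y := by positivity
  rcases le_total y 1 with h | h
  · refine hle1.trans ?_
    rw [div_le_div_iff₀ hq0 (by positivity)]
    have h1 : (1 + y) ≤ 2 * (1 + Real.log H) := by linarith
    have h2 : (0 : ℝ) ≤ U * H * q := by positivity
    nlinarith [mul_le_mul_of_nonneg_left h1 h2]
  · -- `β ≠ 0`
    have hβ0 : 0 < |β| := by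
      rcases eq_or_lt_of_le (abs_nonneg β) with h1 | h1
      · rw [hy, ← h1] at h; simp at h; linarith
      · exact h1
    have hle2 : ∑ i ∈ Icc 1 (H / q), G U (β * (q * i)) ≤ (1 + Real.log H) / (2 * |β| * q) := by
      have h1 : ∀ i ∈ Icc 1 (H / q), G U (β * (q * i)) ≤ 1 / (2 * |β| * q) * (1 / (i : ℝ)) := by
        intro i hi
        rw [Finset.mem_Icc] at hi
        have hi0 : (0 : ℝ) < i := by exact_mod_cast hi.1
        have hiH : (q : ℝ) * i ≤ H := by
          have := (Nat.le_div_iff_mul_le (by omega)).1 hi.2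
          have h3 : ((i * q : ℕ) : ℝ) ≤ H := by exact_mod_cast this
          push_cast at h3
          linarith
        have e1 : |β * (q * i)| = |β| * (q * i) := by
          rw [abs_mul, abs_of_nonneg (by positivity : (0 : ℝ) ≤ q * i)]
        have e2 : |β| * (q * i) ≤ 1 / 2 := by
          have h4 : |β| * (q * i) ≤ |β| * H := mul_le_mul_of_nonneg_left hiH hβ0.le
          have h5 : |β| * H ≤ |β| * H * q := le_mul_of_one_le_right (by positivity) hq'
          nlinarith
        have e3 : nn (β * (q * i)) = |β| * (q * i) := by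
          rw [nn_eq_abs (by rw [e1]; exact e2), e1]
        have e4 := G_le_inv U (β * (q * i)) (by rw [e3]; positivity)
        rw [e3] at e4
        refine e4.trans (le_of_eq ?_)
        field_simp
      refine (Finset.sum_le_sum h1).trans ?_
      rw [← Finset.mul_sum]
      have h2 := sum_inv_le (H / q)
      have h3 : 1 + Real.log ((H / q : ℕ) : ℝ) ≤ 1 + Real.log H := by
        rcases Nat.eq_zero_or_pos (H / q) with h4 | h4
        · rw [h4]; simp; exact hlog
        · have h5 : ((H / q : ℕ) : ℝ) ≤ H := by exact_mod_cast Nat.div_le_self H q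
          have h6 : (0 : ℝ) < ((H / q : ℕ) : ℝ) := by exact_mod_cast h4
          have := Real.log_le_log h6 h5
          linarith
      calc 1 / (2 * |β| * q) * ∑ i ∈ Icc 1 (H / q), (1 / (i : ℝ)) ≤
            1 / (2 * |β| * q) * (1 + Real.log H) :=
            mul_le_mul_of_nonneg_left (h2.trans h3) (by positivity)
        _ = _ := by ring
    refine hle2.trans ?_
    have hUH : (0 : ℝ) < U * H := by
      by_contra hcon
      have : (U : ℝ) * H = 0 := le_antisymm (not_lt.1 hcon) (by positivity)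
      rw [hy, this] at h
      simp at h
      linarith
    have e1 : (1 + Real.log H) / (2 * |β| * q) = (1 + Real.log H) * (U * H) / (2 * y * q) := by
      rw [hy]
      generalize (U : ℝ) * H = w at hUH
      have hw := hUH.ne'
      field_simp
    rw [e1, div_le_div_iff₀ (by positivity) (by positivity)]
    have h1 : 1 + y ≤ 4 * y := by linarith
    have h2 : (0 : ℝ) ≤ (1 + Real.log H) * (U * H) * q := by positivity
    nlinarith [mul_le_mul_of_nonneg_left h1 h2]

/-- non-multiples of `q` -/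
theorem sum_nonmult (b : ℤ) (q : ℕ) (β : ℝ) (U H : ℕ) (hq : 1 ≤ q) (hb : Int.gcd b q = 1)
    (hβ : 2 * |β| * H * q ≤ 1) :
    ∑ h ∈ (Icc 1 H).filter (fun h => ¬ q ∣ h), G U (((b : ℝ) / q + β) * h) ≤
      2 * (H + q) * (1 + Real.log q) := by
  have : NeZero q := ⟨by omega⟩
  have hq' : (1 : ℝ) ≤ q := by exact_mod_cast hq
  have hq0 : (0 : ℝ) < q := by linarith
  have hunit : IsUnit ((b : ZMod q)) := by
    rw [ZMod.coe_int_isUnit_iff_isCoprime, Int.isCoprime_iff_gcd_eq_one, Int.gcd_comm]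
    exact hb
  have h1 : ∀ h ∈ (Icc 1 H).filter (fun h => ¬ q ∣ h), G U (((b : ℝ) / q + β) * h) ≤
      psi q ((b : ZMod q) * (h : ZMod q)) := by
    intro h hh
    rw [Finset.mem_filter, Finset.mem_Icc] at hh
    obtain ⟨⟨hh1, hh2⟩, hh3⟩ := hh
    have hne : (b : ZMod q) * (h : ZMod q) ≠ 0 := by
      intro h0
      have := (hunit.mul_right_eq_zero).1 h0
      exact hh3 ((ZMod.natCast_eq_zero_iff h q).1 this)
    set x : ZMod q := (b : ZMod q) * (h : ZMod q) with hx
    have hval : ∃ c : ℤ, b * h = (x.val : ℤ) + q * c := by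
      have e1 : ((b * h : ℤ) : ZMod q) = ((x.val : ℤ) : ZMod q) := by
        push_cast
        rw [ZMod.natCast_zmod_val]
      have e2 := (ZMod.intCast_eq_intCast_iff_dvd_sub _ _ _).1 e1.symm
      obtain ⟨c, hc⟩ := e2
      exact ⟨c, by linarith⟩
    obtain ⟨c, hc⟩ := hval
    have hnn : nn ((b : ℝ) / q * h) = nn ((x.val : ℝ) / q) := by
      have e1 : (b : ℝ) / q * h = (x.val : ℝ) / q + (c : ℝ) := by
        have : (b : ℝ) * h = x.val + q * c := by exact_mod_cast hc
        field_simp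
        linarith
      rw [e1, nn_int_add]
    have hxv : 1 ≤ x.val := by
      rcases Nat.eq_zero_or_pos x.val with h4 | h4
      · exact absurd ((ZMod.val_eq_zero x).1 h4) hne
      · exact h4
    have hxv2 : x.val < q := ZMod.val_lt x
    have hlow : 1 / (q : ℝ) ≤ nn ((x.val : ℝ) / q) := by
      have hv1 : (1 : ℝ) ≤ x.val := by exact_mod_cast hxv
      have hv2 : (x.val : ℝ) + 1 ≤ q := by exact_mod_cast hxv2
      rcases le_total ((x.val : ℝ) / q) (1 / 2) with h | h
      · rw [nn_eq_abs (by rw [abs_of_nonneg (by positivity)]; exact h),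
          abs_of_nonneg (by positivity)]
        exact div_le_div_of_nonneg_right hv1 hq0.le
      · have e1 : (x.val : ℝ) / q = ((x.val : ℝ) / q - 1) + (1 : ℤ) := by push_cast; ring
        have e5 : (x.val : ℝ) / q ≤ 1 := by
          rw [div_le_one hq0]; linarith
        have e2 : |(x.val : ℝ) / q - 1| = 1 - (x.val : ℝ) / q := by
          rw [abs_of_nonpos (by linarith)]; ring
        rw [e1, nn_int_add, nn_eq_abs (by rw [e2]; linarith), e2]
        rw [div_le_iff₀ hq0]
        have : (1 - (x.val : ℝ) / q) * q = q - x.val := by field_simp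
        rw [this]; linarith
    have hβh : |β * h| ≤ 1 / (2 * q) := by
      rw [abs_mul, Nat.abs_cast, le_div_iff₀ (by positivity)]
      have h5 : (h : ℝ) ≤ H := by exact_mod_cast hh2
      have h6 : |β| * h ≤ |β| * H := mul_le_mul_of_nonneg_left h5 (abs_nonneg _)
      nlinarith
    have hlow2 : nn ((x.val : ℝ) / q) / 2 ≤ nn (((b : ℝ) / q + β) * h) := by
      have e1 := nn_le_add ((b : ℝ) / q * h) (β * h)
      have e2 : (b : ℝ) / q * h + β * h = ((b : ℝ) / q + β) * h := by ring
      rw [e2, hnn] at e1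
      have e3 : 1 / (2 * (q : ℝ)) = 1 / q / 2 := by field_simp
      rw [e3] at hβh
      linarith
    have hpos : 0 < nn ((x.val : ℝ) / q) := lt_of_lt_of_le (by positivity) hlow
    have h7 := G_le_inv U (((b : ℝ) / q + β) * h) (by linarith)
    refine h7.trans ?_
    unfold psi
    rw [if_neg hne]
    apply one_div_le_one_div_of_le hpos
    linarith
  refine (Finset.sum_le_sum h1).trans ?_
  have h2 : ∑ h ∈ (Icc 1 H).filter (fun h => ¬ q ∣ h), psi q ((b : ZMod q) * (h : ZMod q)) ≤
      ∑ h ∈ range (q * (H / q + 1)), psi q ((b : ZMod q) * (h : ZMod q)) := by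
    apply Finset.sum_le_sum_of_subset_of_nonneg
    · intro h hh
      rw [Finset.mem_filter, Finset.mem_Icc] at hh
      rw [Finset.mem_range]
      have e1 := Nat.div_add_mod H q
      have e2 := Nat.mod_lt H (show q > 0 by omega)
      rw [Nat.mul_add, Nat.mul_one]
      omega
    · intro h _ _
      exact psi_nonneg _ _
  refine h2.trans ?_
  rw [sum_periodic q (fun x => psi q ((b : ZMod q) * x)) (H / q + 1)]
  have h3 : ∑ x : ZMod q, psi q ((b : ZMod q) * x) = ∑ x : ZMod q, psi q x := by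
    obtain ⟨u, hu⟩ := hunit
    rw [← hu]
    exact Equiv.sum_comp (Units.mulLeft u) (fun x => psi q x)
  rw [h3]
  have h4 := sum_psi_le q
  have h5 : ((H / q + 1 : ℕ) : ℝ) * q ≤ H + q := by
    have : ((H / q : ℕ) : ℝ) ≤ (H : ℝ) / q := Nat.cast_div_le
    push_cast
    calc (((H / q : ℕ) : ℝ) + 1) * q ≤ ((H : ℝ) / q + 1) * q :=
          mul_le_mul_of_nonneg_right (by linarith) hq0.le
      _ = H + q := by field_simp
  have hlog : 0 ≤ Real.log q := Real.log_nonneg hq'
  calc ((H / q + 1 : ℕ) : ℝ) * ∑ x : ZMod q, psi q x ≤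
        ((H / q + 1 : ℕ) : ℝ) * (2 * q * (1 + Real.log q)) :=
        mul_le_mul_of_nonneg_left h4 (by positivity)
    _ = 2 * (((H / q + 1 : ℕ) : ℝ) * q) * (1 + Real.log q) := by ring
    _ ≤ 2 * (H + q) * (1 + Real.log q) := by
        apply mul_le_mul_of_nonneg_right _ (by linarith)
        linarith

theorem HSum (b : ℤ) (q : ℕ) (β : ℝ) (U H : ℕ) (hq : 1 ≤ q) (hb : Int.gcd b q = 1)
    (hβ : 2 * |β| * H * q ≤ 1) :
    ∑ h ∈ Icc 1 H, G U (((b : ℝ) / q + β) * h) ≤
      2 * (1 + Real.log H) * (U * H) / (q * (1 + |β| * (U * H))) +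
        2 * (H + q) * (1 + Real.log q) := by
  rw [← Finset.sum_filter_add_sum_filter_not (Icc 1 H) (fun h => q ∣ h)]
  exact add_le_add (sum_mult b q β U H hq hβ) (sum_nonmult b q β U H hq hb hβ)

end Pool.Agent.W851.Had
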