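import Pool.Agent.W851.Had.Point4

/-! The high moment of the exponential sum. -/

namespace Pool.Agent.W851.Had

open Finset Pool.Agent.H108R3.Had

theorem tele_aux (y : ℝ) : 1 / (1 + |y|) ^ 2 ≤ 4 * ((y + 1) / (1 + |y + 1|) - y / (1 + |y|)) := by
  rcases le_total 0 y with h | h
  · rw [abs_of_nonneg h, abs_of_nonneg (by linarith : 0 ≤ y + 1)]
    have e1 : (y + 1) / (1 + (y + 1)) - y / (1 + y) = 1 / ((1 + y) * (2 + y)) := by
      field_simp
      ring
    rw [e1, mul_one_div, div_le_div_iff₀ (by positivity) (by positivity)]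
    nlinarith
  · rcases le_total 0 (y + 1) with h2 | h2
    · rw [abs_of_nonpos h, abs_of_nonneg h2]
      obtain ⟨s, rfl⟩ : ∃ s, y = -s := ⟨-y, by ring⟩
      have hs0 : 0 ≤ s := by linarith
      have hs1 : s ≤ 1 := by linarith
      have e1 : (-s + 1) / (1 + (-s + 1)) - -s / (1 + - -s) = (1 - s) / (2 - s) + s / (1 + s) := by
        rw [neg_neg]
        have : 1 + (-s + 1) = 2 - s := by ring
        rw [this]
        ring
      rw [e1, neg_neg, div_add_div _ _ (by linarith) (by linarith), mul_div_assoc',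
        div_le_div_iff₀ (by positivity) (mul_pos (by linarith) (by linarith))]
      nlinarith [mul_nonneg hs0 (sub_nonneg.2 hs1), mul_nonneg (mul_nonneg hs0 hs0) (sub_nonneg.2 hs1)]
    · rw [abs_of_nonpos h, abs_of_nonpos h2]
      obtain ⟨s, rfl⟩ : ∃ s, y = -s := ⟨-y, by ring⟩
      have hs1 : 1 ≤ s := by linarith
      have e1 : (-s + 1) / (1 + -(-s + 1)) - -s / (1 + - -s) = 1 / (s * (1 + s)) := by
        have : 1 + -(-s + 1) = s := by ring
        rw [this, neg_neg]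
        field_simp
        ring
      rw [e1, neg_neg, mul_one_div, div_le_div_iff₀ (by positivity) (by positivity)]
      nlinarith

theorem sum_inv_sq_abs (x : ℝ) (n : ℕ) : ∑ a ∈ range n, 1 / (1 + |(a : ℝ) - x|) ^ 2 ≤ 8 := by
  have h1 : ∑ a ∈ range n, 1 / (1 + |(a : ℝ) - x|) ^ 2 ≤
      ∑ a ∈ range n, (4 * ((((a + 1 : ℕ) : ℝ) - x) / (1 + |((a + 1 : ℕ) : ℝ) - x|)) -
        4 * (((a : ℝ) - x) / (1 + |(a : ℝ) - x|))) := by
    refine Finset.sum_le_sum fun a _ => ?_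
    have := tele_aux ((a : ℝ) - x)
    have e1 : ((a + 1 : ℕ) : ℝ) - x = (a : ℝ) - x + 1 := by push_cast; ring
    rw [e1]
    linarith
  refine h1.trans ?_
  rw [Finset.sum_range_sub (fun a : ℕ => 4 * (((a : ℝ) - x) / (1 + |(a : ℝ) - x|)))]
  have key : ∀ y : ℝ, |y / (1 + |y|)| ≤ 1 := by
    intro y
    rw [abs_div, abs_of_pos (by positivity : 0 < 1 + |y|), div_le_one (by positivity)]
    linarith
  have k1 := (abs_le.1 (key ((n : ℝ) - x))).2
  have k2 := (abs_le.1 (key (((0 : ℕ) : ℝ) - x))).1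
  linarith

theorem sum_inv_sq (Q : ℕ) : ∑ q ∈ Icc 1 Q, 1 / (q : ℝ) ^ 2 ≤ 2 := by
  have h := sum_Ioo_inv_sq_le (α := ℝ) 0 (Q + 1)
  have e1 : Ioo 0 (Q + 1) = Icc 1 Q := by
    ext x
    rw [Finset.mem_Ioo, Finset.mem_Icc]
    omega
  rw [e1] at h
  simp only [one_div]
  refine h.trans ?_
  norm_num

/-- Dirichlet approximation with all the side conditions -/
theorem dirichlet (X a P : ℕ) (hX : 0 < X) (haP : a < P) : ∃ (b q : ℕ), 1 ≤ q ∧ q ≤ Nat.sqrt X ∧
    b ≤ q ∧ Int.gcd (b : ℤ) q = 1 ∧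
    ((q : ℝ) * (1 + |(a : ℝ) / P - (b : ℝ) / q| * X)) ^ 2 ≤ 4 * X := by
  have hQ : 0 < Nat.sqrt X := Nat.sqrt_pos.2 hX
  obtain ⟨r, hr1, hr2⟩ := Real.exists_rat_abs_sub_le_and_den_le ((a : ℝ) / P) hQ
  have hP : (0 : ℝ) < P := by exact_mod_cast (by omega : 0 < P)
  have hden : 0 < r.den := r.pos
  have hden' : (0 : ℝ) < r.den := by exact_mod_cast hden
  have hrq : (r : ℝ) = (r.num : ℝ) / r.den := by
    rw [Rat.cast_def]
  rw [hrq] at hr1
  have hQ' : (1 : ℝ) ≤ Nat.sqrt X := by exact_mod_cast hQ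
  have hα0 : 0 ≤ (a : ℝ) / P := by positivity
  have hα1 : (a : ℝ) / P < 1 := by
    rw [div_lt_one hP]; exact_mod_cast haP
  have hsm : 1 / (((Nat.sqrt X : ℕ) : ℝ) + 1) < 1 := by
    rw [div_lt_one (by linarith)]; linarith
  have hprod : |(a : ℝ) / P - (r.num : ℝ) / r.den| * r.den ≤ 1 / (((Nat.sqrt X : ℕ) : ℝ) + 1) := by
    calc |(a : ℝ) / P - (r.num : ℝ) / r.den| * r.den ≤
          1 / ((((Nat.sqrt X : ℕ) : ℝ) + 1) * r.den) * r.den :=
          mul_le_mul_of_nonneg_right hr1 hden'.le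
      _ = _ := by field_simp
  have habs := abs_le.1 (le_refl |(a : ℝ) / P - (r.num : ℝ) / r.den|)
  have h1 : ((a : ℝ) / P - (r.num : ℝ) / r.den) * r.den = (a : ℝ) / P * r.den - r.num := by
    field_simp
  have h2 : (a : ℝ) / P * r.den - r.num < 1 := by
    rw [← h1]
    calc ((a : ℝ) / P - (r.num : ℝ) / r.den) * r.den ≤
        |(a : ℝ) / P - (r.num : ℝ) / r.den| * r.den := mul_le_mul_of_nonneg_right habs.2 hden'.le
      _ < 1 := by linarith
  have h3 : -1 < (a : ℝ) / P * r.den - r.num := by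
    rw [← h1]
    have : -(|(a : ℝ) / P - (r.num : ℝ) / r.den| * r.den) ≤
        ((a : ℝ) / P - (r.num : ℝ) / r.den) * r.den := by
      rw [← neg_mul]
      exact mul_le_mul_of_nonneg_right habs.1 hden'.le
    linarith
  have h4 : 0 ≤ (a : ℝ) / P * r.den := by positivity
  have h5 : (a : ℝ) / P * r.den < r.den := by
    calc (a : ℝ) / P * r.den < 1 * r.den := mul_lt_mul_of_pos_right hα1 hden'
      _ = r.den := one_mul _
  have hb0 : 0 ≤ r.num := by
    have : (-1 : ℝ) < r.num := by linarith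
    have : (-1 : ℤ) < r.num := by exact_mod_cast this
    omega
  have hb1 : r.num ≤ r.den := by
    have : (r.num : ℝ) < r.den + 1 := by linarith
    have : r.num < (r.den : ℤ) + 1 := by exact_mod_cast this
    omega
  obtain ⟨b, hb⟩ := Int.eq_ofNat_of_zero_le hb0
  refine ⟨b, r.den, hden, hr2, by omega, ?_, ?_⟩
  · have := r.reduced
    rw [← hb]
    exact this
  · have hbr : (b : ℝ) = (r.num : ℝ) := by rw [hb]; simp
    rw [hbr]
    have hX0 : (0 : ℝ) < X := by exact_mod_cast hX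
    have e1 : (r.den : ℝ) * (1 + |(a : ℝ) / P - (r.num : ℝ) / r.den| * X) =
        r.den + (|(a : ℝ) / P - (r.num : ℝ) / r.den| * r.den) * X := by ring
    rw [e1]
    have e2 : (r.den : ℝ) ^ 2 ≤ X := by
      have h6 : r.den ^ 2 ≤ X := (Nat.pow_le_pow_left hr2 2).trans (Nat.sqrt_le' X)
      exact_mod_cast h6
    have e3 : ((|(a : ℝ) / P - (r.num : ℝ) / r.den| * r.den) * X) ^ 2 ≤ X := by
      have h7 : (X : ℝ) ≤ (((Nat.sqrt X : ℕ) : ℝ) + 1) ^ 2 := by
        have : X < (Nat.sqrt X + 1) ^ 2 := Nat.lt_succ_sqrt' X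
        have : (X : ℝ) < ((Nat.sqrt X + 1 : ℕ) : ℝ) ^ 2 := by exact_mod_cast this
        push_cast at this
        exact this.le
      have h8 : (|(a : ℝ) / P - (r.num : ℝ) / r.den| * r.den) * X ≤
          X / (((Nat.sqrt X : ℕ) : ℝ) + 1) := by
        calc (|(a : ℝ) / P - (r.num : ℝ) / r.den| * r.den) * X ≤
            1 / (((Nat.sqrt X : ℕ) : ℝ) + 1) * X := mul_le_mul_of_nonneg_right hprod hX0.le
          _ = _ := by ring
      have h9 : 0 ≤ (|(a : ℝ) / P - (r.num : ℝ) / r.den| * r.den) * X := by positivity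
      calc ((|(a : ℝ) / P - (r.num : ℝ) / r.den| * r.den) * X) ^ 2 ≤
          (X / (((Nat.sqrt X : ℕ) : ℝ) + 1)) ^ 2 := pow_le_pow_left₀ h9 h8 2
        _ = X * X / (((Nat.sqrt X : ℕ) : ℝ) + 1) ^ 2 := by rw [div_pow, sq (X : ℝ)]
        _ ≤ X := by
            rw [div_le_iff₀ (by positivity)]
            exact mul_le_mul_of_nonneg_left h7 hX0.le
    nlinarith [sq_nonneg ((r.den : ℝ) - (|(a : ℝ) / P - (r.num : ℝ) / r.den| * r.den) * X)]

/-- the high moment -/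
theorem moment (A : Finset ℕ) (M L κ T P : ℕ) (hW : Win A M L) (hMA : M ≤ L ^ 2 * A.card)
    (hL : 1000 ≤ L) (hM1 : L ^ 40 ≤ M) (hX : T * M ^ κ ≤ 2 ^ L) (hκ : 4 ≤ κ)
    (hT1 : M ^ 3 ≤ T) (hT : T ≤ M ^ 4) (hP : P = 96 * (T * M ^ κ)) :
    ∑ a ∈ range P, ‖Sx A κ T ((a : ℝ) / P)‖ ^ 32 ≤
      (2 ^ 32 * 294912) * (T * (A.card : ℝ) ^ κ) ^ 32 := by
  have hL0 : 0 < L := by omega
  have hM0 : 0 < M := lt_of_lt_of_le (by positivity) hM1
  have hT0 : 0 < T := lt_of_lt_of_le (by positivity) hT1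
  obtain ⟨X, hXd⟩ : ∃ X, X = T * M ^ κ := ⟨_, rfl⟩
  have hX0 : 0 < X := by rw [hXd]; positivity
  have hX0' : (0 : ℝ) < X := by exact_mod_cast hX0
  have hXr : (X : ℝ) = T * (M : ℝ) ^ κ := by rw [hXd]; push_cast; ring
  rw [← hXd] at hP
  have hPr : (P : ℝ) = 96 * X := by rw [hP]; push_cast; ring
  have hP0 : (0 : ℝ) < P := by rw [hPr]; positivity
  obtain ⟨W, hWd⟩ : ∃ W : ℝ, W = T * (A.card : ℝ) ^ κ := ⟨_, rfl⟩
  have hW0 : 0 ≤ W := by rw [hWd]; positivity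
  rw [← hWd]
  have hcoef : (0 : ℝ) ≤ 2 ^ 32 * W ^ 32 := by positivity
  -- the majorant
  obtain ⟨F, hF⟩ : ∃ F : ℕ → ℕ → ℕ → ℝ, F = fun a q b : ℕ =>
      9216 / (q : ℝ) ^ 3 * (1 / (1 + |(a : ℝ) - (b : ℝ) * P / q|) ^ 2) := ⟨_, rfl⟩
  have hF0 : ∀ a q b, 0 ≤ F a q b := by
    intro a q b; rw [hF]; positivity
  have hpt : ∀ a ∈ range P, ‖Sx A κ T ((a : ℝ) / P)‖ ^ 32 ≤
      (2 ^ 32 * W ^ 32) * ∑ q ∈ Icc 1 (Nat.sqrt X), ∑ b ∈ range (q + 1), F a q b := by
    intro a ha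
    rw [Finset.mem_range] at ha
    obtain ⟨b, q, hq1, hqQ, hbq, hgcd, hD2⟩ := dirichlet X a P hX0 ha
    have hq0 : (1 : ℝ) ≤ q := by exact_mod_cast hq1
    have hpoint := point A M L κ T hW hMA hL hM1 hX hκ hT1 hT b q ((a : ℝ) / P - (b : ℝ) / q)
      ((q : ℝ) * (1 + |(a : ℝ) / P - (b : ℝ) / q| * X)) hq1 hgcd (by rw [hXr])
      (by rw [← hXr]; exact hD2)
    have e1 : (((b : ℤ) : ℝ)) / q + ((a : ℝ) / P - (b : ℝ) / q) = (a : ℝ) / P := by
      push_cast; ring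
    rw [e1, ← hWd] at hpoint
    set y : ℝ := |(a : ℝ) / P - (b : ℝ) / q| * X with hy
    have hy0 : 0 ≤ y := by positivity
    have hDpos : (0 : ℝ) < (q * (1 + y)) ^ 3 := by positivity
    have h1 : ‖Sx A κ T ((a : ℝ) / P)‖ ^ 32 ≤ (2 ^ 32 * W ^ 32) * (1 / (q * (1 + y)) ^ 3) := by
      rw [mul_one_div, le_div_iff₀ hDpos]
      exact hpoint
    refine h1.trans (mul_le_mul_of_nonneg_left ?_ hcoef)
    have h2 : 1 / (q * (1 + y)) ^ 3 ≤ F a q b := by
      rw [hF]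
      simp only
      have hyx : y = |(a : ℝ) - (b : ℝ) * P / q| / 96 := by
        have e2 : (a : ℝ) / P - (b : ℝ) / q = ((a : ℝ) - (b : ℝ) * P / q) / P := by
          have : (q : ℝ) ≠ 0 := by positivity
          field_simp
        rw [hy, e2, abs_div, abs_of_pos hP0, hPr]
        field_simp
      set z : ℝ := |(a : ℝ) - (b : ℝ) * P / q| with hz
      have hz0 : 0 ≤ z := abs_nonneg _
      have h3 : (1 + z) ^ 2 ≤ 9216 * (1 + y) ^ 3 := by
        have h4 : (1 + z) ≤ 96 * (1 + y) := by rw [hyx]; linarith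
        calc (1 + z) ^ 2 ≤ (96 * (1 + y)) ^ 2 := pow_le_pow_left₀ (by positivity) h4 2
          _ = 9216 * (1 + y) ^ 2 := by ring
          _ ≤ 9216 * (1 + y) ^ 3 := by
              apply mul_le_mul_of_nonneg_left _ (by norm_num)
              exact pow_le_pow_right₀ (by linarith) (by norm_num)
      rw [div_mul_div_comm, mul_one, mul_pow, div_le_div_iff₀ (by positivity) (by positivity)]
      have h5 : 0 ≤ (q : ℝ) ^ 3 := by positivity
      calc 1 * ((q : ℝ) ^ 3 * (1 + z) ^ 2) = (q : ℝ) ^ 3 * (1 + z) ^ 2 := by ring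
        _ ≤ (q : ℝ) ^ 3 * (9216 * (1 + y) ^ 3) := mul_le_mul_of_nonneg_left h3 h5
        _ = _ := by ring
    refine h2.trans ?_
    have h3 : F a q b ≤ ∑ b ∈ range (q + 1), F a q b :=
      Finset.single_le_sum (f := fun b => F a q b) (fun i _ => hF0 a q i)
        (Finset.mem_range.2 (by omega))
    have h4 : ∑ b ∈ range (q + 1), F a q b ≤
        ∑ q ∈ Icc 1 (Nat.sqrt X), ∑ b ∈ range (q + 1), F a q b :=
      Finset.single_le_sum (f := fun q => ∑ b ∈ range (q + 1), F a q b)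
        (fun i _ => Finset.sum_nonneg fun b _ => hF0 a i b) (Finset.mem_Icc.2 ⟨hq1, hqQ⟩)
    exact h3.trans h4
  refine (Finset.sum_le_sum hpt).trans ?_
  rw [← Finset.mul_sum]
  have hsum : ∑ a ∈ range P, ∑ q ∈ Icc 1 (Nat.sqrt X), ∑ b ∈ range (q + 1), F a q b ≤ 294912 := by
    rw [Finset.sum_comm]
    have h1 : ∀ q ∈ Icc 1 (Nat.sqrt X), ∑ a ∈ range P, ∑ b ∈ range (q + 1), F a q b ≤
        147456 * (1 / (q : ℝ) ^ 2) := by
      intro q hq
      rw [Finset.mem_Icc] at hq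
      have hq0 : (1 : ℝ) ≤ q := by exact_mod_cast hq.1
      rw [Finset.sum_comm]
      have h2 : ∀ b ∈ range (q + 1), ∑ a ∈ range P, F a q b ≤ 9216 / (q : ℝ) ^ 3 * 8 := by
        intro b _
        rw [hF]
        simp only
        rw [← Finset.mul_sum]
        exact mul_le_mul_of_nonneg_left (sum_inv_sq_abs _ _) (by positivity)
      refine (Finset.sum_le_sum h2).trans ?_
      rw [Finset.sum_const, Finset.card_range, nsmul_eq_mul]
      push_cast
      have h3 : (q : ℝ) + 1 ≤ 2 * q := by linarith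
      calc ((q : ℝ) + 1) * (9216 / (q : ℝ) ^ 3 * 8) ≤ (2 * q) * (9216 / (q : ℝ) ^ 3 * 8) :=
            mul_le_mul_of_nonneg_right h3 (by positivity)
        _ = 147456 * (1 / (q : ℝ) ^ 2) := by
            field_simp
            norm_num
    refine (Finset.sum_le_sum h1).trans ?_
    rw [← Finset.mul_sum]
    have := sum_inv_sq (Nat.sqrt X)
    linarith
  calc (2 ^ 32 * W ^ 32) * ∑ a ∈ range P, ∑ q ∈ Icc 1 (Nat.sqrt X), ∑ b ∈ range (q + 1), F a q b ≤
      (2 ^ 32 * W ^ 32) * 294912 := mul_le_mul_of_nonneg_left hsum hcoef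
    _ = _ := by ring

end Pool.Agent.W851.Had
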