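import Pool.Agent.H108R3.Had.N0

/-! Distance to the nearest integer and geometric sums. -/

namespace Pool.Agent.W851.Had

open Finset Pool.Agent.H108R3.Had

/-- distance to the nearest integer -/
noncomputable def nn (x : ℝ) : ℝ := |x - round x|

theorem nn_nonneg (x : ℝ) : 0 ≤ nn x := abs_nonneg _

theorem nn_le (x : ℝ) (n : ℤ) : nn x ≤ |x - n| := round_le x n

theorem nn_le_half (x : ℝ) : nn x ≤ 1 / 2 := abs_sub_round x

theorem nn_le_add (x y : ℝ) : nn x ≤ nn (x + y) + |y| := by
  have h := round_le x (round (x + y))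
  have h2 : |x - round (x + y)| ≤ |x + y - round (x + y)| + |y| := by
    have : x - round (x + y) = (x + y - round (x + y)) - y := by ring
    rw [this]
    exact abs_sub _ _
  exact h.trans h2

theorem nn_eq_abs {x : ℝ} (hx : |x| ≤ 1 / 2) : nn x = |x| := by
  apply le_antisymm
  · have := nn_le x 0
    simpa using this
  · unfold nn
    rcases eq_or_ne (round x) 0 with h | h
    · rw [h]; simp
    · have h1 : (1 : ℝ) ≤ |(round x : ℝ)| := by
        have : (1 : ℤ) ≤ |round x| := Int.one_le_abs h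
        exact_mod_cast this
      have h2 : |(round x : ℝ)| ≤ |x - round x| + |x| := by
        have : (round x : ℝ) = x - (x - round x) := by ring
        calc |(round x : ℝ)| = |x - (x - round x)| := by rw [← this]
          _ ≤ |x| + |x - round x| := abs_sub _ _
          _ = _ := by ring
      linarith

theorem nn_int_add (x : ℝ) (n : ℤ) : nn (x + n) = nn x := by
  unfold nn
  rw [round_add_intCast]
  push_cast
  congr 1
  ring

theorem e_add (x y : ℝ) : e (x + y) = e x * e y := by
  unfold e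
  rw [← Complex.exp_add]
  congr 1
  push_cast
  ring

theorem norm_e (x : ℝ) : ‖e x‖ = 1 := by
  unfold e
  have h : (2 * (Real.pi : ℂ) * (x : ℂ) * Complex.I) = ((2 * Real.pi * x : ℝ) : ℂ) * Complex.I := by
    push_cast
    ring
  rw [h, Complex.norm_exp_ofReal_mul_I]

theorem conj_e (x : ℝ) : (starRingEnd ℂ) (e x) = e (-x) := by
  unfold e
  rw [← Complex.exp_conj]
  congr 1
  rw [map_mul, map_mul, map_mul, Complex.conj_I, Complex.conj_ofReal, Complex.conj_ofReal,
    Complex.conj_ofNat]
  push_cast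
  ring

theorem e_int (n : ℤ) : e (n : ℝ) = 1 := by
  unfold e
  rw [Complex.exp_eq_one_iff]
  exact ⟨n, by push_cast; ring⟩

theorem e_zero : e 0 = 1 := by simpa using e_int 0

/-- the geometric sum -/
noncomputable def G (U : ℕ) (θ : ℝ) : ℝ := ‖∑ r ∈ range U, e (θ * r)‖

theorem G_nonneg (U : ℕ) (θ : ℝ) : 0 ≤ G U θ := norm_nonneg _

theorem G_le (U : ℕ) (θ : ℝ) : G U θ ≤ U := by
  unfold G
  refine (norm_sum_le _ _).trans ?_
  simp [norm_e]

theorem G_neg (U : ℕ) (θ : ℝ) : G U (-θ) = G U θ := by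
  unfold G
  have h : ∑ r ∈ range U, e (-θ * r) = (starRingEnd ℂ) (∑ r ∈ range U, e (θ * r)) := by
    rw [map_sum]
    refine Finset.sum_congr rfl fun r _ => ?_
    rw [conj_e]
    congr 1
    ring
  rw [h, RCLike.norm_conj]

theorem G_add_int (U : ℕ) (θ : ℝ) (n : ℤ) : G U (θ + n) = G U θ := by
  unfold G
  congr 1
  refine Finset.sum_congr rfl fun r _ => ?_
  have h : (θ + n) * r = θ * r + ((n * r : ℤ) : ℝ) := by push_cast; ring
  rw [h, e_add, e_int, mul_one]

theorem G_mul_nn (U : ℕ) (θ : ℝ) : G U θ * (2 * nn θ) ≤ 1 := by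
  have key : ∀ x : ℝ, 0 ≤ x → x ≤ 1 / 2 → G U x * (2 * x) ≤ 1 := by
    intro x hx hx2
    rcases eq_or_lt_of_le hx with h | h
    · rw [← h]; simp
    · have := t_N0 U x h hx2
      unfold G
      rw [le_div_iff₀ (by positivity)] at this
      exact this
  have h1 : G U θ = G U (θ - round θ) := by
    have := G_add_int U (θ - round θ) (round θ)
    rw [sub_add_cancel] at this
    exact this
  rw [h1]
  unfold nn
  have h2 := abs_sub_round θ
  rcases le_total 0 (θ - round θ) with h | h
  · rw [abs_of_nonneg h] at h2 ⊢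
    exact key _ h h2
  · rw [abs_of_nonpos h] at h2 ⊢
    rw [← G_neg]
    exact key _ (by linarith) h2

theorem G_le_inv (U : ℕ) (θ : ℝ) (h : 0 < nn θ) : G U θ ≤ 1 / (2 * nn θ) := by
  rw [le_div_iff₀ (by positivity)]
  exact G_mul_nn U θ

end Pool.Agent.W851.Had
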