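import Pool.Agent.W851.Had.Bil
import Pool.Agent.W851.Had.HSum
import Pool.Agent.H108R3.Had.N2

/-! Pointwise bounds for the exponential sum over `t * p_1 ⋯ p_κ`. -/

namespace Pool.Agent.W851.Had

open Finset Pool.Agent.H108R3.Had

/-- the exponential sum -/
noncomputable def Sx (A : Finset ℕ) (κ T : ℕ) (α : ℝ) : ℂ :=
  ∑ t ∈ Ico T (2 * T), SA A κ (fun m => e (α * ((t : ℝ) * (m : ℝ))))

theorem Sx_split (A : Finset ℕ) (κ T j : ℕ) (hj : 2 * j ≤ κ) (α : ℝ) :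
    Sx A κ T α = SA A (κ - 2 * j) (fun R => Bs A T j (α * R)) := by
  unfold Sx Bs
  rw [SA_sum]
  refine Finset.sum_congr rfl fun t _ => ?_
  have h1 : κ = (κ - 2 * j) + (j + j) := by omega
  conv_lhs => rw [h1]
  rw [SA_add]
  congr 1
  funext R
  rw [SA_add]
  congr 1
  funext m₁
  congr 1
  funext m₂
  congr 1
  push_cast
  ring

/-- the multiplicity bound -/
theorem mult_le (A : Finset ℕ) (M j T u : ℕ) (hA : ∀ p ∈ A, p.Prime ∧ M ≤ p) (hM : 6 < M)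
    (hT : T ≤ M ^ 4) (hu1 : 1 ≤ u) (hu : u < 6 * T * M ^ j) :
    ∑ t ∈ Ico T (2 * T), SA A j (fun m => if t * m = u then (1 : ℝ) else 0) ≤
      ((j : ℝ) + 4) ^ j := by
  have huM : u < M ^ ((j + 4) + 1) := by
    calc u < 6 * T * M ^ j := hu
      _ ≤ M * M ^ 4 * M ^ j := by
          apply Nat.mul_le_mul_right
          exact Nat.mul_le_mul (by omega) hT
      _ = M ^ ((j + 4) + 1) := by ring
  have h1 : ∑ t ∈ Ico T (2 * T), SA A j (fun m => if t * m = u then (1 : ℝ) else 0) =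
      SA A j (fun m => ∑ t ∈ Ico T (2 * T), if t * m = u then (1 : ℝ) else 0) := (SA_sum A _ j _).symm
  rw [h1]
  have h2 : SA A j (fun m => ∑ t ∈ Ico T (2 * T), if t * m = u then (1 : ℝ) else 0) ≤
      SA A j (fun m => if m ∣ u then (1 : ℝ) else 0) := by
    apply SA_mono
    intro m hm
    split_ifs with h
    · have h3 : ∑ t ∈ Ico T (2 * T), (if t * m = u then (1 : ℝ) else 0) =
          ((Ico T (2 * T)).filter (fun t => t * m = u)).card := by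
        rw [Finset.card_filter]; push_cast; rfl
      rw [h3]
      have hm0 : 0 < m := Nat.pos_of_dvd_of_pos h hu1
      have h4 : ((Ico T (2 * T)).filter (fun t => t * m = u)).card ≤ 1 := by
        rw [Finset.card_le_one]
        intro a ha b hb
        rw [Finset.mem_filter] at ha hb
        exact Nat.eq_of_mul_eq_mul_right hm0 (ha.2.trans hb.2.symm)
      exact_mod_cast h4
    · rw [Finset.sum_eq_zero]
      intro t _
      rw [if_neg]
      intro h5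
      exact h (Dvd.intro_left t h5)
  refine h2.trans ((SA_dvd A u j).trans ?_)
  apply pow_le_pow_left₀ (Nat.cast_nonneg _)
  have := card_dvd A hA (by omega) hu1 huM
  exact_mod_cast this

theorem sq_one_add_log {x : ℝ} (hx : 1 ≤ x) : 1 ≤ 1 + Real.log x := by
  have := Real.log_nonneg hx
  linarith

/-- the bilinear sum near a rational -/
theorem Bs_bound (A : Finset ℕ) (M L j T : ℕ) (hW : Win A M L) (hjL : j ≤ L) (hM : 6 < M)
    (hT1 : M ^ 3 ≤ T) (hT : T ≤ M ^ 4) (b : ℤ) (q : ℕ) (β Λ : ℝ) (hq : 1 ≤ q)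
    (hb : Int.gcd b q = 1) (hβ : 2 * |β| * ((2 * M ^ j : ℕ) : ℝ) * q ≤ 1) (hqT : q ≤ T * M ^ j)
    (hΛ1 : 1 + Real.log ((2 * M ^ j : ℕ) : ℝ) ≤ Λ) (hΛ2 : 1 + Real.log q ≤ Λ) :
    ‖Bs A T j ((b : ℝ) / q + β)‖ ^ 2 ≤
      ((T : ℝ) ^ 2 * (A.card : ℝ) ^ (2 * j) * (M : ℝ) ^ (2 * j)) *
      ((((j : ℝ) + 4) ^ j * j.factorial) * Λ) *
      (13 / (M : ℝ) ^ j + 40 / (q * (1 + |β| * (T * (M : ℝ) ^ (2 * j))))) := by
  have hA : ∀ p ∈ A, p.Prime ∧ M ≤ p := fun p hp => ⟨(hW p hp).1, (hW p hp).2.1⟩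
  have hM0 : 0 < M := by omega
  have hT0 : 0 < T := lt_of_lt_of_le (by positivity) hT1
  have hMj : 0 < M ^ j := by positivity
  have hPr : ∀ m ∈ Pr A j, M ^ j ≤ m ∧ m ≤ M ^ j + 2 * M ^ j := by
    intro m hm
    obtain ⟨h1, h2, -⟩ := t_N2 A M L j m hW hjL hm
    exact ⟨h1, by omega⟩
  have hU : ∀ t ∈ Ico T (2 * T), ∀ m ∈ Pr A j, T * M ^ j ≤ t * m ∧
      t * m < T * M ^ j + 5 * T * M ^ j := by
    intro t ht m hm
    rw [Finset.mem_Ico] at ht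
    obtain ⟨h1, h2⟩ := hPr m hm
    refine ⟨Nat.mul_le_mul ht.1 h1, ?_⟩
    have h3 : m ≤ 3 * M ^ j := by omega
    calc t * m ≤ t * (3 * M ^ j) := Nat.mul_le_mul_left _ h3
      _ < (2 * T) * (3 * M ^ j) := Nat.mul_lt_mul_of_pos_right ht.2 (by positivity)
      _ = T * M ^ j + 5 * T * M ^ j := by ring
  have hC : ∀ r ∈ range (5 * T * M ^ j), ∑ t ∈ Ico T (2 * T),
      SA A j (fun m => if t * m = T * M ^ j + r then (1 : ℝ) else 0) ≤ ((j : ℝ) + 4) ^ j := by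
    intro r hr
    rw [Finset.mem_range] at hr
    apply mult_le A M j T _ hA hM hT
    · have : 0 < T * M ^ j := by positivity
      omega
    · have : 6 * T * M ^ j = T * M ^ j + 5 * T * M ^ j := by ring
      omega
  have hmain := Bs_le A T j (T * M ^ j) (5 * T * M ^ j) (M ^ j) (2 * M ^ j) (((j : ℝ) + 4) ^ j)
    ((b : ℝ) / q + β) (by positivity) (fun m => t_N3 A (fun p hp => (hA p hp).1) j m) hPr hU hC
  refine hmain.trans ?_
  have hH := HSum b q β (5 * T * M ^ j) (2 * M ^ j) hq hb hβ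
  have hq0 : (1 : ℝ) ≤ q := by exact_mod_cast hq
  have hT0' : (0 : ℝ) < T := by exact_mod_cast hT0
  have hM0' : (0 : ℝ) < M := by exact_mod_cast hM0
  have hMj' : (1 : ℝ) ≤ (M : ℝ) ^ j := by exact_mod_cast hMj
  have hM2j : (M : ℝ) ^ (2 * j) = (M : ℝ) ^ j * (M : ℝ) ^ j := by rw [two_mul, pow_add]
  have hΛ : 1 ≤ Λ := (sq_one_add_log hq0).trans hΛ2
  have hT2 : (2 : ℝ) ≤ T := by
    have h1 : M ^ 1 ≤ M ^ 3 := Nat.pow_le_pow_right hM0 (by norm_num)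
    rw [pow_one] at h1
    have : 2 ≤ T := by omega
    exact_mod_cast this
  -- first term
  obtain ⟨V, hV⟩ : ∃ V : ℝ, V = (M : ℝ) ^ j := ⟨_, rfl⟩
  have hlogH0 : 1 ≤ 1 + Real.log ((2 * M ^ j : ℕ) : ℝ) := by
    apply sq_one_add_log
    exact_mod_cast (by omega : 1 ≤ 2 * M ^ j)
  have t1 : 2 * (1 + Real.log ((2 * M ^ j : ℕ) : ℝ)) *
      (((5 * T * M ^ j : ℕ) : ℝ) * ((2 * M ^ j : ℕ) : ℝ)) /
      (q * (1 + |β| * (((5 * T * M ^ j : ℕ) : ℝ) * ((2 * M ^ j : ℕ) : ℝ)))) ≤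
      20 * Λ * (T * (M : ℝ) ^ (2 * j)) / (q * (1 + |β| * (T * (M : ℝ) ^ (2 * j)))) := by
    have e1 : ((5 * T * M ^ j : ℕ) : ℝ) * ((2 * M ^ j : ℕ) : ℝ) = 10 * (T * (M : ℝ) ^ (2 * j)) := by
      push_cast; rw [hM2j]; ring
    rw [e1]
    have e2 : 2 * (1 + Real.log ((2 * M ^ j : ℕ) : ℝ)) * (10 * (T * (M : ℝ) ^ (2 * j))) ≤
        20 * Λ * (T * (M : ℝ) ^ (2 * j)) := by
      have : (1 + Real.log ((2 * M ^ j : ℕ) : ℝ)) * (20 * (T * (M : ℝ) ^ (2 * j))) ≤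
          Λ * (20 * (T * (M : ℝ) ^ (2 * j))) := mul_le_mul_of_nonneg_right hΛ1 (by positivity)
      linarith
    apply div_le_div₀ (by positivity) e2 (by positivity)
    apply mul_le_mul_of_nonneg_left _ (by linarith)
    have : |β| * (T * (M : ℝ) ^ (2 * j)) ≤ |β| * (10 * (T * (M : ℝ) ^ (2 * j))) := by
      apply mul_le_mul_of_nonneg_left _ (abs_nonneg _)
      have : 0 ≤ T * (M : ℝ) ^ (2 * j) := by positivity
      linarith
    linarith
  have t2 : 2 * (((2 * M ^ j : ℕ) : ℝ) + q) * (1 + Real.log q) ≤ 4 * (T * (M : ℝ) ^ j) * Λ := by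
    have hqT' : (q : ℝ) ≤ T * (M : ℝ) ^ j := by exact_mod_cast hqT
    have h1 : ((2 * M ^ j : ℕ) : ℝ) ≤ T * (M : ℝ) ^ j := by
      push_cast
      exact mul_le_mul_of_nonneg_right hT2 (by positivity)
    have h2 : 2 * (((2 * M ^ j : ℕ) : ℝ) + q) ≤ 4 * (T * (M : ℝ) ^ j) := by linarith
    exact mul_le_mul h2 hΛ2 (by linarith [sq_one_add_log hq0]) (by positivity)
  have hX : (0 : ℝ) < q * (1 + |β| * (T * (M : ℝ) ^ (2 * j))) := by positivity
  have hin : ((5 * T * M ^ j : ℕ) : ℝ) + 2 * ∑ h ∈ Icc 1 (2 * M ^ j),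
      G (5 * T * M ^ j) (((b : ℝ) / q + β) * h) ≤
      Λ * (T * (M : ℝ) ^ (2 * j)) *
        (13 / (M : ℝ) ^ j + 40 / (q * (1 + |β| * (T * (M : ℝ) ^ (2 * j))))) := by
    have h1 := hH.trans (add_le_add t1 t2)
    have e1 : Λ * (T * (M : ℝ) ^ (2 * j)) *
        (13 / (M : ℝ) ^ j + 40 / (q * (1 + |β| * (T * (M : ℝ) ^ (2 * j))))) =
        13 * Λ * (T * (M : ℝ) ^ j) +
          2 * (20 * Λ * (T * (M : ℝ) ^ (2 * j)) / (q * (1 + |β| * (T * (M : ℝ) ^ (2 * j))))) := by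
      rw [mul_add]
      congr 1
      · rw [hM2j]
        field_simp
      · ring
    rw [e1]
    have h2 : ((5 * T * M ^ j : ℕ) : ℝ) ≤ 5 * Λ * (T * (M : ℝ) ^ j) := by
      push_cast
      have : (0 : ℝ) ≤ 5 * (T * (M : ℝ) ^ j) := by positivity
      nlinarith
    linarith
  have hfac : (0 : ℝ) ≤ j.factorial := Nat.cast_nonneg _
  calc (T * (A.card : ℝ) ^ j) * (((j : ℝ) + 4) ^ j * ((A.card : ℝ) ^ j * ((j.factorial : ℝ) *
        (((5 * T * M ^ j : ℕ) : ℝ) + 2 * ∑ h ∈ Icc 1 (2 * M ^ j),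
          G (5 * T * M ^ j) (((b : ℝ) / q + β) * h)))))
      ≤ (T * (A.card : ℝ) ^ j) * (((j : ℝ) + 4) ^ j * ((A.card : ℝ) ^ j * ((j.factorial : ℝ) *
        (Λ * (T * (M : ℝ) ^ (2 * j)) *
        (13 / (M : ℝ) ^ j + 40 / (q * (1 + |β| * (T * (M : ℝ) ^ (2 * j))))))))) := by
        gcongr
    _ = _ := by
        rw [show (A.card : ℝ) ^ (2 * j) = (A.card : ℝ) ^ j * (A.card : ℝ) ^ j by
          rw [two_mul, pow_add]]
        ring

end Pool.Agent.W851.Had
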