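import Pool.Agent.W851.Had.Point

/-! Pointwise bounds, continued: average over the remaining primes. -/

namespace Pool.Agent.W851.Had

open Finset Pool.Agent.H108R3.Had

theorem bil_point (A : Finset ℕ) (M L κ j j' T : ℕ) (hW : Win A M L) (hκL : κ ≤ L) (hM : 6 < M)
    (hL : 1 ≤ L) (hA0 : 0 < A.card) (hj : 2 * j ≤ κ)
    (hT1 : M ^ 3 ≤ T) (hT : T ≤ M ^ 4) (b : ℤ) (q : ℕ) (β Λ D : ℝ) (hq : 1 ≤ q)
    (hb : Int.gcd b q = 1) (hD : D = q * (1 + |β| * (T * (M : ℝ) ^ κ)))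
    (hDj : 12 * D ≤ T * (M : ℝ) ^ j) (hqj : q < M ^ (j' + 1))
    (hΛ : 1 + Real.log (T * (M : ℝ) ^ j) ≤ Λ) :
    ‖Sx A κ T ((b : ℝ) / q + β)‖ ^ 2 ≤
      (T * (A.card : ℝ) ^ κ) ^ 2 * ((M : ℝ) / A.card) ^ (2 * j) *
      ((((j : ℝ) + 4) ^ j * j.factorial) * Λ) *
      (13 / (M : ℝ) ^ j + 40 * (1 + κ * (2 * M / A.card)) ^ j' / D) := by
  have hA : ∀ p ∈ A, p.Prime ∧ M ≤ p := fun p hp => ⟨(hW p hp).1, (hW p hp).2.1⟩
  have hA2 : ∀ p ∈ A, p ≤ 2 * M := by
    intro p hp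
    have h1 := (hW p hp).2.2
    have h2 : p * L ≤ (2 * M) * L := by
      refine h1.trans ?_
      rw [show 2 * M * L = M * (2 * L) by ring]
      exact Nat.mul_le_mul_left _ (by omega)
    exact Nat.le_of_mul_le_mul_right h2 (by omega)
  have hM0 : 0 < M := by omega
  have hT0 : 0 < T := lt_of_lt_of_le (by positivity) hT1
  have hMj : 0 < M ^ j := by positivity
  have hq0 : (1 : ℝ) ≤ q := by exact_mod_cast hq
  have hT0' : (0 : ℝ) < T := by exact_mod_cast hT0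
  have hM0' : (0 : ℝ) < M := by exact_mod_cast hM0
  have hM1' : (1 : ℝ) ≤ M := by exact_mod_cast hM0
  have ha0 : (0 : ℝ) < A.card := by exact_mod_cast hA0
  have hDq : (q : ℝ) ≤ D := by
    rw [hD]
    exact le_mul_of_one_le_right (by linarith) (by
      have : 0 ≤ |β| * (T * (M : ℝ) ^ κ) := by positivity
      linarith)
  have hD0 : 1 ≤ D := hq0.trans hDq
  have hTM1 : (1 : ℝ) ≤ T * (M : ℝ) ^ j := by linarith
  have hΛ1 : 1 ≤ Λ := (sq_one_add_log hTM1).trans hΛ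
  have hT2 : (2 : ℝ) ≤ T := by
    have h1 : M ^ 1 ≤ M ^ 3 := Nat.pow_le_pow_right hM0 (by norm_num)
    rw [pow_one] at h1
    have : 2 ≤ T := by omega
    exact_mod_cast this
  obtain ⟨n, hκn⟩ : ∃ n, κ = n + 2 * j := ⟨κ - 2 * j, by omega⟩
  have hnL : n ≤ L := by omega
  have hXn : T * (M : ℝ) ^ κ = (M : ℝ) ^ n * (T * (M : ℝ) ^ (2 * j)) := by
    rw [hκn, pow_add]; ring
  obtain ⟨C, hC⟩ : ∃ C : ℝ, C = ((((j : ℝ) + 4) ^ j * j.factorial) * Λ) := ⟨_, rfl⟩
  have hC0 : 0 ≤ C := by rw [hC]; positivity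
  obtain ⟨W, hWd⟩ : ∃ W : ℝ, W = (T : ℝ) ^ 2 * (A.card : ℝ) ^ (2 * j) * (M : ℝ) ^ (2 * j) := ⟨_, rfl⟩
  have hW0 : 0 ≤ W := by rw [hWd]; positivity
  -- bound for each R
  have hR : ∀ R ∈ Pr A n, ‖Bs A T j (((b : ℝ) / q + β) * R)‖ ^ 2 ≤
      W * C * (13 / (M : ℝ) ^ j) + (W * C * (40 / D)) * ((Nat.gcd q R : ℕ) : ℝ) := by
    intro R hR
    obtain ⟨hR1, hR2, -⟩ := t_N2 A M L n R hW hnL hR
    have hR0 : 0 < R := lt_of_lt_of_le (by positivity) hR1
    obtain ⟨d, hd⟩ : ∃ d, d = Nat.gcd q R := ⟨_, rfl⟩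
    have hd0 : 0 < d := by rw [hd]; exact Nat.gcd_pos_of_pos_left _ hq
    obtain ⟨q', hq'⟩ : d ∣ q := by rw [hd]; exact Nat.gcd_dvd_left _ _
    obtain ⟨R', hR'⟩ : d ∣ R := by rw [hd]; exact Nat.gcd_dvd_right _ _
    have hq'1 : 1 ≤ q' := by
      rcases Nat.eq_zero_or_pos q' with h0 | h0
      · rw [h0] at hq'; omega
      · exact h0
    have hcop : Nat.gcd q' R' = 1 := by
      have h1 : d * Nat.gcd q' R' = d * 1 := by
        rw [← Nat.gcd_mul_left, ← hq', ← hR', mul_one, hd]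
      exact Nat.eq_of_mul_eq_mul_left hd0 h1
    have hb' : Int.gcd (b * R') q' = 1 := by
      rw [← Int.isCoprime_iff_gcd_eq_one]
      apply IsCoprime.mul_left
      · have h1 : IsCoprime b (q : ℤ) := Int.isCoprime_iff_gcd_eq_one.2 hb
        rw [hq'] at h1
        push_cast at h1
        exact IsCoprime.of_mul_right_right h1
      · rw [Nat.isCoprime_iff_coprime]
        exact (Nat.gcd_comm R' q').trans hcop
    have hd0' : (0 : ℝ) < d := by exact_mod_cast hd0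
    have hq'0 : (1 : ℝ) ≤ q' := by exact_mod_cast hq'1
    have hqd : (q : ℝ) = d * q' := by rw [hq']; push_cast; ring
    have hRd : (R : ℝ) = d * R' := by rw [hR']; push_cast; ring
    have hγ : ((b : ℝ) / q + β) * R = (((b * R' : ℤ) : ℝ)) / (q' : ℝ) + β * R := by
      rw [add_mul, hqd, hRd]
      push_cast
      congr 1
      field_simp
    have hRle : (R : ℝ) ≤ 3 * (M : ℝ) ^ n := by exact_mod_cast hR2
    have hRge : (M : ℝ) ^ n ≤ R := by exact_mod_cast hR1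
    have hβR : |β * R| = |β| * R := by rw [abs_mul, Nat.abs_cast]
    have hq'q : (q' : ℝ) ≤ q := by
      rw [hqd]
      have : (1 : ℝ) ≤ d := by exact_mod_cast hd0
      nlinarith
    have hcond : 2 * |β * R| * ((2 * M ^ j : ℕ) : ℝ) * q' ≤ 1 := by
      rw [hβR]
      have h1 : 12 * (q * (|β| * (T * (M : ℝ) ^ κ))) ≤ T * (M : ℝ) ^ j := by
        rw [hD] at hDj
        have : 0 ≤ (q : ℝ) := by positivity
        nlinarith
      have h2 : T * (M : ℝ) ^ κ = (T * (M : ℝ) ^ j) * ((M : ℝ) ^ n * (M : ℝ) ^ j) := by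
        rw [hκn, two_mul, pow_add, pow_add]; ring
      rw [h2] at h1
      have h3 : (T * (M : ℝ) ^ j) * (12 * (q * (|β| * ((M : ℝ) ^ n * (M : ℝ) ^ j)))) ≤
          (T * (M : ℝ) ^ j) * 1 := by linarith
      have h4 := le_of_mul_le_mul_left h3 (by positivity)
      calc 2 * (|β| * R) * ((2 * M ^ j : ℕ) : ℝ) * q' ≤
          2 * (|β| * (3 * (M : ℝ) ^ n)) * ((2 * M ^ j : ℕ) : ℝ) * q := by gcongr
        _ = 12 * (q * (|β| * ((M : ℝ) ^ n * (M : ℝ) ^ j))) := by push_cast; ring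
        _ ≤ 1 := h4
    have hq'T : q' ≤ T * M ^ j := by
      have h1 : (q' : ℝ) ≤ T * (M : ℝ) ^ j := by linarith
      exact_mod_cast h1
    have hlog1 : 1 + Real.log ((2 * M ^ j : ℕ) : ℝ) ≤ Λ := by
      refine le_trans ?_ hΛ
      have h1 : ((2 * M ^ j : ℕ) : ℝ) ≤ T * (M : ℝ) ^ j := by
        push_cast
        exact mul_le_mul_of_nonneg_right hT2 (by positivity)
      have h2 : (0 : ℝ) < ((2 * M ^ j : ℕ) : ℝ) := by exact_mod_cast (by omega : 0 < 2 * M ^ j)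
      have := Real.log_le_log h2 h1
      linarith
    have hlog2 : 1 + Real.log q' ≤ Λ := by
      refine le_trans ?_ hΛ
      have h1 : (q' : ℝ) ≤ T * (M : ℝ) ^ j := by linarith
      have := Real.log_le_log (by linarith) h1
      linarith
    have hB := Bs_bound A M L j T hW (by omega) hM hT1 hT (b * R') q' (β * R) Λ hq'1 hb' hcond
      hq'T hlog1 hlog2
    rw [hγ]
    refine hB.trans ?_
    rw [← hWd, ← hC, mul_add]
    have h5 : 40 / ((q' : ℝ) * (1 + |β * R| * (T * (M : ℝ) ^ (2 * j)))) ≤ 40 / D * d := by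
      have h6 : D / d ≤ (q' : ℝ) * (1 + |β * R| * (T * (M : ℝ) ^ (2 * j))) := by
        have h7 : D / d = q' * (1 + |β| * (T * (M : ℝ) ^ κ)) := by
          rw [hD, hqd]; field_simp
        rw [h7]
        apply mul_le_mul_of_nonneg_left _ (by linarith)
        rw [hβR, hXn]
        have : |β| * ((M : ℝ) ^ n * (T * (M : ℝ) ^ (2 * j))) ≤
            |β| * R * (T * (M : ℝ) ^ (2 * j)) := by
          rw [mul_assoc]
          apply mul_le_mul_of_nonneg_left _ (abs_nonneg _)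
          exact mul_le_mul_of_nonneg_right hRge (by positivity)
        linarith
      have h8 : 0 < D / d := by positivity
      calc 40 / ((q' : ℝ) * (1 + |β * R| * (T * (M : ℝ) ^ (2 * j)))) ≤ 40 / (D / d) :=
            div_le_div_of_nonneg_left (by norm_num) h8 h6
        _ = 40 / D * d := by field_simp
    have h9 : W * C * (40 / ((q' : ℝ) * (1 + |β * R| * (T * (M : ℝ) ^ (2 * j))))) ≤
        W * C * (40 / D * d) := mul_le_mul_of_nonneg_left h5 (mul_nonneg hW0 hC0)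
    rw [← hd]
    calc _ ≤ W * C * (13 / (M : ℝ) ^ j) + W * C * (40 / D * d) := by linarith
      _ = _ := by ring
  -- sum over R
  rw [Sx_split A κ T j hj, show κ - 2 * j = n by omega]
  have h1 := norm_SA A n (fun R => Bs A T j (((b : ℝ) / q + β) * R))
  have h2 := pow_le_pow_left₀ (norm_nonneg _) h1 2
  refine h2.trans ((SA_cs A n _).trans ?_)
  have h3 := SA_mono A n hR
  rw [SA_add', SA_constR, SA_mul] at h3
  have h4 := SA_gcd A hA hA2 (by omega) hA0 n j' q hq hqj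
  have h5 : (A.card : ℝ) ^ n * (1 + n * (2 * M / A.card)) ^ j' ≤
      (A.card : ℝ) ^ n * (1 + κ * (2 * M / A.card)) ^ j' := by
    apply mul_le_mul_of_nonneg_left _ (by positivity)
    apply pow_le_pow_left₀ (by positivity)
    have h6 : (n : ℝ) ≤ κ := by exact_mod_cast (by omega : n ≤ κ)
    have h7 : (0 : ℝ) ≤ 2 * M / A.card := by positivity
    nlinarith
  have h6 : SA A n (fun R => ‖Bs A T j (((b : ℝ) / q + β) * R)‖ ^ 2) ≤
      (A.card : ℝ) ^ n * (W * C * (13 / (M : ℝ) ^ j)) +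
      (W * C * (40 / D)) * ((A.card : ℝ) ^ n * (1 + κ * (2 * M / A.card)) ^ j') := by
    refine h3.trans ?_
    have : 0 ≤ W * C * (40 / D) := by positivity
    have := mul_le_mul_of_nonneg_left (h4.trans h5) this
    linarith
  refine (mul_le_mul_of_nonneg_left h6 (by positivity)).trans (le_of_eq ?_)
  rw [hC, hWd, hκn]
  rw [div_pow]
  have e1 : (A.card : ℝ) ^ (n + 2 * j) = (A.card : ℝ) ^ n * (A.card : ℝ) ^ (2 * j) := pow_add _ _ _
  rw [e1]
  field_simp

end Pool.Agent.W851.Had
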