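import Pool.Agent.W851.Had.Point2

/-! The pointwise bound. -/

namespace Pool.Agent.W851.Had

open Finset Pool.Agent.H108R3.Had

theorem nn_div_ge (x : ℤ) (q : ℕ) (hq : 1 ≤ q) (h : ¬ (q : ℤ) ∣ x) : 1 / (q : ℝ) ≤ nn ((x : ℝ) / q) := by
  have hq0 : (0 : ℝ) < q := by exact_mod_cast hq
  unfold nn
  obtain ⟨r, hr⟩ : ∃ r : ℤ, r = round ((x : ℝ) / q) := ⟨_, rfl⟩
  rw [← hr]
  have h1 : x - q * r ≠ 0 := by
    intro h0
    apply h
    exact ⟨r, by linarith⟩
  have h2 : (1 : ℝ) ≤ |((x - q * r : ℤ) : ℝ)| := by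
    have : (1 : ℤ) ≤ |x - q * r| := Int.one_le_abs h1
    exact_mod_cast this
  have h3 : (x : ℝ) / q - r = ((x - q * r : ℤ) : ℝ) / q := by
    push_cast
    field_simp
  rw [h3, abs_div, abs_of_pos hq0]
  exact div_le_div_of_nonneg_right h2 hq0.le

theorem coprime_Pr (A : Finset ℕ) (M q : ℕ) (hA : ∀ p ∈ A, p.Prime ∧ M ≤ p) (hq : 1 ≤ q)
    (hqM : q < M) (κ : ℕ) : ∀ m ∈ Pr A κ, Nat.Coprime q m := by
  induction κ with
  | zero =>
    intro m hm
    have : m = 1 := by simpa [Pr] using hm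
    rw [this]
    exact Nat.coprime_one_right q
  | succ κ ih =>
    intro m hm
    simp only [Pr, Finset.mem_biUnion, Finset.mem_image] at hm
    obtain ⟨p, hp, m', hm', rfl⟩ := hm
    apply Nat.Coprime.mul_right _ (ih m' hm')
    apply Nat.Coprime.symm
    rw [Nat.Prime.coprime_iff_not_dvd (hA p hp).1]
    intro h
    have h1 := Nat.le_of_dvd (by omega) h
    have h2 := (hA p hp).2
    omega

theorem sum_Ico_G (T : ℕ) (α : ℝ) (m : ℕ) :
    ‖∑ t ∈ Ico T (2 * T), e (α * ((t : ℝ) * (m : ℝ)))‖ = G T (α * m) := by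
  unfold G
  rw [Finset.sum_Ico_eq_sum_range]
  have h1 : 2 * T - T = T := by omega
  rw [h1]
  have h2 : ∑ k ∈ range T, e (α * (((T + k : ℕ) : ℝ) * (m : ℝ))) =
      e (α * (T * m)) * ∑ r ∈ range T, e (α * m * r) := by
    rw [Finset.mul_sum]
    refine Finset.sum_congr rfl fun k _ => ?_
    rw [← e_add]
    congr 1
    push_cast
    ring
  rw [h2, norm_mul, norm_e, one_mul]

/-- small `D` -/
theorem small_point (A : Finset ℕ) (M L κ T : ℕ) (hW : Win A M L) (hκL : κ ≤ L) (hM : 6 < M)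
    (hT1 : M ^ 3 ≤ T) (b : ℤ) (q : ℕ) (β D : ℝ) (hq : 1 ≤ q)
    (hb : Int.gcd b q = 1) (hD : D = q * (1 + |β| * (T * (M : ℝ) ^ κ))) (hDM : D ^ 2 < M) :
    ‖Sx A κ T ((b : ℝ) / q + β)‖ ≤ (T * (A.card : ℝ) ^ κ) * (2 / D) := by
  have hA : ∀ p ∈ A, p.Prime ∧ M ≤ p := fun p hp => ⟨(hW p hp).1, (hW p hp).2.1⟩
  have hM0 : 0 < M := by omega
  have hT0 : 0 < T := lt_of_lt_of_le (by positivity) hT1
  have hq0 : (1 : ℝ) ≤ q := by exact_mod_cast hq
  have hT0' : (0 : ℝ) < T := by exact_mod_cast hT0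
  have hM0' : (0 : ℝ) < M := by exact_mod_cast hM0
  have hM7 : (7 : ℝ) ≤ M := by exact_mod_cast hM
  have hMT : (36 : ℝ) * M ≤ T := by
    have h1 : (M : ℝ) ^ 3 ≤ T := by exact_mod_cast hT1
    have h2 : (36 : ℝ) * M ≤ (M : ℝ) ^ 3 := by nlinarith [sq_nonneg ((M : ℝ) - 7)]
    linarith
  have hDq : (q : ℝ) ≤ D := by
    rw [hD]
    exact le_mul_of_one_le_right (by linarith) (by
      have : 0 ≤ |β| * (T * (M : ℝ) ^ κ) := by positivity
      linarith)
  have hD1 : 1 ≤ D := hq0.trans hDq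
  have hDM' : D < M := by nlinarith
  have hqM : q < M := by exact_mod_cast (lt_of_le_of_lt hDq hDM')
  have hDT : 6 * D ≤ T := by nlinarith
  -- `6 |β| T M^κ ≤ 6 D / q`
  have hβD : q * (|β| * (T * (M : ℝ) ^ κ)) ≤ D := by
    rw [hD]; nlinarith
  have key : ∀ m ∈ Pr A κ, G T (((b : ℝ) / q + β) * m) ≤ T * (2 / D) := by
    intro m hm
    obtain ⟨hm1, hm2, -⟩ := t_N2 A M L κ m hW hκL hm
    have hm1' : (M : ℝ) ^ κ ≤ m := by exact_mod_cast hm1
    have hm2' : (m : ℝ) ≤ 3 * (M : ℝ) ^ κ := by exact_mod_cast hm2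
    have hcop := coprime_Pr A M q hA hq hqM κ m hm
    have hβm : |β * m| * (2 * q) ≤ 1 := by
      rw [abs_mul, Nat.abs_cast]
      have h1 : |β| * m ≤ |β| * (3 * (M : ℝ) ^ κ) := mul_le_mul_of_nonneg_left hm2' (abs_nonneg _)
      have h2 : T * (|β| * (3 * (M : ℝ) ^ κ) * (2 * q)) ≤ T * 1 := by
        calc T * (|β| * (3 * (M : ℝ) ^ κ) * (2 * q)) = 6 * (q * (|β| * (T * (M : ℝ) ^ κ))) := by ring
          _ ≤ 6 * D := by linarith
          _ ≤ T * 1 := by linarith
      have h3 := le_of_mul_le_mul_left h2 hT0'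
      refine le_trans ?_ h3
      exact mul_le_mul_of_nonneg_right h1 (by positivity)
    rcases Nat.lt_or_ge q 2 with h2 | h2
    · -- `q = 1`
      have hq1 : q = 1 := by omega
      subst hq1
      have e1 : ((b : ℝ) / ((1 : ℕ) : ℝ) + β) * m = β * m + ((b * m : ℤ) : ℝ) := by
        push_cast; ring
      rw [e1, G_add_int]
      simp only [Nat.cast_one, mul_one, one_mul] at hD hβm hβD
      set y : ℝ := |β| * (T * (M : ℝ) ^ κ) with hy
      have hy0 : 0 ≤ y := by positivity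
      rcases le_total y 1 with h | h
      · refine (G_le T _).trans ?_
        have : 1 ≤ 2 / D := by rw [le_div_iff₀ (by linarith)]; linarith
        nlinarith
      · have hnn : nn (β * m) = |β| * m := by
          rw [nn_eq_abs (by linarith), abs_mul, Nat.abs_cast]
        have hy1 : y ≤ T * (|β| * m) := by
          rw [hy]
          calc |β| * (T * (M : ℝ) ^ κ) = T * (|β| * (M : ℝ) ^ κ) := by ring
            _ ≤ T * (|β| * m) := by gcongr
        have hpos : 0 < |β| * m := by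
          by_contra hcon
          have : T * (|β| * m) ≤ 0 := mul_nonpos_of_nonneg_of_nonpos hT0'.le (not_lt.1 hcon)
          linarith
        have h4 := G_mul_nn T (β * m)
        rw [hnn] at h4
        have h5 : G T (β * m) * (2 * y) ≤ T := by
          have h6 : G T (β * m) * (2 * y) ≤ G T (β * m) * (2 * (T * (|β| * m))) :=
            mul_le_mul_of_nonneg_left (by linarith) (G_nonneg _ _)
          have h7 : G T (β * m) * (2 * (T * (|β| * m))) = T * (G T (β * m) * (2 * (|β| * m))) := by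
            ring
          nlinarith
        have h8 : T * (2 / D) = 2 * T / D := by ring
        rw [h8, le_div_iff₀ (by linarith), hD]
        have h9 := G_nonneg T (β * m)
        nlinarith
    · -- `q ≥ 2`
      have hnd : ¬ (q : ℤ) ∣ (b * m) := by
        intro h
        have h1 : IsCoprime (q : ℤ) b := (Int.isCoprime_iff_gcd_eq_one.2 hb).symm
        have h3 : (q : ℤ) ∣ (m : ℤ) := h1.dvd_of_dvd_mul_left h
        have h4 : q ∣ m := by exact_mod_cast h3
        have h5 : q ∣ Nat.gcd q m := Nat.dvd_gcd (dvd_refl q) h4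
        rw [hcop] at h5
        have := Nat.le_of_dvd (by norm_num) h5
        omega
      have h3 := nn_div_ge (b * m) q hq hnd
      have h4 := nn_le_add (((b * m : ℤ) : ℝ) / q) (β * m)
      have e1 : ((b * m : ℤ) : ℝ) / q + β * m = ((b : ℝ) / q + β) * m := by
        push_cast; ring
      rw [e1] at h4
      have h5 : |β * m| ≤ 1 / (2 * q) := by
        rw [le_div_iff₀ (by positivity)]; exact hβm
      have h6 : 1 / (2 * (q : ℝ)) = 1 / q / 2 := by field_simp
      rw [h6] at h5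
      have h7 : 1 / (q : ℝ) / 2 ≤ nn (((b : ℝ) / q + β) * m) := by linarith
      have h8 : 0 < 1 / (q : ℝ) / 2 := by positivity
      have h9 := G_le_inv T (((b : ℝ) / q + β) * m) (by linarith)
      have h10 : 1 / (2 * nn (((b : ℝ) / q + β) * m)) ≤ q := by
        rw [div_le_iff₀ (by linarith)]
        have : (q : ℝ) * (2 * (1 / q / 2)) = 1 := by field_simp
        nlinarith
      refine (h9.trans h10).trans (hDq.trans ?_)
      have h11 : T * (2 / D) = 2 * T / D := by ring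
      rw [h11, le_div_iff₀ (by linarith)]
      nlinarith
  have h1 : Sx A κ T ((b : ℝ) / q + β) = SA A κ (fun m => ∑ t ∈ Ico T (2 * T),
      e (((b : ℝ) / q + β) * ((t : ℝ) * (m : ℝ)))) := (SA_sum A _ κ _).symm
  rw [h1]
  refine (norm_SA A κ _).trans ?_
  have h2 : SA A κ (fun m => ‖∑ t ∈ Ico T (2 * T), e (((b : ℝ) / q + β) * ((t : ℝ) * (m : ℝ)))‖) ≤
      SA A κ (fun _ => T * (2 / D)) := by
    apply SA_mono
    intro m hm
    rw [sum_Ico_G]
    exact key m hm
  rw [SA_constR] at h2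
  refine h2.trans (le_of_eq ?_)
  ring

end Pool.Agent.W851.Had
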