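import Pool.Agent.W851.Had.Point3

/-! The pointwise bound: final form. -/

namespace Pool.Agent.W851.Had

open Finset Pool.Agent.H108R3.Had

theorem bil_simple (A : Finset ℕ) (M L κ j j' T : ℕ) (hW : Win A M L) (hMA : M ≤ L ^ 2 * A.card)
    (hL : 1000 ≤ L) (hM1 : L ^ 40 ≤ M) (hX : T * M ^ κ ≤ 2 ^ L) (hj : 2 * j ≤ κ)
    (hT1 : M ^ 3 ≤ T) (hT : T ≤ M ^ 4) (b : ℤ) (q : ℕ) (β D : ℝ) (hq : 1 ≤ q)
    (hb : Int.gcd b q = 1) (hD : D = q * (1 + |β| * (T * (M : ℝ) ^ κ)))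
    (hDj : 12 * D ≤ T * (M : ℝ) ^ j) (hqj : q < M ^ (j' + 1)) :
    ‖Sx A κ T ((b : ℝ) / q + β)‖ ^ 2 ≤
      (T * (A.card : ℝ) ^ κ) ^ 2 * ((L : ℝ) ^ (6 * j + 1) *
      (13 / (M : ℝ) ^ j + 40 * (L : ℝ) ^ (4 * j') / D)) := by
  have hL0 : 0 < L := by omega
  have hM0 : 0 < M := lt_of_lt_of_le (by positivity) hM1
  have hML : 1000 ≤ M := by
    calc 1000 ≤ L := hL
      _ ≤ L ^ 40 := Nat.le_self_pow (by norm_num) L
      _ ≤ M := hM1
  have hA0 : 0 < A.card := by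
    rcases Nat.eq_zero_or_pos A.card with h | h
    · rw [h] at hMA; omega
    · exact h
  have hT0 : 0 < T := lt_of_lt_of_le (by positivity) hT1
  have hκ : 40 * κ ≤ L := by
    have h1 : 2 ^ (40 * κ) ≤ 2 ^ L := by
      calc 2 ^ (40 * κ) = (2 ^ 40) ^ κ := by rw [pow_mul]
        _ ≤ (L ^ 40) ^ κ := Nat.pow_le_pow_left (Nat.pow_le_pow_left (by omega) 40) κ
        _ ≤ M ^ κ := Nat.pow_le_pow_left hM1 κ
        _ ≤ T * M ^ κ := Nat.le_mul_of_pos_left _ hT0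
        _ ≤ 2 ^ L := hX
    exact (Nat.pow_le_pow_iff_right (by norm_num)).1 h1
  have ha0 : (0 : ℝ) < A.card := by exact_mod_cast hA0
  have hLr : (1000 : ℝ) ≤ L := by exact_mod_cast hL
  have hL0' : (0 : ℝ) < L := by linarith
  have hM0' : (0 : ℝ) < M := by exact_mod_cast hM0
  have hT0' : (0 : ℝ) < T := by exact_mod_cast hT0
  have hMa : (M : ℝ) / A.card ≤ (L : ℝ) ^ 2 := by
    rw [div_le_iff₀ ha0]
    exact_mod_cast hMA
  have hlog : 1 + Real.log (T * (M : ℝ) ^ j) ≤ L := by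
    have h1 : (T : ℝ) * (M : ℝ) ^ j ≤ 2 ^ L := by
      have h2 : T * M ^ j ≤ T * M ^ κ :=
        Nat.mul_le_mul_left _ (Nat.pow_le_pow_right hM0 (by omega))
      exact_mod_cast h2.trans hX
    have h2 := Real.log_le_log (by positivity) h1
    rw [Real.log_pow] at h2
    have h3 := Real.log_two_lt_d9
    have h4 : (L : ℝ) * Real.log 2 ≤ L * 0.6931471808 :=
      mul_le_mul_of_nonneg_left h3.le hL0'.le
    linarith
  have hmain := bil_point A M L κ j j' T hW (by omega) (by omega) (by omega) hA0 hj hT1 hT b q β L D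
    hq hb hD hDj hqj hlog
  refine hmain.trans ?_
  have hDq : (1 : ℝ) ≤ D := by
    have hq0 : (1 : ℝ) ≤ q := by exact_mod_cast hq
    rw [hD]
    have : 0 ≤ |β| * (T * (M : ℝ) ^ κ) := by positivity
    nlinarith
  have hjL : (j : ℝ) + 4 ≤ L := by
    have : j + 4 ≤ L := by omega
    exact_mod_cast this
  have h1 : ((M : ℝ) / A.card) ^ (2 * j) ≤ (L : ℝ) ^ (4 * j) := by
    calc ((M : ℝ) / A.card) ^ (2 * j) ≤ ((L : ℝ) ^ 2) ^ (2 * j) :=
          pow_le_pow_left₀ (by positivity) hMa _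
      _ = (L : ℝ) ^ (4 * j) := by rw [← pow_mul]; congr 1; ring
  have h2 : ((j : ℝ) + 4) ^ j * j.factorial ≤ (L : ℝ) ^ (2 * j) := by
    have e1 : ((j : ℝ) + 4) ^ j ≤ (L : ℝ) ^ j := pow_le_pow_left₀ (by positivity) hjL _
    have e2 : ((j.factorial : ℕ) : ℝ) ≤ (L : ℝ) ^ j := by
      have : j.factorial ≤ L ^ j := (Nat.factorial_le_pow j).trans (Nat.pow_le_pow_left (by omega) j)
      exact_mod_cast this
    calc ((j : ℝ) + 4) ^ j * j.factorial ≤ (L : ℝ) ^ j * (L : ℝ) ^ j :=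
          mul_le_mul e1 e2 (by positivity) (by positivity)
      _ = _ := by rw [two_mul, pow_add]
  have h3 : (1 + κ * (2 * M / A.card) : ℝ) ^ j' ≤ (L : ℝ) ^ (4 * j') := by
    rw [pow_mul]
    apply pow_le_pow_left₀ (by positivity)
    have e1 : (κ : ℝ) ≤ L := by exact_mod_cast (by omega : κ ≤ L)
    have e2 : (κ : ℝ) * (2 * M / A.card) ≤ L * (2 * (L : ℝ) ^ 2) := by
      have : (2 * M / A.card : ℝ) = 2 * (M / A.card) := by ring
      rw [this]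
      gcongr
    have e3 : (1 : ℝ) ≤ (L : ℝ) ^ 3 := one_le_pow₀ (by linarith)
    have e4 : (3 : ℝ) * (L : ℝ) ^ 3 ≤ (L : ℝ) ^ 4 := by
      rw [pow_succ (L : ℝ) 3, mul_comm]
      exact mul_le_mul_of_nonneg_left (by linarith) (by positivity)
    calc (1 : ℝ) + κ * (2 * M / A.card) ≤ (L : ℝ) ^ 3 + L * (2 * (L : ℝ) ^ 2) := add_le_add e3 e2
      _ = 3 * (L : ℝ) ^ 3 := by ring
      _ ≤ _ := e4
  calc (T * (A.card : ℝ) ^ κ) ^ 2 * ((M : ℝ) / A.card) ^ (2 * j) *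
      ((((j : ℝ) + 4) ^ j * j.factorial) * L) *
      (13 / (M : ℝ) ^ j + 40 * (1 + κ * (2 * M / A.card)) ^ j' / D) ≤
      (T * (A.card : ℝ) ^ κ) ^ 2 * (L : ℝ) ^ (4 * j) * ((L : ℝ) ^ (2 * j) * L) *
      (13 / (M : ℝ) ^ j + 40 * (L : ℝ) ^ (4 * j') / D) := by
        gcongr
    _ = _ := by
        rw [show 6 * j + 1 = 4 * j + 2 * j + 1 by ring, pow_succ, pow_add]
        ring

theorem fin_help {x W B D : ℝ} (hx : 0 ≤ x) (hW : 0 ≤ W) (hD : 0 ≤ D) (h : x ^ 2 ≤ W ^ 2 * B)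
    (hB : B ^ 16 * D ^ 3 ≤ 2 ^ 32) : x ^ 32 * D ^ 3 ≤ 2 ^ 32 * W ^ 32 := by
  have h1 : x ^ 32 ≤ W ^ 32 * B ^ 16 := by
    calc x ^ 32 = (x ^ 2) ^ 16 := by ring
      _ ≤ (W ^ 2 * B) ^ 16 := pow_le_pow_left₀ (by positivity) h 16
      _ = _ := by ring
  calc x ^ 32 * D ^ 3 ≤ W ^ 32 * B ^ 16 * D ^ 3 := mul_le_mul_of_nonneg_right h1 (by positivity)
    _ = W ^ 32 * (B ^ 16 * D ^ 3) := by ring
    _ ≤ W ^ 32 * 2 ^ 32 := mul_le_mul_of_nonneg_left hB (by positivity)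
    _ = _ := by ring

theorem num_help {L M D : ℝ} (hL : 1000 ≤ L) (hM : L ^ 40 ≤ M) (hD0 : 0 ≤ D) (j u v : ℕ)
    (hD : D ≤ M ^ v) (hv : 3 * v ≤ 16 * j) (hu : 16 * u + 16 ≤ 40 * (16 * j - 3 * v)) :
    (53 * L ^ u / M ^ j) ^ 16 * D ^ 3 ≤ 2 ^ 32 := by
  have hL0 : 0 < L := by linarith
  have hL1 : 1 ≤ L := by linarith
  have hM0 : 0 < M := lt_of_lt_of_le (by positivity) hM
  have h1 : D ^ 3 ≤ M ^ (3 * v) := by
    rw [mul_comm, pow_mul]
    exact pow_le_pow_left₀ hD0 hD 3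
  have h2 : (53 : ℝ) ^ 16 ≤ L ^ 16 := pow_le_pow_left₀ (by norm_num) (by linarith) 16
  have h3 : L ^ (16 * u + 16) ≤ M ^ (16 * j - 3 * v) := by
    calc L ^ (16 * u + 16) ≤ L ^ (40 * (16 * j - 3 * v)) := pow_le_pow_right₀ hL1 hu
      _ = (L ^ 40) ^ (16 * j - 3 * v) := by rw [pow_mul]
      _ ≤ _ := pow_le_pow_left₀ (by positivity) hM _
  have h4 : (53 * L ^ u / M ^ j) ^ 16 = 53 ^ 16 * L ^ (16 * u) / M ^ (16 * j) := by
    rw [div_pow, mul_pow, ← pow_mul, ← pow_mul, mul_comm u, mul_comm j]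
  rw [h4]
  have h5 : (M : ℝ) ^ (16 * j) = M ^ (3 * v) * M ^ (16 * j - 3 * v) := by
    rw [← pow_add]; congr 1; omega
  have h6 : 53 ^ 16 * L ^ (16 * u) * D ^ 3 ≤ 1 * M ^ (16 * j) := by
    calc 53 ^ 16 * L ^ (16 * u) * D ^ 3 ≤ L ^ 16 * L ^ (16 * u) * M ^ (3 * v) := by gcongr
      _ = M ^ (3 * v) * L ^ (16 * u + 16) := by rw [pow_add]; ring
      _ ≤ M ^ (3 * v) * M ^ (16 * j - 3 * v) := by gcongr
      _ = 1 * M ^ (16 * j) := by rw [h5]; ring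
  have h7 : 53 ^ 16 * L ^ (16 * u) / M ^ (16 * j) * D ^ 3 ≤ 1 := by
    rw [div_mul_eq_mul_div, div_le_iff₀ (by positivity)]
    exact h6
  linarith

/-- the pointwise bound -/
theorem point (A : Finset ℕ) (M L κ T : ℕ) (hW : Win A M L) (hMA : M ≤ L ^ 2 * A.card)
    (hL : 1000 ≤ L) (hM1 : L ^ 40 ≤ M) (hX : T * M ^ κ ≤ 2 ^ L) (hκ : 4 ≤ κ)
    (hT1 : M ^ 3 ≤ T) (hT : T ≤ M ^ 4) (b : ℤ) (q : ℕ) (β D : ℝ) (hq : 1 ≤ q)
    (hb : Int.gcd b q = 1) (hD : D = q * (1 + |β| * (T * (M : ℝ) ^ κ)))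
    (hD2 : D ^ 2 ≤ 4 * (T * (M : ℝ) ^ κ)) :
    ‖Sx A κ T ((b : ℝ) / q + β)‖ ^ 32 * D ^ 3 ≤ 2 ^ 32 * (T * (A.card : ℝ) ^ κ) ^ 32 := by
  have hL0 : 0 < L := by omega
  have hM0 : 0 < M := lt_of_lt_of_le (by positivity) hM1
  have hML : 1000 ≤ M := by
    calc 1000 ≤ L := hL
      _ ≤ L ^ 40 := Nat.le_self_pow (by norm_num) L
      _ ≤ M := hM1
  have hT0 : 0 < T := lt_of_lt_of_le (by positivity) hT1
  have hκL : 40 * κ ≤ L := by
    have h1 : 2 ^ (40 * κ) ≤ 2 ^ L := by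
      calc 2 ^ (40 * κ) = (2 ^ 40) ^ κ := by rw [pow_mul]
        _ ≤ (L ^ 40) ^ κ := Nat.pow_le_pow_left (Nat.pow_le_pow_left (by omega) 40) κ
        _ ≤ M ^ κ := Nat.pow_le_pow_left hM1 κ
        _ ≤ T * M ^ κ := Nat.le_mul_of_pos_left _ hT0
        _ ≤ 2 ^ L := hX
    exact (Nat.pow_le_pow_iff_right (by norm_num)).1 h1
  have hLr : (1000 : ℝ) ≤ L := by exact_mod_cast hL
  have hM1r : (L : ℝ) ^ 40 ≤ M := by exact_mod_cast hM1
  have hMr : (1000 : ℝ) ≤ M := by exact_mod_cast hML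
  have hT1r : (M : ℝ) ^ 3 ≤ T := by exact_mod_cast hT1
  have hTr : (T : ℝ) ≤ (M : ℝ) ^ 4 := by exact_mod_cast hT
  have hL0' : (0 : ℝ) < L := by linarith
  have hL1' : (1 : ℝ) ≤ L := by linarith
  have hM0' : (0 : ℝ) < M := by linarith
  have hT0' : (0 : ℝ) < T := by exact_mod_cast hT0
  have hq0 : (1 : ℝ) ≤ q := by exact_mod_cast hq
  have hTM : 576 * (M : ℝ) ≤ T := by
    have : 576 * (M : ℝ) ≤ (M : ℝ) ^ 3 := by nlinarith [mul_pos hM0' hM0']
    linarith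
  have hDq : (q : ℝ) ≤ D := by
    rw [hD]
    exact le_mul_of_one_le_right (by linarith) (by
      have : 0 ≤ |β| * (T * (M : ℝ) ^ κ) := by positivity
      linarith)
  have hD1 : 1 ≤ D := hq0.trans hDq
  have hW0 : (0 : ℝ) ≤ T * (A.card : ℝ) ^ κ := by positivity
  set S := ‖Sx A κ T ((b : ℝ) / q + β)‖ with hS
  have hS0 : 0 ≤ S := norm_nonneg _
  rcases lt_or_ge (D ^ 2) M with h0 | h0
  · -- small
    have h1 := small_point A M L κ T hW (by omega) (by omega) hT1 b q β D hq hb hD h0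
    rw [← hS] at h1
    have h2 : S ^ 32 ≤ (T * (A.card : ℝ) ^ κ) ^ 32 * (2 / D) ^ 32 := by
      rw [← mul_pow]
      exact pow_le_pow_left₀ hS0 h1 32
    have h3 : (2 / D) ^ 32 * D ^ 3 ≤ 2 ^ 32 := by
      rw [div_pow, div_mul_eq_mul_div, div_le_iff₀ (by positivity)]
      apply mul_le_mul_of_nonneg_left _ (by norm_num)
      exact pow_le_pow_right₀ hD1 (by norm_num)
    calc S ^ 32 * D ^ 3 ≤ (T * (A.card : ℝ) ^ κ) ^ 32 * (2 / D) ^ 32 * D ^ 3 :=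
          mul_le_mul_of_nonneg_right h2 (by positivity)
      _ = (T * (A.card : ℝ) ^ κ) ^ 32 * ((2 / D) ^ 32 * D ^ 3) := by ring
      _ ≤ (T * (A.card : ℝ) ^ κ) ^ 32 * 2 ^ 32 := mul_le_mul_of_nonneg_left h3 (by positivity)
      _ = _ := by ring
  obtain ⟨i, hi1, hi2⟩ := exists_nat_pow_near hD1 (show (1 : ℝ) < M by linarith)
  rcases Nat.eq_zero_or_pos i with hi | hi
  · -- `D < M ≤ D ^ 2`
    subst hi
    rw [zero_add, pow_one] at hi2
    have hqM : q < M ^ (0 + 1) := by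
      rw [zero_add, pow_one]
      exact_mod_cast lt_of_le_of_lt hDq hi2
    have h1 := bil_simple A M L κ 1 0 T hW hMA hL hM1 hX (by omega) hT1 hT b q β D hq hb hD
      (by rw [pow_one]; nlinarith) hqM
    rw [← hS] at h1
    have h2 : (L : ℝ) ^ (6 * 1 + 1) * (13 / (M : ℝ) ^ 1 + 40 * (L : ℝ) ^ (4 * 0) / D) ≤
        53 * (L : ℝ) ^ 7 / D := by
      have e1 : 13 / (M : ℝ) ^ 1 ≤ 13 / D := by
        rw [pow_one]
        exact div_le_div_of_nonneg_left (by norm_num) (by linarith) hi2.le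
      have e2 : 13 / (M : ℝ) ^ 1 + 40 * (L : ℝ) ^ (4 * 0) / D ≤ 53 / D := by
        have : 40 * (L : ℝ) ^ (4 * 0) / D = 40 / D := by simp
        rw [this]
        calc 13 / (M : ℝ) ^ 1 + 40 / D ≤ 13 / D + 40 / D := by linarith
          _ = 53 / D := by ring
      calc (L : ℝ) ^ (6 * 1 + 1) * (13 / (M : ℝ) ^ 1 + 40 * (L : ℝ) ^ (4 * 0) / D) ≤
            (L : ℝ) ^ (6 * 1 + 1) * (53 / D) := mul_le_mul_of_nonneg_left e2 (by positivity)
        _ = _ := by ring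
    have h3 : S ^ 2 ≤ (T * (A.card : ℝ) ^ κ) ^ 2 * (53 * (L : ℝ) ^ 7 / D) :=
      h1.trans (mul_le_mul_of_nonneg_left h2 (by positivity))
    apply fin_help hS0 hW0 (by linarith) h3
    have hDL : (L : ℝ) ^ 20 ≤ D := by
      have e1 : ((L : ℝ) ^ 20) ^ 2 ≤ D ^ 2 := by
        rw [← pow_mul]
        exact hM1r.trans h0
      exact le_of_sq_le_sq e1 (by linarith)
    have e2 : (53 * (L : ℝ) ^ 7 / D) ^ 16 * D ^ 3 = 53 ^ 16 * (L : ℝ) ^ 112 * (D ^ 3 / D ^ 16) := by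
      rw [div_pow, mul_pow, ← pow_mul]
      ring
    have e3 : D ^ 3 / D ^ 16 = 1 / D ^ 13 := by
      have : D ^ 16 = D ^ 3 * D ^ 13 := by rw [← pow_add]
      rw [this]
      field_simp
    rw [e2, e3, mul_one_div, div_le_iff₀ (by positivity)]
    have e4 : (L : ℝ) ^ 260 ≤ D ^ 13 := by
      calc (L : ℝ) ^ 260 = ((L : ℝ) ^ 20) ^ 13 := by rw [← pow_mul]
        _ ≤ D ^ 13 := pow_le_pow_left₀ (by positivity) hDL 13
    have e5 : (53 : ℝ) ^ 16 ≤ (L : ℝ) ^ 148 := by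
      calc (53 : ℝ) ^ 16 ≤ (L : ℝ) ^ 16 := pow_le_pow_left₀ (by norm_num) (by linarith) 16
        _ ≤ _ := pow_le_pow_right₀ hL1' (by norm_num)
    calc 53 ^ 16 * (L : ℝ) ^ 112 ≤ (L : ℝ) ^ 148 * (L : ℝ) ^ 112 :=
          mul_le_mul_of_nonneg_right e5 (by positivity)
      _ = (L : ℝ) ^ 260 := by rw [← pow_add]
      _ ≤ D ^ 13 := e4
      _ ≤ 2 ^ 32 * D ^ 13 := by
          have : 0 ≤ D ^ 13 := by positivity
          linarith
  · rcases Nat.lt_or_ge κ (2 * i) with hik | hik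
    · -- `2 i > κ`
      obtain ⟨j, hj⟩ : ∃ j, j = κ / 2 := ⟨_, rfl⟩
      have hj1 : 2 * j ≤ κ := by omega
      have hj2 : κ ≤ 2 * j + 1 := by omega
      have hj3 : 2 ≤ j := by omega
      have hji : j + 1 ≤ i := by omega
      have hMj : (0 : ℝ) < (M : ℝ) ^ j := by positivity
      have hMκ : (M : ℝ) ^ κ ≤ (M : ℝ) ^ (2 * j + 1) := pow_le_pow_right₀ (by linarith) hj2
      have hDM : D ≤ (M : ℝ) ^ (j + 3) := by
        have e1 : D ^ 2 ≤ ((M : ℝ) ^ (j + 3)) ^ 2 := by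
          calc D ^ 2 ≤ 4 * (T * (M : ℝ) ^ κ) := hD2
            _ ≤ M * ((M : ℝ) ^ 4 * (M : ℝ) ^ (2 * j + 1)) := by
                gcongr
                linarith
            _ = ((M : ℝ) ^ (j + 3)) ^ 2 := by
                rw [← pow_mul, ← pow_add, ← pow_succ']
                congr 1
                ring
        exact le_of_sq_le_sq e1 (by positivity)
      have hDj : 12 * D ≤ T * (M : ℝ) ^ j := by
        have e1 : (12 * D) ^ 2 ≤ (T * (M : ℝ) ^ j) ^ 2 := by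
          calc (12 * D) ^ 2 = 144 * D ^ 2 := by ring
            _ ≤ 144 * (4 * (T * (M : ℝ) ^ (2 * j + 1))) := by
                have : T * (M : ℝ) ^ κ ≤ T * (M : ℝ) ^ (2 * j + 1) :=
                  mul_le_mul_of_nonneg_left hMκ hT0'.le
                linarith
            _ = (576 * M) * (T * (M : ℝ) ^ (2 * j)) := by rw [pow_succ]; ring
            _ ≤ T * (T * (M : ℝ) ^ (2 * j)) := mul_le_mul_of_nonneg_right hTM (by positivity)
            _ = (T * (M : ℝ) ^ j) ^ 2 := by rw [two_mul, pow_add]; ring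
        exact le_of_sq_le_sq e1 (by positivity)
      have hqM : q < M ^ ((j + 3) + 1) := by
        have e1 : (q : ℝ) ≤ (M : ℝ) ^ (j + 3) := hDq.trans hDM
        have e2 : q ≤ M ^ (j + 3) := by exact_mod_cast e1
        exact lt_of_le_of_lt e2 (Nat.pow_lt_pow_right (by omega) (by omega))
      have h1 := bil_simple A M L κ j (j + 3) T hW hMA hL hM1 hX hj1 hT1 hT b q β D hq hb hD
        hDj hqM
      rw [← hS] at h1
      have hMD : (M : ℝ) ^ j ≤ D :=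
        (pow_le_pow_right₀ (by linarith) (by omega : j ≤ i)).trans hi1
      have h2 : (L : ℝ) ^ (6 * j + 1) * (13 / (M : ℝ) ^ j + 40 * (L : ℝ) ^ (4 * (j + 3)) / D) ≤
          53 * (L : ℝ) ^ (10 * j + 13) / (M : ℝ) ^ j := by
        have e1 : 40 * (L : ℝ) ^ (4 * (j + 3)) / D ≤ 40 * (L : ℝ) ^ (4 * (j + 3)) / (M : ℝ) ^ j :=
          div_le_div_of_nonneg_left (by positivity) hMj hMD
        have e2 : 13 / (M : ℝ) ^ j ≤ 13 * (L : ℝ) ^ (4 * (j + 3)) / (M : ℝ) ^ j := by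
          apply div_le_div_of_nonneg_right _ hMj.le
          have : (1 : ℝ) ≤ (L : ℝ) ^ (4 * (j + 3)) := one_le_pow₀ hL1'
          linarith
        calc (L : ℝ) ^ (6 * j + 1) * (13 / (M : ℝ) ^ j + 40 * (L : ℝ) ^ (4 * (j + 3)) / D) ≤
            (L : ℝ) ^ (6 * j + 1) * (13 * (L : ℝ) ^ (4 * (j + 3)) / (M : ℝ) ^ j +
              40 * (L : ℝ) ^ (4 * (j + 3)) / (M : ℝ) ^ j) :=
              mul_le_mul_of_nonneg_left (add_le_add e2 e1) (by positivity)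
          _ = 53 * ((L : ℝ) ^ (6 * j + 1) * (L : ℝ) ^ (4 * (j + 3))) / (M : ℝ) ^ j := by ring
          _ = _ := by
              rw [← pow_add]
              congr 3
              ring
      apply fin_help hS0 hW0 (by linarith) (h1.trans (mul_le_mul_of_nonneg_left h2 (by positivity)))
      exact num_help hLr hM1r (by linarith) j (10 * j + 13) (j + 3) hDM (by omega) (by omega)
    · -- `2 i ≤ κ`
      have hMi : (0 : ℝ) < (M : ℝ) ^ i := by positivity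
      have hqM : q < M ^ (i + 1) := by
        exact_mod_cast lt_of_le_of_lt hDq hi2
      have hDi : 12 * D ≤ T * (M : ℝ) ^ i := by
        calc 12 * D ≤ 12 * (M : ℝ) ^ (i + 1) := by linarith
          _ = (12 * M) * (M : ℝ) ^ i := by rw [pow_succ]; ring
          _ ≤ T * (M : ℝ) ^ i := by
              apply mul_le_mul_of_nonneg_right _ (by positivity)
              linarith
      have h1 := bil_simple A M L κ i i T hW hMA hL hM1 hX hik hT1 hT b q β D hq hb hD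
        hDi hqM
      rw [← hS] at h1
      have h2 : (L : ℝ) ^ (6 * i + 1) * (13 / (M : ℝ) ^ i + 40 * (L : ℝ) ^ (4 * i) / D) ≤
          53 * (L : ℝ) ^ (10 * i + 1) / (M : ℝ) ^ i := by
        have e1 : 40 * (L : ℝ) ^ (4 * i) / D ≤ 40 * (L : ℝ) ^ (4 * i) / (M : ℝ) ^ i :=
          div_le_div_of_nonneg_left (by positivity) hMi hi1
        have e2 : 13 / (M : ℝ) ^ i ≤ 13 * (L : ℝ) ^ (4 * i) / (M : ℝ) ^ i := by
          apply div_le_div_of_nonneg_right _ hMi.le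
          have : (1 : ℝ) ≤ (L : ℝ) ^ (4 * i) := one_le_pow₀ hL1'
          linarith
        calc (L : ℝ) ^ (6 * i + 1) * (13 / (M : ℝ) ^ i + 40 * (L : ℝ) ^ (4 * i) / D) ≤
            (L : ℝ) ^ (6 * i + 1) * (13 * (L : ℝ) ^ (4 * i) / (M : ℝ) ^ i +
              40 * (L : ℝ) ^ (4 * i) / (M : ℝ) ^ i) :=
              mul_le_mul_of_nonneg_left (add_le_add e2 e1) (by positivity)
          _ = 53 * ((L : ℝ) ^ (6 * i + 1) * (L : ℝ) ^ (4 * i)) / (M : ℝ) ^ i := by ring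
          _ = _ := by
              rw [← pow_add]
              congr 3
              ring
      apply fin_help hS0 hW0 (by linarith) (h1.trans (mul_le_mul_of_nonneg_left h2 (by positivity)))
      exact num_help hLr hM1r (by linarith) i (10 * i + 1) (i + 1) hi2.le (by omega) (by omega)

end Pool.Agent.W851.Had
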