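import Pool.Agent.W851.Had.Moment
import Pool.Agent.H108R3.Had.N7a

/-! Many sums of sixteen members of the family. -/

namespace Pool.Agent.W851.Had

open Finset Pool.Agent.H108R3.Had

theorem e_mul_nat (θ : ℝ) (n : ℕ) : e (θ * n) = (e θ) ^ n := by
  unfold e
  rw [← Complex.exp_nat_mul]
  congr 1
  push_cast
  ring

/-- Parseval -/
theorem parseval (g : ℕ → ℝ) (P : ℕ) :
    ∑ a ∈ range P, ‖∑ n ∈ range P, (g n : ℂ) * e ((a : ℝ) / P * (n : ℝ))‖ ^ 2 =
      P * ∑ n ∈ range P, g n ^ 2 := by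
  have h1 : ((∑ a ∈ range P, ‖∑ n ∈ range P, (g n : ℂ) * e ((a : ℝ) / P * (n : ℝ))‖ ^ 2 : ℝ) : ℂ) =
      ((P * ∑ n ∈ range P, g n ^ 2 : ℝ) : ℂ) := by
    push_cast
    have h2 : ∀ a ∈ range P, ((‖∑ n ∈ range P, (g n : ℂ) * e ((a : ℝ) / P * (n : ℝ))‖ : ℂ)) ^ 2 =
        ∑ n ∈ range P, ∑ m ∈ range P, ((g n : ℂ) * (g m : ℂ)) *
          (e ((a : ℝ) / P * (n : ℝ)) * e (-((a : ℝ) / P * (m : ℝ)))) := by
      intro a _
      rw [← Complex.mul_conj', map_sum, Finset.sum_mul_sum]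
      refine Finset.sum_congr rfl fun n _ => Finset.sum_congr rfl fun m _ => ?_
      rw [map_mul, conj_e, Complex.conj_ofReal]
      ring
    rw [Finset.sum_congr rfl h2, Finset.sum_comm, Finset.mul_sum]
    refine Finset.sum_congr rfl fun n hn => ?_
    rw [Finset.sum_comm]
    have h3 : ∀ m ∈ range P, ∑ a ∈ range P, ((g n : ℂ) * (g m : ℂ)) *
          (e ((a : ℝ) / P * (n : ℝ)) * e (-((a : ℝ) / P * (m : ℝ)))) =
        if n = m then (P : ℂ) * (g n : ℂ) ^ 2 else 0 := by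
      intro m hm
      rw [← Finset.mul_sum, N7a_orth P n m (Finset.mem_range.1 hn) (Finset.mem_range.1 hm)]
      split_ifs with h
      · subst h; ring
      · ring
    rw [Finset.sum_congr rfl h3, Finset.sum_ite_eq, if_pos hn]
  exact_mod_cast h1

open Polynomial in
/-- the generating polynomial -/
noncomputable def fP (A : Finset ℕ) (κ T : ℕ) : ℕ[X] :=
  ∑ t ∈ Ico T (2 * T), SA A κ (fun m => (X : ℕ[X]) ^ (t * m))

open Polynomial

theorem fP_aeval (A : Finset ℕ) (κ T : ℕ) (α : ℝ) :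
    aeval (e α) (fP A κ T) = Sx A κ T α := by
  unfold fP Sx
  rw [map_sum]
  refine Finset.sum_congr rfl fun t _ => ?_
  have := SA_hom A ((aeval (R := ℕ) (e α)).toRingHom.toAddMonoidHom) κ
    (fun m => (X : ℕ[X]) ^ (t * m))
  refine this.trans ?_
  congr 1
  funext m
  show aeval (e α) ((X : ℕ[X]) ^ (t * m)) = _
  rw [map_pow, aeval_X, ← e_mul_nat]
  congr 1
  push_cast
  ring

theorem fP_eval_one (A : Finset ℕ) (κ T : ℕ) : (fP A κ T).eval 1 = T * A.card ^ κ := by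
  unfold fP
  rw [eval_finsetSum]
  have h : ∀ t ∈ Ico T (2 * T), (SA A κ (fun m => (X : ℕ[X]) ^ (t * m))).eval 1 = A.card ^ κ := by
    intro t _
    have := SA_hom A ((evalRingHom (1 : ℕ)).toAddMonoidHom) κ (fun m => (X : ℕ[X]) ^ (t * m))
    refine this.trans ?_
    have h2 : (fun m => (evalRingHom (1 : ℕ)).toAddMonoidHom ((X : ℕ[X]) ^ (t * m))) =
        fun _ => (1 : ℕ) := by
      funext m
      show ((X : ℕ[X]) ^ (t * m)).eval 1 = 1
      simp
    rw [h2, SA_const]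
  rw [Finset.sum_congr rfl h, Finset.sum_const, Nat.card_Ico, smul_eq_mul]
  congr 1
  omega

theorem fP_coeff (A : Finset ℕ) (κ T n : ℕ) (h : (fP A κ T).coeff n ≠ 0) :
    ∃ t ∈ Ico T (2 * T), ∃ m ∈ Pr A κ, n = t * m := by
  by_contra hcon
  push Not at hcon
  apply h
  unfold fP
  rw [finsetSum_coeff]
  apply Finset.sum_eq_zero
  intro t ht
  have := SA_hom A ((lcoeff ℕ n).toAddMonoidHom) κ (fun m => (X : ℕ[X]) ^ (t * m))
  refine this.trans ?_
  rw [SA_congr A κ (h := fun _ => 0)]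
  · have h0 : ∀ κ : ℕ, SA A κ (fun _ => (0 : ℕ)) = 0 := by
      intro κ
      induction κ with
      | zero => rfl
      | succ κ ih => simp only [SA, ih, Finset.sum_const_zero]
    exact h0 κ
  · intro m hm
    show ((X : ℕ[X]) ^ (t * m)).coeff n = 0
    rw [coeff_X_pow, if_neg (hcon t ht m hm)]

theorem coeff_pow_ne (f : ℕ[X]) (S : ℕ → Prop) (hf : ∀ n, f.coeff n ≠ 0 → S n) (k : ℕ) :
    ∀ n, (f ^ k).coeff n ≠ 0 → ∃ l : List ℕ, l.length = k ∧ (∀ y ∈ l, S y) ∧ l.sum = n := by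
  induction k with
  | zero =>
    intro n hn
    rw [pow_zero, coeff_one] at hn
    have : n = 0 := by
      by_contra h
      rw [if_neg h] at hn
      exact hn rfl
    exact ⟨[], rfl, by simp, by simp [this]⟩
  | succ k ih =>
    intro n hn
    rw [pow_succ, coeff_mul] at hn
    obtain ⟨x, hx, hx2⟩ := Finset.exists_ne_zero_of_sum_ne_zero hn
    rw [Finset.HasAntidiagonal.mem_antidiagonal] at hx
    obtain ⟨l, hl1, hl2, hl3⟩ := ih x.1 (left_ne_zero_of_mul hx2)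
    refine ⟨x.2 :: l, by simp [hl1], ?_, ?_⟩
    · intro y hy
      rcases List.mem_cons.1 hy with h | h
      · rw [h]; exact hf _ (right_ne_zero_of_mul hx2)
      · exact hl2 y h
    · rw [List.sum_cons, hl3]
      omega

/-- the members of the family -/
def Fam (A : Finset ℕ) (κ T n : ℕ) : Prop := ∃ t ∈ Ico T (2 * T), ∃ m ∈ Pr A κ, n = t * m

/-- sums of sixteen members are numerous -/
theorem many_sums (A : Finset ℕ) (M L κ T P : ℕ) (hW : Win A M L) (hMA : M ≤ L ^ 2 * A.card)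
    (hL : 1000 ≤ L) (hM1 : L ^ 40 ≤ M) (hX : T * M ^ κ ≤ 2 ^ L) (hκ : 4 ≤ κ)
    (hT1 : M ^ 3 ≤ T) (hT : T ≤ M ^ 4) (hP : P = 96 * (T * M ^ κ)) :
    ∃ B : Finset ℕ, (∀ n ∈ B, 1 ≤ n ∧ n < P ∧
      ∃ l : List ℕ, l.length = 16 ∧ (∀ y ∈ l, Fam A κ T y) ∧ l.sum = n) ∧
      P ≤ (2 ^ 32 * 294912) * B.card := by
  have hL0 : 0 < L := by omega
  have hM0 : 0 < M := lt_of_lt_of_le (by positivity) hM1
  have hT0 : 0 < T := lt_of_lt_of_le (by positivity) hT1
  have hA0 : 0 < A.card := by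
    rcases Nat.eq_zero_or_pos A.card with h | h
    · rw [h] at hMA; omega
    · exact h
  have hκL : 40 * κ ≤ L := by
    have h1 : 2 ^ (40 * κ) ≤ 2 ^ L := by
      calc 2 ^ (40 * κ) = (2 ^ 40) ^ κ := by rw [pow_mul]
        _ ≤ (L ^ 40) ^ κ := Nat.pow_le_pow_left (Nat.pow_le_pow_left (by omega) 40) κ
        _ ≤ M ^ κ := Nat.pow_le_pow_left hM1 κ
        _ ≤ T * M ^ κ := Nat.le_mul_of_pos_left _ hT0
        _ ≤ 2 ^ L := hX
    exact (Nat.pow_le_pow_iff_right (by norm_num)).1 h1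
  obtain ⟨g, hg⟩ : ∃ g : ℕ[X], g = (fP A κ T) ^ 16 := ⟨_, rfl⟩
  have hfam : ∀ y, Fam A κ T y → 1 ≤ y ∧ y < 6 * (T * M ^ κ) := by
    rintro y ⟨t, ht, m, hm, rfl⟩
    rw [Finset.mem_Ico] at ht
    obtain ⟨h1, h2, -⟩ := t_N2 A M L κ m hW (by omega) hm
    have hm0 : 0 < m := lt_of_lt_of_le (by positivity) h1
    refine ⟨Nat.mul_pos (by omega) hm0, ?_⟩
    calc t * m ≤ t * (3 * M ^ κ) := Nat.mul_le_mul_left _ h2
      _ < (2 * T) * (3 * M ^ κ) := Nat.mul_lt_mul_of_pos_right ht.2 (by positivity)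
      _ = 6 * (T * M ^ κ) := by ring
  have hsup : ∀ n, g.coeff n ≠ 0 → 1 ≤ n ∧ n < P ∧
      ∃ l : List ℕ, l.length = 16 ∧ (∀ y ∈ l, Fam A κ T y) ∧ l.sum = n := by
    intro n hn
    rw [hg] at hn
    obtain ⟨l, hl1, hl2, hl3⟩ := coeff_pow_ne (fP A κ T) (Fam A κ T) (fun n h => fP_coeff A κ T n h)
      16 n hn
    have hsum : ∀ l : List ℕ, (∀ y ∈ l, Fam A κ T y) →
        l.length ≤ l.sum ∧ l.sum + l.length ≤ l.length * (6 * (T * M ^ κ)) := by
      intro l
      induction l with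
      | nil => intro _; simp
      | cons y l ih =>
        intro h
        have h1 := hfam y (h y (by simp))
        have h2 := ih (fun z hz => h z (List.mem_cons_of_mem _ hz))
        simp only [List.length_cons, List.sum_cons]
        constructor
        · omega
        · rw [Nat.add_mul]
          omega
    have h3 := hsum l hl2
    rw [hl1, hl3] at h3
    refine ⟨by omega, by omega, l, hl1, hl2, hl3⟩
  have hdeg : g.natDegree < P := by
    rcases eq_or_ne g 0 with h0 | h0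
    · rw [h0, natDegree_zero, hP]; positivity
    · have := hsup g.natDegree (by
        rw [coeff_natDegree]
        exact leadingCoeff_ne_zero.2 h0)
      exact this.2.1
  -- values
  have hval : ∀ a ∈ range P, ‖∑ n ∈ range P, (((g.coeff n : ℕ) : ℝ) : ℂ) *
      e ((a : ℝ) / P * (n : ℝ))‖ ^ 2 = ‖Sx A κ T ((a : ℝ) / P)‖ ^ 32 := by
    intro a _
    have h1 : ∑ n ∈ range P, (((g.coeff n : ℕ) : ℝ) : ℂ) * e ((a : ℝ) / P * (n : ℝ)) =
        (Sx A κ T ((a : ℝ) / P)) ^ 16 := by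
      rw [← fP_aeval, ← map_pow, ← hg, aeval_eq_sum_range' hdeg]
      refine Finset.sum_congr rfl fun n _ => ?_
      rw [e_mul_nat, nsmul_eq_mul]
      push_cast
      rfl
    rw [h1, norm_pow, ← pow_mul]
  have hpars := parseval (fun n => ((g.coeff n : ℕ) : ℝ)) P
  rw [Finset.sum_congr rfl hval] at hpars
  have hmom := moment A M L κ T P hW hMA hL hM1 hX hκ hT1 hT hP
  rw [hpars] at hmom
  -- the total weight
  have hW1 : ((T : ℝ) * (A.card : ℝ) ^ κ) ^ 16 = ∑ n ∈ range P, ((g.coeff n : ℕ) : ℝ) := by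
    have h1 : g.eval 1 = (T * A.card ^ κ) ^ 16 := by
      rw [hg, eval_pow, fP_eval_one]
    have h2 : g.eval 1 = ∑ n ∈ range P, g.coeff n := by
      rw [eval_eq_sum_range' hdeg]
      simp
    rw [h1] at h2
    exact_mod_cast h2
  refine ⟨(range P).filter (fun n => g.coeff n ≠ 0), ?_, ?_⟩
  · intro n hn
    rw [Finset.mem_filter] at hn
    exact hsup n hn.2
  · obtain ⟨N, hN⟩ : ∃ N, N = ((range P).filter (fun n => g.coeff n ≠ 0)).card := ⟨_, rfl⟩
    rw [← hN]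
    have hcs : (∑ n ∈ range P, ((g.coeff n : ℕ) : ℝ)) ^ 2 ≤
        N * ∑ n ∈ range P, ((g.coeff n : ℕ) : ℝ) ^ 2 := by
      have h1 : ∑ n ∈ range P, ((g.coeff n : ℕ) : ℝ) =
          ∑ n ∈ (range P).filter (fun n => g.coeff n ≠ 0), ((g.coeff n : ℕ) : ℝ) := by
        rw [Finset.sum_filter]
        refine Finset.sum_congr rfl fun n _ => ?_
        split_ifs with h
        · rfl
        · push Not at h; rw [h]; simp
      have h2 : ∑ n ∈ range P, ((g.coeff n : ℕ) : ℝ) ^ 2 =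
          ∑ n ∈ (range P).filter (fun n => g.coeff n ≠ 0), ((g.coeff n : ℕ) : ℝ) ^ 2 := by
        rw [Finset.sum_filter]
        refine Finset.sum_congr rfl fun n _ => ?_
        split_ifs with h
        · rfl
        · push Not at h; rw [h]; simp
      rw [h1, h2, hN]
      exact sq_sum_le_card_mul_sum_sq
    rw [← hW1] at hcs
    have hWpos : (0 : ℝ) < ((T : ℝ) * (A.card : ℝ) ^ κ) ^ 32 := by
      have : (0 : ℝ) < T := by exact_mod_cast hT0
      have : (0 : ℝ) < A.card := by exact_mod_cast hA0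
      positivity
    obtain ⟨Z2, hZ2⟩ : ∃ x : ℝ, x = ∑ n ∈ range P, ((g.coeff n : ℕ) : ℝ) ^ 2 := ⟨_, rfl⟩
    rw [← hZ2] at hcs hmom
    rw [← pow_mul] at hcs
    norm_num only at hcs
    have hN0 : (0 : ℝ) ≤ N := Nat.cast_nonneg _
    have hP0 : (0 : ℝ) ≤ P := Nat.cast_nonneg _
    have h3 : (P : ℝ) * ((T : ℝ) * (A.card : ℝ) ^ κ) ^ 32 ≤
        ((2 ^ 32 * 294912) * N) * ((T : ℝ) * (A.card : ℝ) ^ κ) ^ 32 := by
      calc (P : ℝ) * ((T : ℝ) * (A.card : ℝ) ^ κ) ^ 32 ≤ P * (N * Z2) :=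
            mul_le_mul_of_nonneg_left hcs hP0
        _ = N * (P * Z2) := by ring
        _ ≤ N * ((2 ^ 32 * 294912) * ((T : ℝ) * (A.card : ℝ) ^ κ) ^ 32) :=
            mul_le_mul_of_nonneg_left hmom hN0
        _ = _ := by ring
    have h4 := le_of_mul_le_mul_right h3 hWpos
    exact_mod_cast h4

end Pool.Agent.W851.Had
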