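import Pool.Agent.W851.Had.Exact
import Pool.Agent.H108R3.Had.P8a

/-! The recursion: one more exponential at the cost of a constant factor. -/

namespace Pool.Agent.W851.Had

open Finset Pool.Agent.H108R3.Had

theorem mem_le_sum {l : List ℕ} {y : ℕ} (h : y ∈ l) : y ≤ l.sum := List.le_sum_of_mem h

/-- multiples of a small power of two -/
theorem lemB (h1 : St_base) (h2 : St_lift) (h3 : St_dbl) (h4 : St_add) (h5 : St_mul)
    {B M L k : ℕ} (hk : 1 ≤ k) (hB : ∀ s ≤ B, PUk k s) (hkM : 8 ^ k ≤ M)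
    (hex : ∀ n < 2 ^ L, ∃ l : List ℕ, l.length ≤ 2 ^ 57 ∧ (∀ y ∈ l, Rp B M y) ∧ l.sum = n)
    (c x : ℕ) (hx1 : x < 8 ^ c) (hx2 : x < 2 ^ L) : PUk (2 ^ 57 * (k + 1) - 1) (2 ^ c * x) := by
  obtain ⟨l, hl1, hl2, hl3⟩ := hex x hx2
  have hy : ∀ y ∈ l, PUk k (2 ^ c * y) := by
    intro y hy
    obtain ⟨t, l', rfl, ht, hl', hM⟩ := hl2 y hy
    apply t_prod h3 h5 k l' t c hk (hB t ht) (fun z hz => hB z (hl' z hz))
    have h6 : 8 ^ (k * l'.length) < 8 ^ c := by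
      calc 8 ^ (k * l'.length) = (8 ^ k) ^ l'.length := by rw [pow_mul]
        _ ≤ M ^ l'.length := Nat.pow_le_pow_left hkM _
        _ ≤ t * l'.prod := hM
        _ ≤ l.sum := mem_le_sum hy
        _ = x := hl3
        _ < 8 ^ c := hx1
    exact ((Nat.pow_lt_pow_iff_right (by norm_num)).1 h6).le
  have h6 := t_sum h1 h2 h4 k 57 (l.map (fun y => 2 ^ c * y)) (by
    intro z hz
    obtain ⟨y, hy1, rfl⟩ := List.mem_map.1 hz
    exact hy y hy1) (by rw [List.length_map]; exact hl1)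
  rw [List.sum_map_mul_left, List.map_id'] at h6
  rw [hl3] at h6
  exact h6

theorem one_PUk (h1 : St_base) (h2 : St_lift) (k : ℕ) : PUk k 1 := PUk_mono h2 (Nat.zero_le _) h1.2

/-- the step of the two-adic greedy algorithm -/
theorem greedy_step (R N e : ℕ) (hR : R % 2 = 1) (h : R ≡ N [MOD 2 ^ e]) :
    ∃ x < 2 ^ e, R * (1 + 2 ^ e * x) ≡ N [MOD 2 ^ (2 * e)] := by
  have : NeZero (2 ^ e) := ⟨by positivity⟩
  obtain ⟨d, hd⟩ : ∃ d : ℤ, (N : ℤ) - R = 2 ^ e * d := by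
    have h1 := (Nat.modEq_iff_dvd.1 h)
    push_cast at h1
    exact h1
  have hcop : Nat.Coprime R (2 ^ e) :=
    Nat.Coprime.pow_right e (Nat.odd_iff.2 hR).coprime_two_right
  have hu : (R : ZMod (2 ^ e)) * (R : ZMod (2 ^ e))⁻¹ = 1 := ZMod.coe_mul_inv_eq_one R hcop
  refine ⟨((d : ZMod (2 ^ e)) * (R : ZMod (2 ^ e))⁻¹).val, ZMod.val_lt _, ?_⟩
  obtain ⟨x, hx⟩ : ∃ x, x = ((d : ZMod (2 ^ e)) * (R : ZMod (2 ^ e))⁻¹).val := ⟨_, rfl⟩
  rw [← hx]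
  have h3 : ((R * x : ℤ) : ZMod (2 ^ e)) = ((d : ℤ) : ZMod (2 ^ e)) := by
    push_cast
    rw [hx, ZMod.natCast_zmod_val, mul_left_comm, hu, mul_one]
  have h4 := (ZMod.intCast_eq_intCast_iff_dvd_sub _ _ _).1 h3
  obtain ⟨w, hw⟩ := h4
  rw [Nat.modEq_iff_dvd]
  refine ⟨w, ?_⟩
  push_cast at hw ⊢
  have e1 : (N : ℤ) - R * (1 + 2 ^ e * x) = 2 ^ e * (d - R * x) := by linear_combination hd
  rw [e1, hw, two_mul, pow_add]
  ring

theorem greedy (K L : ℕ) (hP : ∀ e x : ℕ, x < 8 ^ e → x < 2 ^ L → PUk K (1 + 2 ^ e * x)) (N : ℕ)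
    (hN : N % 2 = 1) : ∀ i : ℕ, 2 ^ i ≤ L → ∃ l : List ℕ, l.length = i ∧ (∀ y ∈ l, PUk K y) ∧
      l.prod ≡ N [MOD 2 ^ (2 ^ i)] ∧ l.prod < 2 ^ (2 ^ (i + 1)) ∧ l.prod % 2 = 1 := by
  intro i
  induction i with
  | zero =>
    intro _
    refine ⟨[], rfl, by simp, ?_, by simp, by simp⟩
    simp [Nat.ModEq, hN]
  | succ i ih =>
    intro hi
    have hi' : 2 ^ i ≤ L := le_trans (Nat.pow_le_pow_right (by norm_num) (by omega)) hi
    obtain ⟨l, hl1, hl2, hl3, hl4, hl5⟩ := ih hi'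
    obtain ⟨x, hx1, hx2⟩ := greedy_step l.prod N (2 ^ i) hl5 hl3
    have hx3 : x < 8 ^ 2 ^ i := lt_of_lt_of_le hx1 (Nat.pow_le_pow_left (by norm_num) _)
    have hx4 : x < 2 ^ L := lt_of_lt_of_le hx1 (Nat.pow_le_pow_right (by norm_num) hi')
    have e1 : (1 + 2 ^ 2 ^ i * x) * l.prod = l.prod * (1 + 2 ^ 2 ^ i * x) := by ring
    have e2 : 2 ^ (i + 1) = 2 * 2 ^ i := by rw [pow_succ]; ring
    refine ⟨(1 + 2 ^ 2 ^ i * x) :: l, by simp [hl1], ?_, ?_, ?_, ?_⟩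
    · intro y hy
      rcases List.mem_cons.1 hy with h | h
      · rw [h]; exact hP _ _ hx3 hx4
      · exact hl2 y h
    · rw [List.prod_cons, e1, e2]
      exact hx2
    · rw [List.prod_cons]
      have h1 : 1 + 2 ^ 2 ^ i * x ≤ 2 ^ 2 ^ (i + 1) := by
        have h2 : 2 ^ 2 ^ i * (x + 1) ≤ 2 ^ 2 ^ i * 2 ^ 2 ^ i := Nat.mul_le_mul_left _ hx1
        have h3 : 2 ^ 2 ^ (i + 1) = 2 ^ 2 ^ i * 2 ^ 2 ^ i := by rw [e2, two_mul, pow_add]
        have h4 : 1 ≤ 2 ^ 2 ^ i := Nat.one_le_two_pow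
        rw [h3]
        rw [Nat.mul_add, Nat.mul_one] at h2
        omega
      have h5 : 2 ^ 2 ^ (i + 1 + 1) = 2 ^ 2 ^ (i + 1) * 2 ^ 2 ^ (i + 1) := by
        rw [← pow_add, ← two_mul, ← pow_succ']
      rw [h5]
      exact Nat.mul_lt_mul_of_le_of_lt h1 hl4 (by positivity)
    · rw [List.prod_cons, Nat.mul_mod, hl5]
      have h6 : (1 + 2 ^ 2 ^ i * x) % 2 = 1 := by
        have h7 : 2 ∣ 2 ^ 2 ^ i * x :=
          Dvd.dvd.mul_right (dvd_pow_self 2 (by positivity)) x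
        omega
      rw [h6]

/-- the recursion -/
theorem rec_step (h1 : St_base) (h2 : St_lift) (h3 : St_dbl) (h4 : St_add) (h5 : St_mul)
    {M L lam k Y : ℕ} (hlam : L = 2 ^ lam) (hlam1 : 1 ≤ lam) (hLM : L ^ 40 ≤ M)
    (hex : ∀ n < 2 ^ L, ∃ l : List ℕ, l.length ≤ 2 ^ 57 ∧ (∀ y ∈ l, Rp (L ^ 400) M y) ∧ l.sum = n)
    (hk : 1 ≤ k) (hkl : 3 * k ≤ 40 * lam) (hY : (2 ^ 58 * (k + 1) + 400) * lam + 2 ≤ Y)
    (hsm : ∀ s < 2 ^ Y, PUk k s) : ∀ N < 2 ^ L, PUk (2 ^ 60 * (k + 1) - 1) N := by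
  intro N hN
  obtain ⟨k₁, hk₁⟩ : ∃ k₁, k₁ = 2 ^ 57 * (k + 1) - 1 := ⟨_, rfl⟩
  obtain ⟨K, hK⟩ : ∃ K, K = 2 ^ 58 * (k + 1) - 1 := ⟨_, rfl⟩
  have hKk : K = 2 * k₁ + 1 := by omega
  have hk₃ : 2 ^ 2 * (K + 1) - 1 = 2 ^ 60 * (k + 1) - 1 := by omega
  have hB : ∀ s ≤ L ^ 400, PUk k s := by
    intro s hs
    apply hsm
    refine lt_of_le_of_lt hs ?_
    rw [hlam, ← pow_mul]
    apply Nat.pow_lt_pow_right (by norm_num)
    have : (2 ^ 58 * (k + 1) + 400) * lam = 2 ^ 58 * (k + 1) * lam + 400 * lam := by ring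
    have h6 : 0 < 2 ^ 58 * (k + 1) * lam := by positivity
    omega
  have hkM : 8 ^ k ≤ M := by
    calc 8 ^ k = 2 ^ (3 * k) := by rw [pow_mul]; norm_num
      _ ≤ 2 ^ (40 * lam) := Nat.pow_le_pow_right (by norm_num) hkl
      _ = L ^ 40 := by rw [hlam, ← pow_mul, mul_comm]
      _ ≤ M := hLM
  have hB1 := lemB h1 h2 h3 h4 h5 hk hB hkM hex
  rw [← hk₁] at hB1
  have hP : ∀ e x : ℕ, x < 8 ^ e → x < 2 ^ L → PUk K (1 + 2 ^ e * x) := by
    intro e x hx1 hx2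
    rw [hKk]
    exact PUk_add h2 h4 (one_PUk h1 h2 k₁) (hB1 e x hx1 hx2)
  have hkK : k ≤ K := by omega
  have hk₁K : k₁ ≤ K := by omega
  have hK1 : 1 ≤ K := by omega
  rcases Nat.lt_or_ge N (2 ^ (K + 5)) with hsmall | hbig
  · rw [← hk₃]
    apply PUk_mono h2 (by omega : k ≤ 2 ^ 2 * (K + 1) - 1)
    apply hsm
    refine lt_of_lt_of_le hsmall (Nat.pow_le_pow_right (by norm_num) ?_)
    have h6 : (2 ^ 58 * (k + 1) + 400) * 1 ≤ (2 ^ 58 * (k + 1) + 400) * lam :=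
      Nat.mul_le_mul_left _ hlam1
    omega
  -- choose the scale
  obtain ⟨E, hE⟩ : ∃ E : ℕ → ℕ, E = fun i => K * i + 2 ^ (i + 1) + 1 := ⟨_, rfl⟩
  have hEx : ∃ i : ℕ, 1 ≤ i ∧ 2 ^ E i ≤ N ∧ N < 2 ^ E (i + 1) := by
    classical
    have hP1 : 2 ^ E 1 ≤ N := by
      rw [hE]
      have : K * 1 + 2 ^ (1 + 1) + 1 = K + 5 := by ring
      simp only [this]
      exact hbig
    have hiE : ∀ i, i ≤ 2 ^ E i := by
      intro i
      have h6 : i ≤ E i := by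
        rw [hE]
        show i ≤ K * i + 2 ^ (i + 1) + 1
        have : i ≤ K * i := Nat.le_mul_of_pos_left i hK1
        exact this.trans ((Nat.le_add_right _ _).trans (Nat.le_add_right _ _))
      exact h6.trans (Nat.lt_two_pow_self).le
    refine ⟨Nat.findGreatest (fun i => 2 ^ E i ≤ N) N, ?_, ?_, ?_⟩
    · exact Nat.le_findGreatest ((hiE 1).trans hP1) hP1
    · exact Nat.findGreatest_spec (P := fun i => 2 ^ E i ≤ N) ((hiE 1).trans hP1) hP1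
    · by_contra hcon
      push Not at hcon
      have h7 := Nat.le_findGreatest (P := fun i => 2 ^ E i ≤ N) ((hiE _).trans hcon) hcon
      omega
  obtain ⟨i, hi1, hi2, hi3⟩ := hEx
  have hEi : E i < L := by
    have h6 := lt_of_le_of_lt hi2 hN
    exact (Nat.pow_lt_pow_iff_right (by norm_num)).1 h6
  have hEi' : E i = K * i + 2 ^ (i + 1) + 1 := by rw [hE]
  have hEi1 : E (i + 1) = K * (i + 1) + 2 ^ (i + 1 + 1) + 1 := by rw [hE]
  have hp1 : 2 ^ (i + 1) = 2 * 2 ^ i := by rw [pow_succ]; ring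
  have hp2 : 2 ^ (i + 1 + 1) = 4 * 2 ^ i := by rw [pow_succ, hp1]; ring
  have hiL : 2 ^ i ≤ L := by omega
  have hilam : i ≤ lam := by
    have h6 : 2 ^ i < 2 ^ lam := by rw [← hlam]; omega
    exact ((Nat.pow_lt_pow_iff_right (by norm_num)).1 h6).le
  obtain ⟨c, hc⟩ : ∃ c, c = K * i := ⟨_, rfl⟩
  obtain ⟨n, hn⟩ : ∃ n, n = 2 ^ i := ⟨_, rfl⟩
  have hn1 : 1 ≤ n := by rw [hn]; exact Nat.one_le_two_pow
  have hKc : K ≤ c := by rw [hc]; exact Nat.le_mul_of_pos_right K hi1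
  have hEe : E i = c + 2 * n + 1 := by rw [hEi', hp1, hc, hn]
  have hEe1 : E (i + 1) = c + K + 4 * n + 1 := by rw [hEi1, hp2, hc, hn]; ring
  rw [hEe] at hi2
  rw [hEe1] at hi3
  -- the remainder
  obtain ⟨s, N₁, hs, hNs, hodd⟩ : ∃ s N₁ : ℕ, s < 2 ^ (c + 1) ∧ N = s + 2 ^ c * N₁ ∧ N₁ % 2 = 1 := by
    have h6 := Nat.div_add_mod N (2 ^ c)
    have h7 := Nat.mod_lt N (show 2 ^ c > 0 by positivity)
    have h8 : 2 ^ (c + 1) = 2 * 2 ^ c := by rw [pow_succ]; ring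
    rcases Nat.mod_two_eq_zero_or_one (N / 2 ^ c) with h9 | h9
    · have h10 : 1 ≤ N / 2 ^ c := by
        rw [Nat.le_div_iff_mul_le (by positivity), one_mul]
        refine le_trans ?_ hi2
        exact Nat.pow_le_pow_right (by norm_num) (by omega)
      obtain ⟨u, hu⟩ : ∃ u, N / 2 ^ c = u + 1 := ⟨N / 2 ^ c - 1, by omega⟩
      refine ⟨N % 2 ^ c + 2 ^ c, u, by omega, ?_, by omega⟩
      rw [hu] at h6
      rw [← h6]
      have : 2 ^ c * (u + 1) = 2 ^ c * u + 2 ^ c := by ring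
      rw [this]
      have h11 : (2 ^ c * u + 2 ^ c + N % 2 ^ c) % 2 ^ c = N % 2 ^ c := by
        have e1 : 2 ^ c * u + 2 ^ c + N % 2 ^ c = N % 2 ^ c + 2 ^ c * (u + 1) := by ring
        rw [e1, Nat.add_mul_mod_self_left, Nat.mod_mod]
      rw [h11]
      ring
    · refine ⟨N % 2 ^ c, N / 2 ^ c, by omega, by omega, h9⟩
  obtain ⟨l, hl1, hl2, hl3, hl4, -⟩ := greedy K L hP N₁ hodd i hiL
  rw [hp1, ← hn] at hl4
  rw [← hn] at hl3
  have hN₁ : l.prod ≤ N₁ := by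
    have h6 : 2 ^ (c + 2 * n + 1) = 2 ^ c * (2 * 2 ^ (2 * n)) := by
      rw [pow_succ, pow_add]; ring
    have h7 : 2 ^ (c + 1) = 2 ^ c * 2 := by rw [pow_succ]
    have h8 : 2 ^ c * (2 * 2 ^ (2 * n)) < 2 ^ c * (2 + N₁) := by
      rw [← h6]
      calc 2 ^ (c + 2 * n + 1) ≤ N := hi2
        _ = s + 2 ^ c * N₁ := hNs
        _ < 2 ^ (c + 1) + 2 ^ c * N₁ := by omega
        _ = 2 ^ c * (2 + N₁) := by rw [h7]; ring
    have h9 := Nat.lt_of_mul_lt_mul_left h8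
    have h10 : 2 ≤ 2 ^ (2 * n) := by
      calc 2 = 2 ^ 1 := rfl
        _ ≤ 2 ^ (2 * n) := Nat.pow_le_pow_right (by norm_num) (by omega)
    omega
  obtain ⟨x, hx⟩ : ∃ x, N₁ - l.prod = 2 ^ n * x := by
    have h6 := (Nat.modEq_iff_dvd' hN₁).1 hl3
    exact h6
  have hNeq : N = s + (2 ^ c * (1 * l.prod) + 2 ^ (c + n) * x) := by
    have h6 : N₁ = l.prod + 2 ^ n * x := by omega
    rw [hNs, h6, pow_add]
    ring
  have hx1 : x < 8 ^ (c + n) := by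
    have h6 : 2 ^ (c + n) * x < 2 ^ (c + n) * 8 ^ (c + n) := by
      calc 2 ^ (c + n) * x ≤ N := by
            rw [hNeq]; omega
        _ < 2 ^ (c + K + 4 * n + 1) := hi3
        _ ≤ 2 ^ (4 * (c + n)) := Nat.pow_le_pow_right (by norm_num) (by omega)
        _ = 2 ^ (c + n) * 8 ^ (c + n) := by
            rw [← Nat.mul_pow, pow_mul]; norm_num
    exact Nat.lt_of_mul_lt_mul_left h6
  have hx2 : x < 2 ^ L := by
    refine lt_of_le_of_lt ?_ hN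
    calc x ≤ 2 ^ (c + n) * x := Nat.le_mul_of_pos_left _ (by positivity)
      _ ≤ N := by rw [hNeq]; omega
  have t1 : PUk K s := by
    apply PUk_mono h2 hkK
    apply hsm
    refine lt_of_lt_of_le hs (Nat.pow_le_pow_right (by norm_num) ?_)
    have h6 : c ≤ K * lam := by rw [hc]; exact Nat.mul_le_mul_left _ hilam
    have h7 : K * lam ≤ (2 ^ 58 * (k + 1) + 400) * lam := Nat.mul_le_mul_right _ (by omega)
    omega
  have t2 : PUk K (2 ^ c * (1 * l.prod)) := by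
    apply t_prod h3 h5 K l 1 c hK1 (one_PUk h1 h2 K) hl2
    rw [hl1, hc]
  have t3 : PUk K (2 ^ (c + n) * x) := PUk_mono h2 hk₁K (hB1 _ _ hx1 hx2)
  have t4 := t_sum h1 h2 h4 K 2 [s, 2 ^ c * (1 * l.prod), 2 ^ (c + n) * x] (by
    intro y hy
    simp only [List.mem_cons, List.not_mem_nil, or_false] at hy
    rcases hy with rfl | rfl | rfl
    · exact t1
    · exact t2
    · exact t3) (by simp)
  rw [hk₃] at t4
  have e1 : [s, 2 ^ c * (1 * l.prod), 2 ^ (c + n) * x].sum = N := by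
    rw [hNeq]
    simp
  rw [e1] at t4
  exact t4

end Pool.Agent.W851.Had
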