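import Pool.Agent.W851.Had.Nn
import Pool.Agent.H108R3.Had.N3

/-! Sums over products of primes: monotonicity, Cauchy-Schwarz, divisor and gcd averages. -/

namespace Pool.Agent.W851.Had

open Finset Pool.Agent.H108R3.Had

variable (A : Finset ℕ)

theorem SA_mono (κ : ℕ) : ∀ {f g : ℕ → ℝ}, (∀ m ∈ Pr A κ, f m ≤ g m) → SA A κ f ≤ SA A κ g := by
  induction κ with
  | zero => intro f g h; exact h 1 (by simp [Pr])
  | succ κ ih =>
    intro f g h
    simp only [SA]
    refine Finset.sum_le_sum fun p hp => ih fun m hm => h _ ?_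
    simp only [Pr, Finset.mem_biUnion, Finset.mem_image]
    exact ⟨p, hp, m, hm, rfl⟩

theorem SA_mul (κ : ℕ) (c : ℝ) : ∀ (f : ℕ → ℝ), SA A κ (fun m => c * f m) = c * SA A κ f := by
  induction κ with
  | zero => intro f; rfl
  | succ κ ih =>
    intro f
    simp only [SA, ih, Finset.mul_sum]

theorem SA_add' (κ : ℕ) : ∀ (f g : ℕ → ℝ), SA A κ (fun m => f m + g m) = SA A κ f + SA A κ g := by
  induction κ with
  | zero => intro f g; rfl
  | succ κ ih =>
    intro f g
    simp only [SA, ih, Finset.sum_add_distrib]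

theorem SA_constR (κ : ℕ) (c : ℝ) : SA A κ (fun _ => c) = (A.card : ℝ) ^ κ * c := by
  induction κ with
  | zero => simp [SA]
  | succ κ ih => simp only [SA, ih, Finset.sum_const, nsmul_eq_mul]; ring

theorem SA_nonneg (κ : ℕ) {f : ℕ → ℝ} (h : ∀ m ∈ Pr A κ, 0 ≤ f m) : 0 ≤ SA A κ f := by
  have := SA_mono A κ (f := fun _ => 0) (g := f) h
  rw [SA_constR, mul_zero] at this
  exact this

theorem norm_SA (κ : ℕ) : ∀ (g : ℕ → ℂ), ‖SA A κ g‖ ≤ SA A κ (fun m => ‖g m‖) := by
  induction κ with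
  | zero => intro g; exact le_rfl
  | succ κ ih =>
    intro g
    simp only [SA]
    exact (norm_sum_le _ _).trans (Finset.sum_le_sum fun p _ => ih _)

theorem SA_cs (κ : ℕ) : ∀ (f : ℕ → ℝ),
    (SA A κ f) ^ 2 ≤ (A.card : ℝ) ^ κ * SA A κ (fun m => f m ^ 2) := by
  induction κ with
  | zero => intro f; simp [SA]
  | succ κ ih =>
    intro f
    simp only [SA]
    refine (sq_sum_le_card_mul_sum_sq).trans ?_
    have h1 : ∑ p ∈ A, (SA A κ (fun m => f (p * m))) ^ 2 ≤
        ∑ p ∈ A, (A.card : ℝ) ^ κ * SA A κ (fun m => f (p * m) ^ 2) :=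
      Finset.sum_le_sum fun p _ => ih (fun m => f (p * m))
    rw [← Finset.mul_sum] at h1
    calc (A.card : ℝ) * ∑ p ∈ A, (SA A κ (fun m => f (p * m))) ^ 2 ≤
        (A.card : ℝ) * ((A.card : ℝ) ^ κ * ∑ p ∈ A, SA A κ (fun m => f (p * m) ^ 2)) :=
          mul_le_mul_of_nonneg_left h1 (Nat.cast_nonneg _)
      _ = _ := by rw [pow_succ]; ring

theorem card_dvd {M j q : ℕ} (hA : ∀ p ∈ A, p.Prime ∧ M ≤ p) (hM : 1 < M) (hq : 1 ≤ q)
    (hqM : q < M ^ (j + 1)) : (A.filter (fun p => p ∣ q)).card ≤ j := by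
  have h1 : (∏ p ∈ A.filter (fun p => p ∣ q), p) ∣ q := by
    apply Finset.prod_primes_dvd
    · intro p hp
      exact (hA p (Finset.mem_filter.1 hp).1).1.prime
    · intro p hp
      exact (Finset.mem_filter.1 hp).2
  have h2 := Nat.le_of_dvd (by omega) h1
  have h3 : M ^ (A.filter (fun p => p ∣ q)).card ≤ ∏ p ∈ A.filter (fun p => p ∣ q), p := by
    apply Finset.pow_card_le_prod
    intro p hp
    exact (hA p (Finset.mem_filter.1 hp).1).2
  have h4 := lt_of_le_of_lt (h3.trans h2) hqM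
  have := (Nat.pow_lt_pow_iff_right hM).1 h4
  omega

theorem SA_dvd (u : ℕ) (j : ℕ) : SA A j (fun m => if m ∣ u then (1 : ℝ) else 0) ≤
    ((A.filter (fun p => p ∣ u)).card : ℝ) ^ j := by
  induction j with
  | zero => simp [SA]
  | succ j ih =>
    simp only [SA]
    have h1 : ∀ p ∈ A, SA A j (fun m => if p * m ∣ u then (1 : ℝ) else 0) ≤
        if p ∣ u then ((A.filter (fun p => p ∣ u)).card : ℝ) ^ j else 0 := by
      intro p _
      split_ifs with h
      · refine le_trans (SA_mono A j fun m _ => ?_) ih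
        show (if p * m ∣ u then (1 : ℝ) else 0) ≤ if m ∣ u then (1 : ℝ) else 0
        split_ifs with h1 h2 h2
        · exact le_rfl
        · exact absurd ((Dvd.intro_left p rfl).trans h1) h2
        · exact zero_le_one
        · exact le_rfl
      · have h2 : SA A j (fun m => if p * m ∣ u then (1 : ℝ) else 0) = SA A j (fun _ => (0 : ℝ)) := by
          congr 1
          funext m
          rw [if_neg]
          intro h3
          exact h ((dvd_mul_right p m).trans h3)
        rw [h2, SA_constR, mul_zero]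
    refine (Finset.sum_le_sum h1).trans (le_of_eq ?_)
    rw [← Finset.sum_filter, Finset.sum_const, nsmul_eq_mul, pow_succ]
    ring

theorem pow_add_ge {x K : ℝ} (hx : 0 ≤ x) (hK : 0 ≤ K) (j : ℕ) :
    x ^ j + j * K * x ^ (j - 1) ≤ (x + K) ^ j := by
  induction j with
  | zero => simp
  | succ j ih =>
    have h1 : (x ^ j + j * K * x ^ (j - 1)) * (x + K) ≤ (x + K) ^ (j + 1) := by
      rw [pow_succ]
      exact mul_le_mul_of_nonneg_right ih (by positivity)
    refine le_trans ?_ h1
    rw [Nat.add_sub_cancel]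
    push_cast
    rcases Nat.eq_zero_or_pos j with h0 | h0
    · subst h0; simp
    · obtain ⟨i, rfl⟩ : ∃ i, j = i + 1 := ⟨j - 1, by omega⟩
      simp only [Nat.add_sub_cancel]
      have h2 : 0 ≤ ((i + 1 : ℕ) : ℝ) * K * x ^ i * K := by positivity
      have e : x ^ (i + 1) = x ^ i * x := pow_succ _ _
      have e2 : x ^ (i + 1 + 1) = x ^ i * x * x := by rw [pow_succ, e]
      rw [e2, e]
      nlinarith

/-- average of the greatest common divisor -/
theorem SA_gcd {M : ℕ} (hA : ∀ p ∈ A, p.Prime ∧ M ≤ p) (hA2 : ∀ p ∈ A, p ≤ 2 * M) (hM : 1 < M)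
    (hA0 : 0 < A.card) (κ : ℕ) : ∀ (j q : ℕ), 1 ≤ q → q < M ^ (j + 1) →
    SA A κ (fun m => ((Nat.gcd q m : ℕ) : ℝ)) ≤
      (A.card : ℝ) ^ κ * (1 + κ * (2 * M / A.card)) ^ j := by
  have ha : (0 : ℝ) < A.card := by exact_mod_cast hA0
  set K : ℝ := 2 * M / A.card with hK
  have hK0 : 0 ≤ K := by positivity
  have h11 : (2 * M : ℝ) = K * A.card := (div_mul_cancel₀ _ ha.ne').symm
  clear_value K
  clear hK
  induction κ with
  | zero => intro j q _ _; simp [SA]
  | succ κ ih =>
    intro j q hq hqM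
    simp only [SA]
    have h1 : ∀ p ∈ A, SA A κ (fun m => ((Nat.gcd q (p * m) : ℕ) : ℝ)) ≤
        (A.card : ℝ) ^ κ * (1 + κ * K) ^ j +
        (if p ∣ q then 2 * M * ((A.card : ℝ) ^ κ * (1 + κ * K) ^ (j - 1)) else 0) := by
      intro p hp
      have hpp := hA p hp
      split_ifs with h
      · obtain ⟨q', rfl⟩ := h
        have hq' : 1 ≤ q' := by
          rcases Nat.eq_zero_or_pos q' with h0 | h0
          · subst h0; simp at hq
          · exact h0
        have hj : 1 ≤ j := by
          rcases Nat.eq_zero_or_pos j with h0 | h0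
          · subst h0
            exfalso
            have : M ≤ p * q' := hpp.2.trans (Nat.le_mul_of_pos_right _ hq')
            simp at hqM
            omega
          · exact h0
        have hq'M : q' < M ^ (j - 1 + 1) := by
          rw [Nat.sub_add_cancel hj]
          have h2 : M * q' < M * M ^ j := by
            calc M * q' ≤ p * q' := Nat.mul_le_mul_right _ hpp.2
              _ < M ^ (j + 1) := hqM
              _ = M * M ^ j := by rw [pow_succ']
          exact Nat.lt_of_mul_lt_mul_left h2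
        have h3 := ih (j - 1) q' hq' hq'M
        have h4 : (fun m => ((Nat.gcd (p * q') (p * m) : ℕ) : ℝ)) =
            fun m => (p : ℝ) * ((Nat.gcd q' m : ℕ) : ℝ) := by
          funext m
          rw [Nat.gcd_mul_left]
          push_cast
          ring
        rw [h4, SA_mul]
        have h5 : (p : ℝ) ≤ 2 * M := by exact_mod_cast hA2 p hp
        have h6 : 0 ≤ SA A κ (fun m => ((Nat.gcd q' m : ℕ) : ℝ)) :=
          SA_nonneg A κ fun m _ => Nat.cast_nonneg _
        have h7 : (p : ℝ) * SA A κ (fun m => ((Nat.gcd q' m : ℕ) : ℝ)) ≤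
            2 * M * ((A.card : ℝ) ^ κ * (1 + κ * K) ^ (j - 1)) :=
          mul_le_mul h5 h3 h6 (by positivity)
        have h8 : 0 ≤ (A.card : ℝ) ^ κ * (1 + κ * K) ^ j := by positivity
        linarith
      · have hcop : Nat.Coprime q p := ((Nat.Prime.coprime_iff_not_dvd hpp.1).2 h).symm
        have h4 : (fun m => ((Nat.gcd q (p * m) : ℕ) : ℝ)) = fun m => ((Nat.gcd q m : ℕ) : ℝ) := by
          funext m
          rw [Nat.Coprime.gcd_mul_left_cancel_right m hcop.symm]
        rw [h4, add_zero]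
        exact ih j q hq hqM
    refine (Finset.sum_le_sum h1).trans ?_
    rw [Finset.sum_add_distrib, ← Finset.sum_filter, Finset.sum_const, Finset.sum_const,
      nsmul_eq_mul, nsmul_eq_mul]
    have hc : ((A.filter (fun p => p ∣ q)).card : ℝ) ≤ j := by
      exact_mod_cast card_dvd A hA hM hq hqM
    have h9 : ((A.filter (fun p => p ∣ q)).card : ℝ) *
        (2 * M * ((A.card : ℝ) ^ κ * (1 + κ * K) ^ (j - 1))) ≤
        j * (2 * M * ((A.card : ℝ) ^ κ * (1 + κ * K) ^ (j - 1))) :=
      mul_le_mul_of_nonneg_right hc (by positivity)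
    have h10 := pow_add_ge (x := 1 + κ * K) (by positivity) hK0 j
    have e1 : (1 : ℝ) + ((κ + 1 : ℕ) : ℝ) * K = 1 + κ * K + K := by push_cast; ring
    rw [e1]
    calc (A.card : ℝ) * ((A.card : ℝ) ^ κ * (1 + κ * K) ^ j) +
        ((A.filter (fun p => p ∣ q)).card : ℝ) *
          (2 * M * ((A.card : ℝ) ^ κ * (1 + κ * K) ^ (j - 1)))
        ≤ (A.card : ℝ) * ((A.card : ℝ) ^ κ * (1 + κ * K) ^ j) +
          j * (2 * M * ((A.card : ℝ) ^ κ * (1 + κ * K) ^ (j - 1))) := by linarith
      _ = (A.card : ℝ) ^ (κ + 1) * ((1 + κ * K) ^ j + j * K * (1 + κ * K) ^ (j - 1)) := by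
          rw [h11, pow_succ]; ring
      _ ≤ (A.card : ℝ) ^ (κ + 1) * (1 + κ * K + K) ^ j :=
          mul_le_mul_of_nonneg_left h10 (by positivity)

end Pool.Agent.W851.Had
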